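import Pool.Agent.WTG.PropK

/-!
# [WTG-Cross] the links of a tight graph (helper33)

`link`: many `(q+1)`-cliques with all vertices except the one at `0` in `N(x)` (`propPK` and `coN`). `adj_far`: if `x ~ y` then `N(y) \ N(x)` is large, as otherwise most
cliques of `link` for `y` are in `N(x) ∩ N(y)` except for the vertex at `0` and `boxplus` gives the plus graph. `ntna`, `cross` are corollaries.
-/

set_option autoImplicit false

namespace Pool.Agent.WTG

open Pool.Agent.WT7 Pool.Agent.WTK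

variable {α β V : Type}

open Classical in
/-- cliques from their first vertex, which is in `Y`, the others are in `S` -/
theorem cq_cons2 [Finite V] (G : SimpleGraph V) (Y S : Set V) (j : ℕ) {c : ℝ}
    (hc : ∀ y ∈ Y, c ≤ ((cq G (G.neighborSet y ∩ S) (Fin j)).ncard : ℝ)) :
    (Y.ncard : ℝ) * c ≤ (({f : Fin (j + 1) → V | (∀ i i', i ≠ i' → G.Adj (f i) (f i')) ∧
        ∀ i, i ≠ 0 → f i ∈ S}.ncard : ℕ) : ℝ) := by
  have := Fintype.ofFinite V
  obtain ⟨A, hA⟩ : ∃ A : Set (Fin (j + 1) → V), A = {f : Fin (j + 1) → V | (∀ i i', i ≠ i' → G.Adj (f i) (f i')) ∧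
        ∀ i, i ≠ 0 → f i ∈ S} := ⟨_, rfl⟩
  rw [← hA]
  have h1 : (Y.toFinset.sigma (fun v => (cq G (G.neighborSet v ∩ S) (Fin j)).toFinset)).card ≤ A.toFinset.card := by
    refine Finset.card_le_card_of_injOn (fun p => (Fin.cons p.1 p.2 : Fin (j + 1) → V)) ?_ ?_
    · rintro ⟨v, f⟩ hp
      simp only [Finset.mem_coe, Finset.mem_sigma, Set.mem_toFinset] at hp
      obtain ⟨h1, h2, h3⟩ := hp
      simp only [Finset.mem_coe, Set.mem_toFinset, hA]
      refine ⟨fun i j => ?_, fun i => ?_⟩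
      · refine Fin.cases ?_ (fun i => ?_) i <;> refine Fin.cases ?_ (fun j => ?_) j
        · intro h
          exact absurd rfl h
        · intro _
          exact (h2 j).1
        · intro _
          exact ((h2 i).1 : G.Adj v (f i)).symm
        · intro h
          exact h3 i j fun h' => h (by rw [h'])
      · refine Fin.cases ?_ (fun i => ?_) i
        · intro h
          exact absurd rfl h
        · intro _
          exact (h2 i).2
    · rintro ⟨v, f⟩ _ ⟨v', f'⟩ _ h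
      have h1 : v = v' := by
        have := congrFun h 0
        simpa using this
      have h2 : f = f' := by
        funext i
        have := congrFun h i.succ
        simpa using this
      rw [h1, h2]
  rw [Finset.card_sigma, ← Set.ncard_eq_toFinset_card' A] at h1
  have h2 : ∑ v ∈ Y.toFinset, ((cq G (G.neighborSet v ∩ S) (Fin j)).toFinset.card : ℝ) ≤ A.ncard := by exact_mod_cast h1
  refine le_trans ?_ h2
  calc (Y.ncard : ℝ) * c = ∑ _v ∈ Y.toFinset, c := by
        rw [Finset.sum_const, nsmul_eq_mul, Set.ncard_eq_toFinset_card']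
    _ ≤ _ := Finset.sum_le_sum fun v hv => by
        rw [← Set.ncard_eq_toFinset_card']
        exact hc v (Set.mem_toFinset.1 hv)

/-- (LINK) many `(q+1)`-cliques with all vertices except the one at `0` in `N(x)` -/
theorem link [Finite α] [Nonempty α] {q t : ℕ} (hq : 1 ≤ q) {H : SimpleGraph α} (hH : H.Colorable 2) (hI : NoIso H) :
    ∃ c : ℝ, 0 < c ∧ ∃ n₀ : ℕ, ∀ (V : Type) [Finite V], n₀ ≤ Nat.card V → ∀ G : SimpleGraph V,
      TS q t H G → ∀ x, c * (Nat.card V : ℝ) ^ (q + 1) ≤ (({f : Fin (q + 1) → V | (∀ i i', i ≠ i' → G.Adj (f i) (f i')) ∧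
        ∀ i, i ≠ 0 → f i ∈ G.neighborSet x}.ncard : ℕ) : ℝ) := by
  obtain ⟨ρ, hρ, n₁, h1⟩ := coN (t := t) hq hH hI
  obtain ⟨δ, hδ, n₂, h2⟩ := propPK (t := t) hq hH hI (ρ := ρ / 2) (by positivity)
  refine ⟨ρ / 2 * δ, by positivity, n₁ + n₂, fun V _ hV G hG x => ?_⟩
  have h3 := h1 V (by omega) G hG x
  have h4 := h2 V (by omega) G hG x
  have h5 := cq_cons2 G ((G.neighborSet x)ᶜ \ ZK G q x δ) (G.neighborSet x) q (c := δ * (Nat.card V : ℝ) ^ q)
    (fun y hy => by
      by_contra hcon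
      push Not at hcon
      exact hy.2 ⟨hy.1, hcon⟩)
  refine le_trans ?_ h5
  have h6 : ρ / 2 * Nat.card V ≤ ((((G.neighborSet x)ᶜ \ ZK G q x δ).ncard : ℕ) : ℝ) := by
    have h7 : (((G.neighborSet x)ᶜ).ncard : ℝ) ≤ ((((G.neighborSet x)ᶜ \ ZK G q x δ).ncard : ℕ) : ℝ) +
        ((ZK G q x δ).ncard : ℝ) := by
      exact_mod_cast Set.ncard_le_ncard_sdiff_add_ncard _ _ (Set.toFinite _)
    linarith
  calc ρ / 2 * δ * (Nat.card V : ℝ) ^ (q + 1) = ρ / 2 * Nat.card V * (δ * (Nat.card V : ℝ) ^ q) := by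
        rw [pow_succ]
        ring
    _ ≤ _ := mul_le_mul_of_nonneg_right h6 (by positivity)

/-- adjacent vertices have rather different neighbourhoods -/
theorem adj_far [Finite α] [Nonempty α] {q t : ℕ} (hq : 1 ≤ q) {H : SimpleGraph α} (hH : H.Colorable 2) (hI : NoIso H) :
    ∃ ρ : ℝ, 0 < ρ ∧ ∃ n₀ : ℕ, ∀ (V : Type) [Finite V], n₀ ≤ Nat.card V → ∀ G : SimpleGraph V,
      TS q t H G → ∀ x y, G.Adj x y → ρ * Nat.card V < ((G.neighborSet y \ G.neighborSet x).ncard : ℝ) := by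
  obtain ⟨c, hc, n₁, h1⟩ := link (t := t) hq hH hI
  obtain ⟨n₂, h2⟩ := boxplus q t (γ := c / 2) (by positivity)
  have hq1 : (0 : ℝ) < (q : ℝ) + 1 := by positivity
  refine ⟨c / (2 * (q + 1)), by positivity, n₁ + n₂, fun V _ hV G hG x y hxy => ?_⟩
  by_contra hcon
  push Not at hcon
  apply hG.noplus
  refine h2 V (by omega) G x y hxy ?_
  have h3 := h1 V (by omega) G hG y
  have e1 : ({f : Fin (q + 1) → V | (∀ i i', i ≠ i' → G.Adj (f i) (f i')) ∧
        ∀ i, i ≠ 0 → f i ∈ G.neighborSet y}.ncard) ≤ ({f : Fin (q + 1) → V | (∀ i i', i ≠ i' → G.Adj (f i) (f i')) ∧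
        ∀ i, i ≠ 0 → f i ∈ G.neighborSet x ∩ G.neighborSet y}.ncard) +
      ({f : Fin (q + 1) → V | ∃ v, f v ∈ G.neighborSet y \ G.neighborSet x}).ncard := by
    refine le_trans (Set.ncard_le_ncard ?_ (Set.toFinite _)) (Set.ncard_union_le _ _)
    intro f hf
    by_cases h : ∃ v, f v ∈ G.neighborSet y \ G.neighborSet x
    · exact Or.inr h
    · left
      push Not at h
      refine ⟨hf.1, fun i hi => ⟨?_, hf.2 i hi⟩⟩
      by_contra h4
      exact h i ⟨hf.2 i hi, h4⟩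
  have e2 := ncard_hit_le (κ := Fin (q + 1)) (G.neighborSet y \ G.neighborSet x)
  rw [Nat.card_fin, Nat.add_sub_cancel] at e2
  have e3 : (({f : Fin (q + 1) → V | (∀ i i', i ≠ i' → G.Adj (f i) (f i')) ∧
        ∀ i, i ≠ 0 → f i ∈ G.neighborSet y}.ncard : ℕ) : ℝ) ≤
      (({f : Fin (q + 1) → V | (∀ i i', i ≠ i' → G.Adj (f i) (f i')) ∧
        ∀ i, i ≠ 0 → f i ∈ G.neighborSet x ∩ G.neighborSet y}.ncard : ℕ) : ℝ) +
      (q + 1) * ((G.neighborSet y \ G.neighborSet x).ncard * (Nat.card V : ℝ) ^ q) := by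
    exact_mod_cast e1.trans (Nat.add_le_add_left e2 _)
  have e4 : ((q : ℝ) + 1) * ((G.neighborSet y \ G.neighborSet x).ncard * (Nat.card V : ℝ) ^ q) ≤
      c / 2 * (Nat.card V : ℝ) ^ (q + 1) := by
    calc ((q : ℝ) + 1) * ((G.neighborSet y \ G.neighborSet x).ncard * (Nat.card V : ℝ) ^ q) ≤
        ((q : ℝ) + 1) * (c / (2 * (q + 1)) * Nat.card V * (Nat.card V : ℝ) ^ q) := by
          apply mul_le_mul_of_nonneg_left _ hq1.le
          exact mul_le_mul_of_nonneg_right hcon (by positivity)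
      _ = _ := by
          rw [pow_succ]
          field_simp
  have e5 : c * (Nat.card V : ℝ) ^ (q + 1) = c / 2 * (Nat.card V : ℝ) ^ (q + 1) +
      c / 2 * (Nat.card V : ℝ) ^ (q + 1) := by ring
  linarith

/-- (NTNA) near twins are not adjacent -/
theorem ntna [Finite α] [Nonempty α] {q t : ℕ} (hq : 1 ≤ q) {H : SimpleGraph α} (hH : H.Colorable 2) (hI : NoIso H) :
    ∃ κ : ℝ, 0 < κ ∧ ∃ n₀ : ℕ, ∀ (V : Type) [Finite V], n₀ ≤ Nat.card V → ∀ G : SimpleGraph V,
      TS q t H G → ∀ x y, Nt G κ x y → ¬ G.Adj x y := by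
  obtain ⟨ρ, hρ, n₀, h⟩ := adj_far (t := t) hq hH hI
  refine ⟨ρ, hρ, n₀, fun V _ hV G hG x y hn hxy => ?_⟩
  have h1 := h V hV G hG x y hxy
  have h2 : ((G.neighborSet y \ G.neighborSet x).ncard : ℝ) ≤
      ((symmDiff (G.neighborSet x) (G.neighborSet y)).ncard : ℝ) := by
    exact_mod_cast Set.ncard_le_ncard (fun z hz => Or.inr hz) (Set.toFinite _)
  have h3 : ((symmDiff (G.neighborSet x) (G.neighborSet y)).ncard : ℝ) ≤ ρ * (Nat.card V : ℝ) := hn
  linarith

/-- the number of the cliques and the number of their last vertices -/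
theorem cq_le_card [Finite V] (G : SimpleGraph V) (S : Set V) {q : ℕ} (hq : 1 ≤ q) :
    ((cq G S (Fin q)).ncard : ℝ) ≤ S.ncard * (Nat.card V : ℝ) ^ (q - 1) := by
  classical
  obtain ⟨r, rfl⟩ : ∃ r, q = r + 1 := ⟨q - 1, by omega⟩
  have := Fintype.ofFinite V
  rw [Nat.add_sub_cancel]
  have h1 : (cq G S (Fin (r + 1))).toFinset.card ≤ (S.toFinset ×ˢ (Finset.univ : Finset (Fin r → V))).card := by
    refine Finset.card_le_card_of_injOn (fun f => (f 0, fun i => f i.succ)) ?_ ?_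
    · intro f hf
      simp only [Finset.mem_coe, Set.mem_toFinset] at hf
      simp only [Finset.mem_coe, Finset.mem_product, Finset.mem_univ, and_true, Set.mem_toFinset]
      exact hf.1 0
    · intro f _ f' _ h
      simp only [Prod.mk.injEq] at h
      funext i
      refine Fin.cases ?_ (fun i => ?_) i
      · exact h.1
      · exact congrFun h.2 i
  rw [Finset.card_product, ← Set.ncard_eq_toFinset_card', ← Set.ncard_eq_toFinset_card', Finset.card_univ,
    Fintype.card_fun, Fintype.card_fin] at h1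
  rw [Nat.card_eq_fintype_card]
  exact_mod_cast h1

/-- the number of adjacent pairs from the degrees -/
theorem pe_ge [Finite V] (G : SimpleGraph V) (S T Y : Set V) (hY : Y ⊆ T) {d : ℝ}
    (hd : ∀ y ∈ Y, d ≤ ((G.neighborSet y ∩ S).ncard : ℝ)) : (Y.ncard : ℝ) * d ≤ pe G S T := by
  classical
  have := Fintype.ofFinite V
  obtain ⟨E, hE⟩ : ∃ E : Set (V × V), E = {p : V × V | p.1 ∈ S ∧ p.2 ∈ T ∧ G.Adj p.1 p.2} := ⟨_, rfl⟩
  have h1 : (Y.toFinset.sigma (fun v => (G.neighborSet v ∩ S).toFinset)).card ≤ E.toFinset.card := by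
    refine Finset.card_le_card_of_injOn (fun p => (p.2, p.1)) ?_ ?_
    · rintro ⟨v, w⟩ hp
      simp only [Finset.mem_coe, Finset.mem_sigma, Set.mem_toFinset] at hp
      simp only [Finset.mem_coe, Set.mem_toFinset, hE]
      exact ⟨hp.2.2, hY hp.1, (hp.2.1 : G.Adj v w).symm⟩
    · rintro ⟨v, w⟩ _ ⟨v', w'⟩ _ h
      simp only [Prod.mk.injEq] at h
      rw [h.1, h.2]
  rw [Finset.card_sigma, ← Set.ncard_eq_toFinset_card' E] at h1
  have h2 : ∑ v ∈ Y.toFinset, ((G.neighborSet v ∩ S).toFinset.card : ℝ) ≤ E.ncard := by exact_mod_cast h1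
  have h3 : pe G S T = E.ncard := by
    rw [hE]
    rfl
  rw [h3]
  refine le_trans ?_ h2
  calc (Y.ncard : ℝ) * d = ∑ _v ∈ Y.toFinset, d := by
        rw [Finset.sum_const, nsmul_eq_mul, Set.ncard_eq_toFinset_card']
    _ ≤ _ := Finset.sum_le_sum fun v hv => by
        rw [← Set.ncard_eq_toFinset_card']
        exact hd v (Set.mem_toFinset.1 hv)

/-- (CROSS) adjacent vertices have many edges between their neighbourhoods -/
theorem cross [Finite α] [Nonempty α] {q t : ℕ} (hq : 1 ≤ q) {H : SimpleGraph α} (hH : H.Colorable 2) (hI : NoIso H) :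
    ∃ τ : ℝ, 0 < τ ∧ ∃ n₀ : ℕ, ∀ (V : Type) [Finite V], n₀ ≤ Nat.card V → ∀ G : SimpleGraph V,
      TS q t H G → ∀ x y, G.Adj x y → τ * (Nat.card V : ℝ) ^ 2 ≤ pe G (G.neighborSet x) (G.neighborSet y) := by
  obtain ⟨ρ, hρ, n₁, h1⟩ := adj_far (t := t) hq hH hI
  obtain ⟨δ, hδ, n₂, h2⟩ := propPK (t := t) hq hH hI (ρ := ρ / 2) (by positivity)
  refine ⟨ρ / 2 * δ, by positivity, n₁ + n₂, fun V _ hV G hG x y hxy => ?_⟩
  have : Nonempty V := ⟨x⟩
  have hn : (0 : ℝ) < (Nat.card V : ℝ) := by exact_mod_cast Nat.card_pos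
  have h3 := h1 V (by omega) G hG x y hxy
  have h4 := h2 V (by omega) G hG x
  have h5 := pe_ge G (G.neighborSet x) (G.neighborSet y) ((G.neighborSet y \ G.neighborSet x) \ ZK G q x δ)
    (fun z hz => hz.1.1) (d := δ * Nat.card V) (fun z hz => by
      have h6 : δ * (Nat.card V : ℝ) ^ q ≤ ((cq G (G.neighborSet z ∩ G.neighborSet x) (Fin q)).ncard : ℝ) := by
        by_contra hcon
        push Not at hcon
        exact hz.2 ⟨hz.1.2, hcon⟩
      have h7 := h6.trans (cq_le_card G _ hq)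
      have h8 : (Nat.card V : ℝ) ^ q = Nat.card V * (Nat.card V : ℝ) ^ (q - 1) := by
        rw [← pow_succ']
        congr 1
        omega
      rw [h8, ← mul_assoc] at h7
      exact le_of_mul_le_mul_right h7 (by positivity))
  refine le_trans ?_ h5
  have h6 : ρ / 2 * Nat.card V ≤ ((((G.neighborSet y \ G.neighborSet x) \ ZK G q x δ).ncard : ℕ) : ℝ) := by
    have h7 : ((G.neighborSet y \ G.neighborSet x).ncard : ℝ) ≤
        ((((G.neighborSet y \ G.neighborSet x) \ ZK G q x δ).ncard : ℕ) : ℝ) + ((ZK G q x δ).ncard : ℝ) := by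
      exact_mod_cast Set.ncard_le_ncard_sdiff_add_ncard _ _ (Set.toFinite _)
    linarith
  calc ρ / 2 * δ * (Nat.card V : ℝ) ^ 2 = ρ / 2 * Nat.card V * (δ * (Nat.card V : ℝ)) := by ring
    _ ≤ _ := mul_le_mul_of_nonneg_right h6 (by positivity)

end Pool.Agent.WTG
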