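import Pool.Agent.WTG.Defs
import Pool.Agent.WTE.RemK

/-!
# Bounded deletion number: the blow-up in the set of the rare vertices (MP_aeb998_co)
-/

set_option autoImplicit false

namespace Pool.Agent.WTG

open Pool.Agent.WT7 Finset
open scoped Classical

/-- the removal lemma for `K_r` -/
def RemSt (t : ℕ) : Prop := ∀ r : ℕ, ∀ κ : ℝ, 0 < κ → ∃ n₀ : ℕ, ∀ (V : Type) [Finite V], n₀ ≤ Nat.card V →
  ∀ G : SimpleGraph V, ¬ HasBlow G r t → ∃ G' ≤ G, G'.CliqueFree r ∧ (df G G' : ℝ) ≤ κ * (Nat.card V : ℝ) ^ 2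

variable {V : Type}

/-- the vertices of `X` which are not adjacent to `u` -/
noncomputable def ms (G : SimpleGraph V) (u : V) (X : Finset V) : Finset V := X.filter (fun x => ¬ G.Adj u x)

/-- a partial blow-up -/
structure Part {k t : ℕ} (G G' : SimpleGraph V) (m₁ : ℕ) (X : Fin k → Finset V) (J₁ J : Finset (Fin k))
    (g : Fin k → Fin t → V) : Prop where
  adj : ∀ i ∈ J, ∀ j ∈ J, i ≠ j → ∀ a b, G.Adj (g i a) (g j b)
  inj : ∀ i ∈ J, Function.Injective (g i)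
  miss : ∀ i ∈ J, ∀ a, ∀ j ∈ J₁, j ≠ i → (ms G' (g i a) (X j)).card ≤ m₁

theorem part_step {k t : ℕ} {G G' : SimpleGraph V} (hG : G' ≤ G) {m₁ : ℕ} {X : Fin k → Finset V}
    {J₁ J : Finset (Fin k)} {g : Fin k → Fin t → V} (w : Fin k → V) {j : Fin k} (hj : j ∈ J₁) (hjJ : j ∉ J)
    (h1 : ∀ i, i ≠ j → (ms G' (w i) (X j)).card ≤ m₁)
    (h2 : ∀ i ∈ J₁, ∀ z, G'.Adj z (w i) → (ms G' z (X i)).card ≤ m₁)
    (h3 : (k + k * t + t) * (m₁ + 1) ≤ (X j).card) (hp : Part G G' m₁ X J₁ J g) :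
    ∃ g' : Fin k → Fin t → V, Part G G' m₁ X J₁ (insert j J) g' := by
  obtain ⟨C, hC⟩ : ∃ C, C = (X j).filter (fun z => (∀ i, i ≠ j → G'.Adj (w i) z) ∧ ∀ i ∈ J, ∀ a, G'.Adj (g i a) z) :=
    ⟨_, rfl⟩
  have hcov : X j ⊆ C ∪ ((univ.erase j).biUnion (fun i => ms G' (w i) (X j)) ∪
      J.biUnion (fun i => univ.biUnion (fun a => ms G' (g i a) (X j)))) := by
    intro z hz
    by_contra hcon
    simp only [mem_union, mem_biUnion, mem_erase, mem_univ, and_true, true_and, ms, mem_filter, hC, not_or,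
      not_exists, not_and, not_not] at hcon
    obtain ⟨c1, c2, c3⟩ := hcon
    obtain ⟨i, hi, a, hia⟩ : ∃ i ∈ J, ∃ a, ¬ G'.Adj (g i a) z := by
      by_contra hcon
      push Not at hcon
      exact c1 hz (fun i hi => c2 i hi hz) |>.elim hcon
    exact hia (c3 i hi a hz)
  have hc1 : ((univ.erase j).biUnion (fun i => ms G' (w i) (X j))).card ≤ k * m₁ := by
    refine (card_biUnion_le_card_mul _ _ _ (fun i hi => h1 i (mem_erase.1 hi).1)).trans (Nat.mul_le_mul_right _ ?_)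
    refine (card_le_card (erase_subset _ _)).trans ?_
    rw [card_univ, Fintype.card_fin]
  have hc2 : (J.biUnion (fun i => univ.biUnion (fun a => ms G' (g i a) (X j)))).card ≤ k * (t * m₁) := by
    have e1 : ∀ i ∈ J, (univ.biUnion (fun a => ms G' (g i a) (X j))).card ≤ t * m₁ := by
      intro i hi
      refine (card_biUnion_le_card_mul _ _ m₁ (fun a _ => ?_)).trans ?_
      · exact hp.miss i hi a j hj (fun e => hjJ (e ▸ hi))
      · rw [card_univ, Fintype.card_fin]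
    refine (card_biUnion_le_card_mul _ _ (t * m₁) e1).trans (Nat.mul_le_mul_right _ ?_)
    refine (card_le_card (subset_univ _)).trans ?_
    rw [card_univ, Fintype.card_fin]
  have hCt : t ≤ C.card := by
    have h4 := (card_le_card hcov).trans ((card_union_le _ _).trans (Nat.add_le_add_left (card_union_le _ _) _))
    have h5 : (k + k * t + t) * (m₁ + 1) = k * m₁ + k * (t * m₁) + (t * m₁ + k + k * t + t) := by ring
    omega
  obtain ⟨C', hC', hcard⟩ := exists_subset_card_eq hCt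
  obtain ⟨φ⟩ : Nonempty (Fin t ≃ C') := ⟨(Fintype.equivFinOfCardEq (by simp [hcard])).symm⟩
  refine ⟨Function.update g j (fun a => (φ a : V)), ?_, ?_, ?_⟩
  all_goals
    have hφ : ∀ a, (φ a : V) ∈ X j ∧ (∀ i, i ≠ j → G'.Adj (w i) (φ a)) ∧ ∀ i ∈ J, ∀ b, G'.Adj (g i b) (φ a) := by
      intro a
      have := hC' (φ a).2
      rw [hC, mem_filter] at this
      exact this
  · intro i hi i' hi' hne a b
    rw [mem_insert] at hi hi'
    by_cases e1 : i = j
    · subst e1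
      have hi'J : i' ∈ J := hi'.resolve_left (fun h => hne h.symm)
      rw [Function.update_self, Function.update_of_ne hne.symm]
      exact (hG ((hφ a).2.2 i' hi'J b)).symm
    · have hiJ : i ∈ J := hi.resolve_left e1
      by_cases e2 : i' = j
      · subst e2
        rw [Function.update_self, Function.update_of_ne hne]
        exact hG ((hφ b).2.2 i hiJ a)
      · rw [Function.update_of_ne e1, Function.update_of_ne e2]
        exact hp.adj i hiJ i' (hi'.resolve_left e2) hne a b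
  · intro i hi
    rw [mem_insert] at hi
    by_cases e1 : i = j
    · subst e1
      rw [Function.update_self]
      intro a b hab
      exact φ.injective (Subtype.ext hab)
    · rw [Function.update_of_ne e1]
      exact hp.inj i (hi.resolve_left e1)
  · intro i hi a i' hi' hne
    rw [mem_insert] at hi
    by_cases e1 : i = j
    · subst e1
      rw [Function.update_self]
      exact h2 i' hi' _ ((hφ a).2.1 i' hne).symm
    · rw [Function.update_of_ne e1]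
      exact hp.miss i (hi.resolve_left e1) a i' hi' hne

theorem part_all {k t : ℕ} {G G' : SimpleGraph V} (hG : G' ≤ G) {m₁ : ℕ} {X : Fin k → Finset V}
    {J₁ : Finset (Fin k)} (w : Fin k → V)
    (h1 : ∀ j ∈ J₁, ∀ i, i ≠ j → (ms G' (w i) (X j)).card ≤ m₁)
    (h2 : ∀ i ∈ J₁, ∀ z, G'.Adj z (w i) → (ms G' z (X i)).card ≤ m₁)
    (h3 : ∀ j ∈ J₁, (k + k * t + t) * (m₁ + 1) ≤ (X j).card) :
    ∀ (J : Finset (Fin k)) (g : Fin k → Fin t → V), (∀ j, j ∉ J → j ∈ J₁) → Part G G' m₁ X J₁ J g → HasBlow G k t := by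
  intro J
  induction hn : (univ \ J).card generalizing J with
  | zero =>
    intro g hJ hp
    have hall : ∀ i, i ∈ J := by
      intro i
      rw [card_eq_zero, sdiff_eq_empty_iff_subset] at hn
      exact hn (mem_univ i)
    refine ⟨g, ?_, fun i j hne a b => hp.adj i (hall i) j (hall j) hne a b⟩
    rintro ⟨i, a⟩ ⟨j, b⟩ h
    simp only at h
    by_cases e : i = j
    · subst e
      rw [hp.inj i (hall i) h]
    · exact absurd h (hp.adj i (hall i) j (hall j) e a b).ne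
  | succ n ih =>
    intro g hJ hp
    obtain ⟨j, hj⟩ : (univ \ J).Nonempty := by
      rw [← card_pos]
      omega
    rw [mem_sdiff] at hj
    obtain ⟨g', hg'⟩ := part_step hG w (hJ j hj.2) hj.2 (h1 j (hJ j hj.2)) h2 (h3 j (hJ j hj.2)) hp
    refine ih (insert j J) ?_ g' (fun i hi => hJ i (fun h => hi (mem_insert_of_mem h))) hg'
    have h4 : univ \ insert j J = (univ \ J).erase j := by
      ext i
      simp only [mem_sdiff, mem_univ, true_and, mem_insert, not_or, mem_erase]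
    rw [h4, card_erase_of_mem (mem_sdiff.2 ⟨mem_univ _, hj.2⟩), hn]
    omega

theorem exists_nonadj {W ι : Type} {G₁ : SimpleGraph W} {r : ℕ} (h : G₁.CliqueFree r) (J : Finset ι) (hJ : J.card = r)
    (w : ι → W) (hw : ∀ i ∈ J, ∀ j ∈ J, i ≠ j → w i ≠ w j) : ∃ i ∈ J, ∃ j ∈ J, i ≠ j ∧ ¬ G₁.Adj (w i) (w j) := by
  by_contra hcon
  push Not at hcon
  refine h (J.image w) ⟨?_, ?_⟩
  · intro x hx y hy hxy
    rw [mem_coe, mem_image] at hx hy
    obtain ⟨i, hi, rfl⟩ := hx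
    obtain ⟨j, hj, rfl⟩ := hy
    exact hcon i hi j hj (fun e => hxy (by rw [e]))
  · rw [card_image_of_injOn, hJ]
    intro i hi j hj hij
    by_contra hne
    exact hw i hi j hj hne hij

/-- the vertices `w i` are pairwise adjacent -/
def Clq (G : SimpleGraph V) {k : ℕ} (w : Fin k → V) : Prop := ∀ i j, i ≠ j → G.Adj (w i) (w j)

/-- a common edge inside `R` -/
def Sh (R : Finset V) {k : ℕ} (w w' : Fin k → V) : Prop :=
  ∃ i j i' j', i ≠ j ∧ i' ≠ j' ∧ w i = w' i' ∧ w j = w' j' ∧ w i ∈ R ∧ w j ∈ R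

theorem Sh.symm {R : Finset V} {k : ℕ} {w w' : Fin k → V} (h : Sh R w w') : Sh R w' w := by
  obtain ⟨i, j, i', j', h1, h2, h3, h4, h5, h6⟩ := h
  exact ⟨i', j', i, j, h2, h1, h3.symm, h4.symm, h3 ▸ h5, h4 ▸ h6⟩

/-- the graph without the edges inside `R` of the cliques of `𝒬` -/
def dq (G : SimpleGraph V) (R : Finset V) {k : ℕ} (𝒬 : Finset (Fin k → V)) : SimpleGraph V where
  Adj a b := G.Adj a b ∧ ¬ ∃ w ∈ 𝒬, ∃ i j, i ≠ j ∧ w i = a ∧ w j = b ∧ a ∈ R ∧ b ∈ R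
  symm := ⟨by
    rintro a b ⟨h1, h2⟩
    refine ⟨h1.symm, fun h => h2 ?_⟩
    obtain ⟨w, hw, i, j, h3, h4, h5, h6, h7⟩ := h
    exact ⟨w, hw, j, i, h3.symm, h5, h4, h7, h6⟩⟩
  loopless := ⟨fun a h => h.1.ne rfl⟩

theorem exists_family [Fintype V] {G G' : SimpleGraph V} {k : ℕ} (hcf : G'.CliqueFree k)
    (hmin : ∀ G'' ≤ G, G''.CliqueFree k → df G G' ≤ df G G'') {R : Finset V}
    (hR : ∀ a b, G.Adj a b → ¬ G'.Adj a b → a ∈ R ∧ b ∈ R) : ∃ 𝒬 : Finset (Fin k → V),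
      (∀ w ∈ 𝒬, Clq G w) ∧ (∀ w ∈ 𝒬, ∀ w' ∈ 𝒬, w ≠ w' → ¬ Sh R w w') ∧ df G G' ≤ 𝒬.card * (k * k) := by
  obtain ⟨𝒬, h𝒬, hmax⟩ := exists_max_image ((univ : Finset (Finset (Fin k → V))).filter (fun 𝒬 =>
    (∀ w ∈ 𝒬, Clq G w) ∧ (∀ w ∈ 𝒬, ∀ w' ∈ 𝒬, w ≠ w' → ¬ Sh R w w'))) card ⟨∅, by simp⟩
  rw [mem_filter] at h𝒬
  obtain ⟨-, h1, h2⟩ := h𝒬
  refine ⟨𝒬, h1, h2, ?_⟩
  have hle : dq G R 𝒬 ≤ G := fun a b h => h.1
  refine (hmin (dq G R 𝒬) hle ?_).trans ?_
  · by_contra hcon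
    rw [SimpleGraph.not_cliqueFree_iff] at hcon
    obtain ⟨f⟩ := hcon
    have hadj : ∀ i j, i ≠ j → (dq G R 𝒬).Adj (f i) (f j) := fun i j hij => f.toHom.map_adj (by simpa using hij)
    have hclq : Clq G (fun i => f i) := fun i j hij => (hadj i j hij).1
    obtain ⟨i, -, j, -, hij, hn⟩ := exists_nonadj hcf (univ : Finset (Fin k)) (by simp) (fun i => f i)
      (fun i _ j _ hij => (hclq i j hij).ne)
    obtain ⟨g1, g2⟩ := hR _ _ (hclq i j hij) hn
    by_cases hm : (fun i => f i) ∈ 𝒬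
    · exact (hadj i j hij).2 ⟨_, hm, i, j, hij, rfl, rfl, g1, g2⟩
    · have h3 : ¬ ((∀ w ∈ insert (fun i => f i) 𝒬, Clq G w) ∧ (∀ w ∈ insert (fun i => f i) 𝒬,
          ∀ w' ∈ insert (fun i => f i) 𝒬, w ≠ w' → ¬ Sh R w w')) := by
        intro h
        have := hmax (insert (fun i => f i) 𝒬) (mem_filter.2 ⟨mem_univ _, h⟩)
        rw [card_insert_of_notMem hm] at this
        omega
      apply h3
      have key : ∀ w ∈ 𝒬, ¬ Sh R (fun i => f i) w := by
        rintro w hw ⟨a, b, a', b', e1, e2, e3, e4, e5, e6⟩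
        exact (hadj a b e1).2 ⟨w, hw, a', b', e2, e3.symm, e4.symm, e5, e6⟩
      constructor
      · intro w hw
        rcases mem_insert.1 hw with rfl | hw
        · exact hclq
        · exact h1 w hw
      · intro w hw w' hw' hne
        rcases mem_insert.1 hw with rfl | hw
        · rcases mem_insert.1 hw' with rfl | hw'
          · exact absurd rfl hne
          · exact key w' hw'
        · rcases mem_insert.1 hw' with rfl | hw'
          · exact fun h => key w hw h.symm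
          · exact h2 w hw w' hw' hne
  · unfold df
    have h3 : {p : V × V | G.Adj p.1 p.2 ∧ ¬ (dq G R 𝒬).Adj p.1 p.2} ⊆
        ((𝒬 ×ˢ ((univ : Finset (Fin k)) ×ˢ (univ : Finset (Fin k)))).image
          (fun x : (Fin k → V) × (Fin k × Fin k) => (x.1 x.2.1, x.1 x.2.2)) : Finset (V × V)) := by
      rintro ⟨a, b⟩ ⟨e1, e2⟩
      simp only [dq, not_and, not_not] at e1 e2
      obtain ⟨w, hw, i, j, -, rfl, rfl, -, -⟩ := e2 e1
      rw [mem_coe, mem_image]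
      exact ⟨(w, (i, j)), by simp [hw], rfl⟩
    refine (Set.ncard_le_ncard h3 (finite_toSet _)).trans ?_
    rw [Set.ncard_coe_finset]
    refine card_image_le.trans ?_
    rw [card_product, card_product, card_univ, Fintype.card_fin]

/-- pigeonhole -/
theorem exists_fiber {ι κ : Type} [Fintype κ] (𝒬 : Finset ι) (f : ι → κ) [Nonempty κ] :
    ∃ (δ : κ) (P : Finset ι), (∀ w, w ∈ P ↔ w ∈ 𝒬 ∧ f w = δ) ∧ 𝒬.card ≤ Fintype.card κ * P.card := by
  obtain ⟨δ, -, hδ⟩ := exists_max_image (univ : Finset κ) (fun δ => (𝒬.filter (fun w => f w = δ)).card) univ_nonempty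
  refine ⟨δ, 𝒬.filter (fun w => f w = δ), fun w => by rw [mem_filter], ?_⟩
  rw [card_eq_sum_card_fiberwise (f := f) (t := univ) (fun x _ => mem_coe.2 (mem_univ _))]
  refine (sum_le_card_nsmul _ _ _ (fun x hx => hδ x hx)).trans ?_
  rw [smul_eq_mul, card_univ]

/-- **The blow-up.** -/
theorem four_abs (t : ℕ) (hrem : RemSt t) (k q C₄ : ℕ) : ∃ d₀ : ℕ, ∀ (V : Type) [Fintype V] (G G' : SimpleGraph V),
    G' ≤ G → G'.CliqueFree k → (∀ G'' ≤ G, G''.CliqueFree k → df G G' ≤ df G G'') → ∀ R : Finset V,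
    (∀ a b, G.Adj a b → ¬ G'.Adj a b → a ∈ R ∧ b ∈ R) → R.card ^ 2 ≤ C₄ * df G G' →
    ∀ (m₁ : ℕ) (ty : V → Fin q) (X : Fin q → Finset V), (∀ v, v ∉ R → ∀ u, G'.Adj u v → (ms G' u (X (ty v))).card ≤ m₁) →
      (∀ v, v ∉ R → (k + k * t + t) * (m₁ + 1) ≤ (X (ty v)).card) → d₀ ≤ df G G' → HasBlow G k t := by
  obtain ⟨c₅, hc₅⟩ : ∃ c₅ : ℕ, c₅ = k * k * (q + 1) ^ k := ⟨_, rfl⟩
  obtain ⟨κ, hκd⟩ : ∃ κ : ℝ, κ = 1 / (2 * (C₄ * c₅ + 1)) := ⟨_, rfl⟩
  have hκ : 0 < κ := by rw [hκd]; positivity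
  choose n₀ hn₀ using fun r : ℕ => hrem r κ hκ
  obtain ⟨n₁, hn₁⟩ : ∃ n₁ : ℕ, n₁ = (range (k + 1)).sup n₀ := ⟨_, rfl⟩
  refine ⟨c₅ * n₁ ^ 2 + 1, ?_⟩
  intro V _ G G' hle hcf hmin R hR hRc m₁ ty X hX hXc hd
  obtain ⟨d, hdd⟩ : ∃ d, d = df G G' := ⟨_, rfl⟩
  rw [← hdd] at hRc hd
  obtain ⟨𝒬, h1, h2, h3⟩ := exists_family hcf hmin hR
  obtain ⟨F, hF⟩ : ∃ F : (Fin k → V) → Fin k → Option (Fin q), F = fun w j => if w j ∈ R then none
    else some (ty (w j)) := ⟨_, rfl⟩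
  have hF1 : ∀ w j, w j ∈ R → F w j = none := fun w j h => by rw [hF]; exact if_pos h
  have hF2 : ∀ w j, w j ∉ R → F w j = some (ty (w j)) := fun w j h => by rw [hF]; exact if_neg h
  obtain ⟨δ, Pf, hPf, hδ⟩ := exists_fiber 𝒬 F
  rw [Fintype.card_fun, Fintype.card_option, Fintype.card_fin, Fintype.card_fin] at hδ
  have hdPf : d ≤ c₅ * Pf.card := by
    rw [hdd, hc₅]
    refine h3.trans ((Nat.mul_le_mul_right _ hδ).trans (le_of_eq ?_))
    ring
  have hmem : ∀ w ∈ Pf, w ∈ 𝒬 ∧ Clq G w ∧ (∀ j, δ j = none → w j ∈ R) ∧ ∀ j i, δ j = some i → w j ∉ R ∧ ty (w j) = i := by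
    intro w hw
    rw [hPf] at hw
    refine ⟨hw.1, h1 w hw.1, ?_, ?_⟩
    · intro j hj
      have := congrFun hw.2 j
      rw [hj] at this
      by_contra hcon
      rw [hF2 w j hcon] at this
      exact absurd this (by simp)
    · intro j i hj
      have := congrFun hw.2 j
      rw [hj] at this
      by_cases hcon : w j ∈ R
      · rw [hF1 w j hcon] at this
        exact absurd this (by simp)
      · rw [hF2 w j hcon] at this
        exact ⟨hcon, Option.some.inj this⟩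
  have hShne : ∀ w ∈ Pf, ∀ w' ∈ Pf, ∀ i j i' j', i ≠ j → i' ≠ j' → w i = w' i' → w j = w' j' → w i ∈ R → w j ∈ R →
      w = w' := by
    intro w hw w' hw' i j i' j' e1 e2 e3 e4 e5 e6
    by_contra hne
    exact h2 w (hmem w hw).1 w' (hmem w' hw').1 hne ⟨i, j, i', j', e1, e2, e3, e4, e5, e6⟩
  have hPf0 : Pf.Nonempty := by
    rw [← card_pos]
    by_contra hcon
    have : Pf.card = 0 := by omega
    rw [this] at hdPf
    omega
  obtain ⟨w₀, hw₀⟩ := hPf0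
  obtain ⟨-, hw₀c, hw₀R, hw₀t⟩ := hmem w₀ hw₀
  obtain ⟨J₀, hJ₀⟩ : ∃ J₀ : Finset (Fin k), J₀ = univ.filter (fun j => δ j = none) := ⟨_, rfl⟩
  have hJ₀m : ∀ j, j ∈ J₀ ↔ δ j = none := by
    intro j
    rw [hJ₀, mem_filter]
    simp
  obtain ⟨Rs, hRs⟩ : ∃ Rs : Finset V, Rs = R.filter (fun u => ∀ j i, δ j = some i → (ms G' u (X i)).card ≤ m₁) :=
    ⟨_, rfl⟩
  have hRsP : ∀ u ∈ Rs, ∀ j i, δ j = some i → (ms G' u (X i)).card ≤ m₁ := by
    intro u hu
    rw [hRs, mem_filter] at hu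
    exact hu.2
  have hGG' : ∀ w ∈ Pf, ∀ i j, i ≠ j → j ∉ J₀ → G'.Adj (w i) (w j) := by
    intro w hw i j hij hj
    by_contra hcon
    obtain ⟨-, c1, -, c3⟩ := hmem w hw
    have h4 := (hR _ _ (c1 i j hij) hcon).2
    rw [hJ₀m] at hj
    obtain ⟨x, hx⟩ := Option.ne_none_iff_exists'.1 hj
    exact (c3 j x hx).1 h4
  have hRsm : ∀ w ∈ Pf, ∀ j ∈ J₀, w j ∈ Rs := by
    intro w hw j hj
    obtain ⟨-, c1, c2, c3⟩ := hmem w hw
    rw [hRs, mem_filter]
    refine ⟨c2 j ((hJ₀m j).1 hj), ?_⟩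
    intro j' i hj'
    obtain ⟨c4, c5⟩ := c3 j' i hj'
    have hj'J : j' ∉ J₀ := by
      rw [hJ₀m, hj']
      simp
    have := hX (w j') c4 (w j) (hGG' w hw j j' (fun e => hj'J (e ▸ hj)) hj'J)
    rw [c5] at this
    exact this
  -- two indices
  obtain ⟨i₀, -, j₀, -, hij₀, hn⟩ := exists_nonadj hcf (univ : Finset (Fin k)) (by simp) w₀
      (fun i _ j _ hij => (hw₀c i j hij).ne)
  obtain ⟨hi₀R, hj₀R⟩ := hR _ _ (hw₀c i₀ j₀ hij₀) hn
  have hmemJ : ∀ i, w₀ i ∈ R → i ∈ J₀ := by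
    intro i hi
    rw [hJ₀m]
    by_contra hcon
    obtain ⟨x, hx⟩ := Option.ne_none_iff_exists'.1 hcon
    exact (hw₀t i x hx).1 hi
  have hi₀ := hmemJ i₀ hi₀R
  have hj₀ := hmemJ j₀ hj₀R
  have hRsR : Rs ⊆ R := by rw [hRs]; exact filter_subset _ _
  have hbig : Pf.card ≤ Rs.card ^ 2 := by
    rw [sq, ← card_product]
    refine card_le_card_of_injOn (fun w => (w i₀, w j₀)) ?_ ?_
    · intro w hw
      exact mem_coe.2 (mem_product.2 ⟨hRsm w (mem_coe.1 hw) i₀ hi₀, hRsm w (mem_coe.1 hw) j₀ hj₀⟩)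
    · intro w hw w' hw' h
      rw [mem_coe] at hw hw'
      simp only [Prod.mk.injEq] at h
      exact hShne w hw w' hw' i₀ j₀ i₀ j₀ hij₀ hij₀ h.1 h.2 (hRsR (hRsm w hw i₀ hi₀)) (hRsR (hRsm w hw j₀ hj₀))
  have hRsbig : n₁ ≤ Rs.card := by
    by_contra hcon
    push Not at hcon
    have h4 : Rs.card ^ 2 ≤ n₁ ^ 2 := Nat.pow_le_pow_left hcon.le 2
    have h5 : c₅ * Pf.card ≤ c₅ * n₁ ^ 2 := Nat.mul_le_mul_left _ (hbig.trans h4)
    omega
  have hrk : J₀.card ≤ k := by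
    refine (card_le_card (subset_univ _)).trans ?_
    rw [card_univ, Fintype.card_fin]
  have hblow : HasBlow (G.comap (Subtype.val : {x // x ∈ Rs} → V)) J₀.card t := by
    by_contra hcon
    have h4 : n₀ J₀.card ≤ Nat.card {x // x ∈ Rs} := by
      rw [Nat.card_eq_fintype_card, Fintype.card_coe]
      refine le_trans ?_ hRsbig
      rw [hn₁]
      exact le_sup (f := n₀) (mem_range.2 (by omega))
    obtain ⟨G₁, h5, h6, h7⟩ := hn₀ J₀.card _ h4 _ hcon
    rw [Nat.card_eq_fintype_card, Fintype.card_coe] at h7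
    have h8 : ∀ w : {w // w ∈ Pf}, ∃ p : {x // x ∈ Rs} × {x // x ∈ Rs}, ((G.comap (Subtype.val : {x // x ∈ Rs} → V)).Adj
        p.1 p.2 ∧ ¬ G₁.Adj p.1 p.2) ∧ ∃ i j, i ≠ j ∧ (p.1 : V) = w.1 i ∧ (p.2 : V) = w.1 j := by
      rintro ⟨w, hw⟩
      obtain ⟨i, hi, j, hj, hij, hna⟩ := exists_nonadj h6 J₀.attach (by rw [card_attach])
        (fun j : {j // j ∈ J₀} => (⟨w j.1, hRsm w hw j.1 j.2⟩ : {x // x ∈ Rs})) (by
          intro i _ j _ hij h
          have h9 := (hmem w hw).2.1 i.1 j.1 (fun e => hij (Subtype.ext e))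
          exact h9.ne (congrArg Subtype.val h))
      exact ⟨(⟨w i.1, hRsm w hw i.1 i.2⟩, ⟨w j.1, hRsm w hw j.1 j.2⟩), ⟨(hmem w hw).2.1 i.1 j.1
        (fun e => hij (Subtype.ext e)), hna⟩, i.1, j.1, fun e => hij (Subtype.ext e), rfl, rfl⟩
    choose φ hφ1 hφ2 using h8
    have h9 : Pf.card ≤ df (G.comap (Subtype.val : {x // x ∈ Rs} → V)) G₁ := by
      have h10 : (Set.range φ).ncard ≤ df (G.comap (Subtype.val : {x // x ∈ Rs} → V)) G₁ := by
        refine Set.ncard_le_ncard ?_ (Set.toFinite _)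
        rintro _ ⟨w, rfl⟩
        exact hφ1 w
      have h11 : Function.Injective φ := by
        intro w w' h
        obtain ⟨i, j, e1, e2, e3⟩ := hφ2 w
        obtain ⟨i', j', e1', e2', e3'⟩ := hφ2 w'
        rw [← h] at e2' e3'
        refine Subtype.ext (hShne w.1 w.2 w'.1 w'.2 i j i' j' e1 e1' (e2.symm.trans e2') (e3.symm.trans e3') ?_ ?_)
        · rw [← e2]
          exact hRsR (φ w).1.2
        · rw [← e3]
          exact hRsR (φ w).2.2
      rw [← Set.image_univ, Set.ncard_image_of_injective _ h11, Set.ncard_univ, Nat.card_eq_fintype_card,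
        Fintype.card_coe] at h10
      exact h10
    have h12 : (Pf.card : ℝ) ≤ κ * (Rs.card : ℝ) ^ 2 := le_trans (by exact_mod_cast h9) h7
    have h13 : (Rs.card : ℝ) ^ 2 ≤ C₄ * d := by
      have : Rs.card ^ 2 ≤ C₄ * d := (Nat.pow_le_pow_left (card_le_card hRsR) 2).trans hRc
      exact_mod_cast this
    have h14 : (d : ℝ) ≤ c₅ * Pf.card := by exact_mod_cast hdPf
    have h15 : κ * (Rs.card : ℝ) ^ 2 ≤ κ * (C₄ * (c₅ * Pf.card)) :=
      mul_le_mul_of_nonneg_left (h13.trans (mul_le_mul_of_nonneg_left h14 (Nat.cast_nonneg _))) hκ.le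
    have h16 : (1 : ℝ) ≤ Pf.card := by exact_mod_cast card_pos.2 ⟨w₀, hw₀⟩
    have h17 : κ * (C₄ * (c₅ * Pf.card)) ≤ Pf.card / 2 := by
      rw [hκd, one_div, inv_mul_eq_div, div_le_div_iff₀ (by positivity) (by norm_num)]
      have : (0 : ℝ) ≤ C₄ * c₅ := by positivity
      nlinarith
    linarith
  obtain ⟨f, hf1, hf2⟩ := hblow
  obtain ⟨X', hX'⟩ : ∃ X' : Fin k → Finset V, X' = fun j => match δ j with
    | some i => X i
    | none => ∅ := ⟨_, rfl⟩
  have hX's : ∀ j i, δ j = some i → X' j = X i := by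
    intro j i h
    rw [hX']
    simp only [h]
  have hJ₁ : ∀ j, j ∈ univ.filter (fun j => δ j ≠ none) → ∃ i, δ j = some i ∧ w₀ j ∉ R ∧ ty (w₀ j) = i := by
    intro j hj
    rw [mem_filter] at hj
    obtain ⟨x, hx⟩ := Option.ne_none_iff_exists'.1 hj.2
    exact ⟨x, hx, hw₀t j x hx⟩
  refine part_all (m₁ := m₁) (X := X') (J₁ := univ.filter (fun j => δ j ≠ none)) hle w₀ ?_ ?_ ?_ J₀
    (fun j a => if h : j ∈ J₀ then (f (J₀.equivFin ⟨j, h⟩) a : V) else w₀ j) ?_ ?_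
  · intro j hj i hij
    obtain ⟨x, hx, e1, e2⟩ := hJ₁ j hj
    rw [hX's j x hx, ← e2]
    refine hX (w₀ j) e1 (w₀ i) (hGG' w₀ hw₀ i j hij ?_)
    rw [hJ₀m, hx]
    simp
  · intro i hi z hz
    obtain ⟨x, hx, e1, e2⟩ := hJ₁ i hi
    rw [hX's i x hx, ← e2]
    exact hX (w₀ i) e1 z hz
  · intro j hj
    obtain ⟨x, hx, e1, e2⟩ := hJ₁ j hj
    rw [hX's j x hx, ← e2]
    exact hXc (w₀ j) e1
  · intro j hj
    rw [mem_filter]
    exact ⟨mem_univ _, fun h => hj ((hJ₀m j).2 h)⟩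
  · refine ⟨?_, ?_, ?_⟩
    · intro i hi j hj hij a b
      rw [dif_pos hi, dif_pos hj]
      refine hf2 _ _ (fun e => hij ?_) a b
      have := J₀.equivFin.injective e
      exact congrArg Subtype.val this
    · intro i hi a b hab
      simp only [dif_pos hi] at hab
      have h4 := hf1 (a₁ := (J₀.equivFin ⟨i, hi⟩, a)) (a₂ := (J₀.equivFin ⟨i, hi⟩, b)) (Subtype.ext hab)
      exact congrArg Prod.snd h4
    · intro i hi a j hj _
      rw [dif_pos hi]
      obtain ⟨x, hx, e1, e2⟩ := hJ₁ j hj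
      rw [hX's j x hx]
      exact hRsP _ (f (J₀.equivFin ⟨i, hi⟩) a).2 j x hx

theorem plus_of_blow {G : SimpleGraph V} {q t : ℕ} (h : HasBlow G (q + 2) (t + 2)) : HasPlus G q t := by
  obtain ⟨f, hf1, hf2⟩ := h
  have hne : ∀ i : Fin (q + 1), i.castSucc ≠ Fin.last (q + 1) := fun i => (Fin.castSucc_lt_last i).ne
  refine ⟨fun i a => if i = 0 ∧ a = 0 then f (Fin.last (q + 1)) 0 else f i.castSucc a, ?_, ?_, 0, 1, ?_⟩
  · rintro ⟨i, a⟩ ⟨j, b⟩ h
    simp only at h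
    by_cases e1 : i = 0 ∧ a = 0
    · by_cases e2 : j = 0 ∧ b = 0
      · rw [e1.1, e1.2, e2.1, e2.2]
      · rw [if_pos e1, if_neg e2] at h
        have := hf1 (a₁ := (Fin.last (q + 1), 0)) (a₂ := (j.castSucc, b)) h
        exact absurd (congrArg Prod.fst this) (hne j).symm
    · by_cases e2 : j = 0 ∧ b = 0
      · rw [if_neg e1, if_pos e2] at h
        have := hf1 (a₁ := (i.castSucc, a)) (a₂ := (Fin.last (q + 1), 0)) h
        exact absurd (congrArg Prod.fst this) (hne i)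
      · rw [if_neg e1, if_neg e2] at h
        have := hf1 (a₁ := (i.castSucc, a)) (a₂ := (j.castSucc, b)) h
        rw [Prod.mk.injEq] at this ⊢
        exact ⟨Fin.castSucc_injective _ this.1, this.2⟩
  · intro i j hij a b
    have hij' : i.castSucc ≠ j.castSucc := fun e => hij (Fin.castSucc_injective _ e)
    beta_reduce
    by_cases e1 : i = 0 ∧ a = 0
    · have e2 : ¬ (j = 0 ∧ b = 0) := fun e2 => hij (e1.1.trans e2.1.symm)
      rw [if_pos e1, if_neg e2]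
      exact hf2 _ _ (hne j).symm _ _
    · by_cases e2 : j = 0 ∧ b = 0
      · rw [if_neg e1, if_pos e2]
        exact hf2 _ _ (hne i) _ _
      · rw [if_neg e1, if_neg e2]
        exact hf2 _ _ hij' _ _
  · have e1 : (0 : Fin (q + 1)) = 0 ∧ (0 : Fin (t + 2)) = 0 := ⟨rfl, rfl⟩
    have e2 : ¬ ((0 : Fin (q + 1)) = 0 ∧ (1 : Fin (t + 2)) = 0) := by
      rintro ⟨-, h⟩
      exact absurd h (by simp [Fin.ext_iff])
    beta_reduce
    rw [if_pos e1, if_neg e2]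
    exact hf2 _ _ (hne 0).symm _ _

theorem exists_list {α β : Type*} (N : Finset α) (K : ℕ) (hN : N.card ≤ K) (g : α → Finset β) :
    ∃ X : Fin (K + 1) → Finset β, ∀ y ∈ N, ∃ i, X i = g y := by
  have h0 : ∀ i : Fin (K + 1), ∃ s : Finset β, ∀ y (hy : y ∈ N), (N.equivFin ⟨y, hy⟩).val = i.val → s = g y := by
    intro i
    by_cases h : ∃ y, ∃ hy : y ∈ N, (N.equivFin ⟨y, hy⟩).val = i.val
    · obtain ⟨y, hy, h1⟩ := h
      refine ⟨g y, fun y' hy' h2 => ?_⟩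
      have h3 : N.equivFin ⟨y, hy⟩ = N.equivFin ⟨y', hy'⟩ := Fin.ext (h1.trans h2.symm)
      have h4 := congrArg Subtype.val (N.equivFin.injective h3)
      exact congrArg g h4
    · push Not at h
      exact ⟨∅, fun y hy h2 => absurd h2 (h y hy)⟩
  choose X hX using h0
  refine ⟨X, fun y hy => ?_⟩
  have h3 : (N.equivFin ⟨y, hy⟩).val < N.card := (N.equivFin ⟨y, hy⟩).2
  exact ⟨⟨(N.equivFin ⟨y, hy⟩).val, by omega⟩, hX _ y hy rfl⟩

/-- **The number of the deleted edges is bounded.** `T₁`: near twins of radius `κ`, `T₂`: radius `2 κ` -/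
theorem four_of (q t K : ℕ) (hrem : RemSt (t + 2)) (C₂ A : ℝ) : ∃ s₀ : ℝ, ∀ (V : Type) [Finite V]
    (G G' : SimpleGraph V) (s : ℝ) (T₁ T₂ : V → V → Prop), 1 ≤ s → (df G G' : ℝ) = s ^ 2 → MinDel G G' (q + 2) →
    ¬ HasPlus G q t → (∀ x, T₁ x x) → (∀ x y, T₁ x y → T₁ y x) → (∀ x y z, T₁ x y → T₁ y z → T₂ x z) →
    (∀ E : Set V, ∃ X ⊆ E, E.ncard ≤ K * X.ncard ∧ ∀ x ∈ X, ∀ x' ∈ X, T₁ x x') →
    (∀ (a b : V) (M : Set V), G'.Adj a b → (∀ w ∈ M, T₂ b w ∧ ¬ G'.Adj a w) → (M.ncard : ℝ) ≤ C₂ * s) →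
    (∀ x, 0 < dD G G' x → (({w | T₁ x w}.ncard : ℕ) : ℝ) < A * s) → s ≤ s₀ := by
  obtain ⟨m₀, hm₀⟩ : ∃ m₀ : ℕ, m₀ = (q + 2) + (q + 2) * (t + 2) + (t + 2) := ⟨_, rfl⟩
  obtain ⟨A', hA'⟩ : ∃ A' : ℝ, A' = max A (m₀ * (max C₂ 0 + 1)) := ⟨_, rfl⟩
  have hA1 : A ≤ A' := by rw [hA']; exact le_max_left _ _
  have hA2 : m₀ * (max C₂ 0 + 1) ≤ A' := by rw [hA']; exact le_max_right _ _
  have hA0 : 0 ≤ A' := le_trans (by positivity) hA2
  obtain ⟨C₄, hC₄⟩ := exists_nat_ge ((K * A') ^ 2)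
  obtain ⟨d₀, hd₀⟩ := four_abs (t + 2) hrem (q + 2) (K + 1) C₄
  refine ⟨d₀, ?_⟩
  intro V _ G G' s T₁ T₂ hs hd hmd hplus hrefl hsymm htrans hsam hone hthree
  by_contra hcon
  push Not at hcon
  apply hplus
  apply plus_of_blow
  haveI := Fintype.ofFinite V
  have hs0 : 0 ≤ s := by linarith
  obtain ⟨R, hR⟩ : ∃ R : Finset V, R = univ.filter (fun x => (({w | T₁ x w}.ncard : ℕ) : ℝ) < A' * s) := ⟨_, rfl⟩
  have hRm : ∀ x, x ∈ R ↔ (({w | T₁ x w}.ncard : ℕ) : ℝ) < A' * s := by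
    intro x
    rw [hR, mem_filter]
    simp
  have hRc : (R.card : ℝ) ≤ K * (A' * s) := by
    obtain ⟨X, h1, h2, h3⟩ := hsam (R : Set V)
    rw [Set.ncard_coe_finset] at h2
    have h2' : (R.card : ℝ) ≤ K * X.ncard := by exact_mod_cast h2
    refine h2'.trans (mul_le_mul_of_nonneg_left ?_ (Nat.cast_nonneg _))
    rcases X.eq_empty_or_nonempty with rfl | ⟨x, hx⟩
    · rw [Set.ncard_empty, Nat.cast_zero]
      positivity
    · have h4 := (hRm x).1 (mem_coe.1 (h1 hx))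
      have h5 : X.ncard ≤ {w | T₁ x w}.ncard := Set.ncard_le_ncard (fun w hw => h3 x hx w hw) (Set.toFinite _)
      have h6 : (X.ncard : ℝ) ≤ (({w | T₁ x w}.ncard : ℕ) : ℝ) := by exact_mod_cast h5
      linarith
  have hRD : ∀ a b, G.Adj a b → ¬ G'.Adj a b → a ∈ R := by
    intro a b h1 h2
    rw [hRm]
    have h3 : 0 < dD G G' a := by
      unfold dD
      rw [Set.ncard_pos (Set.toFinite _)]
      exact ⟨b, h1, h2⟩
    have h4 := hthree a h3
    have h5 : A * s ≤ A' * s := mul_le_mul_of_nonneg_right hA1 hs0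
    linarith
  -- representatives
  obtain ⟨N, hN, hNmax⟩ := exists_max_image ((univ : Finset (Finset V)).filter (fun N => (∀ x ∈ N, x ∉ R) ∧
    ∀ x ∈ N, ∀ y ∈ N, x ≠ y → ¬ T₁ x y)) card ⟨∅, by simp⟩
  rw [mem_filter] at hN
  obtain ⟨-, hN1, hN2⟩ := hN
  have hNK : N.card ≤ K := by
    obtain ⟨X, h1, h2, h3⟩ := hsam (N : Set V)
    rw [Set.ncard_coe_finset] at h2
    have h4 : X.ncard ≤ 1 := by
      rw [Set.ncard_le_one (Set.toFinite _)]
      intro a ha b hb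
      by_contra hne
      exact hN2 a (mem_coe.1 (h1 ha)) b (mem_coe.1 (h1 hb)) hne (h3 a ha b hb)
    exact h2.trans (by nlinarith)
  have hrep : ∀ v, ∃ y, v ∉ R → y ∈ N ∧ T₁ v y := by
    intro v
    by_cases hv : v ∈ R
    · exact ⟨v, fun h => absurd hv h⟩
    · by_cases hvN : v ∈ N
      · exact ⟨v, fun _ => ⟨hvN, hrefl v⟩⟩
      · by_contra hno
        push Not at hno
        have h1 : ∀ y ∈ N, ¬ T₁ v y := fun y hy => (hno y).2 hy
        have h2 := hNmax (insert v N) (by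
          rw [mem_filter]
          refine ⟨mem_univ _, ?_, ?_⟩
          · intro x hx
            rcases mem_insert.1 hx with rfl | hx
            · exact hv
            · exact hN1 x hx
          · intro x hx y hy hne
            rcases mem_insert.1 hx with hx1 | hx1
            · rcases mem_insert.1 hy with hy1 | hy1
              · exact absurd (hx1.trans hy1.symm) hne
              · rw [hx1]
                exact h1 y hy1
            · rcases mem_insert.1 hy with hy1 | hy1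
              · rw [hy1]
                exact fun h => h1 x hx1 (hsymm _ _ h)
              · exact hN2 x hx1 y hy1 hne)
        rw [card_insert_of_notMem hvN] at h2
        omega
  choose rep hrep using hrep
  obtain ⟨X, hX⟩ := exists_list N K hNK (fun y => univ.filter (fun w => T₁ y w))
  have hty : ∀ v, ∃ i : Fin (K + 1), v ∉ R → X i = univ.filter (fun w => T₁ (rep v) w) := by
    intro v
    by_cases hv : v ∈ R
    · exact ⟨0, fun h => absurd hv h⟩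
    · obtain ⟨h1, h2⟩ := hrep v hv
      obtain ⟨i, hi⟩ := hX (rep v) h1
      exact ⟨i, fun _ => hi⟩
  choose ty hty using hty
  obtain ⟨m₁, hm₁⟩ : ∃ m₁ : ℕ, m₁ = ⌊C₂ * s⌋₊ := ⟨_, rfl⟩
  have hdR : (df G G' : ℝ) = s ^ 2 := hd
  refine hd₀ V G G' hmd.le hmd.cf hmd.min R (fun a b h1 h2 => ⟨hRD a b h1 h2, hRD b a h1.symm (fun h => h2 h.symm)⟩)
    ?_ m₁ ty X ?_ ?_ ?_
  · have h1 : (R.card : ℝ) ^ 2 ≤ (K * (A' * s)) ^ 2 := pow_le_pow_left₀ (Nat.cast_nonneg _) hRc 2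
    have h2 : (K * (A' * s)) ^ 2 = (K * A') ^ 2 * s ^ 2 := by ring
    have h3 : (K * A') ^ 2 * s ^ 2 ≤ C₄ * s ^ 2 := mul_le_mul_of_nonneg_right hC₄ (by positivity)
    have h4 : ((R.card ^ 2 : ℕ) : ℝ) ≤ ((C₄ * df G G' : ℕ) : ℝ) := by
      push_cast
      rw [hdR]
      linarith
    exact_mod_cast h4
  · intro v hv u huv
    obtain ⟨h1, h2⟩ := hrep v hv
    rw [hty v hv, hm₁]
    apply Nat.le_floor
    have h3 := hone u v {w | T₁ (rep v) w ∧ ¬ G'.Adj u w} huv (fun w hw => ⟨htrans v (rep v) w h2 hw.1, hw.2⟩)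
    have h4 : {w | T₁ (rep v) w ∧ ¬ G'.Adj u w} = ((ms G' u (univ.filter (fun w => T₁ (rep v) w)) : Finset V) : Set V) := by
      ext w
      simp [ms]
    rw [h4, Set.ncard_coe_finset] at h3
    exact h3
  · intro v hv
    obtain ⟨h1, h2⟩ := hrep v hv
    rw [hty v hv]
    have h3 : ¬ (({w | T₁ (rep v) w}.ncard : ℕ) : ℝ) < A' * s := fun h => hN1 _ h1 ((hRm _).2 h)
    push Not at h3
    have h4 : {w | T₁ (rep v) w} = ((univ.filter (fun w => T₁ (rep v) w) : Finset V) : Set V) := by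
      ext w
      simp
    rw [h4, Set.ncard_coe_finset] at h3
    have h5 : (m₁ : ℝ) ≤ max C₂ 0 * s := by
      rcases le_or_gt 0 (C₂ * s) with h | h
      · rw [hm₁]
        exact (Nat.floor_le h).trans (mul_le_mul_of_nonneg_right (le_max_left _ _) hs0)
      · rw [hm₁, Nat.floor_of_nonpos h.le, Nat.cast_zero]
        positivity
    have h6 : m₀ * (max C₂ 0 + 1) * s ≤ A' * s := mul_le_mul_of_nonneg_right hA2 hs0
    have h7 : (m₀ : ℝ) * (m₁ + 1) ≤ m₀ * ((max C₂ 0 + 1) * s) :=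
      mul_le_mul_of_nonneg_left (by linarith) (Nat.cast_nonneg _)
    have h8 : (((q + 2 + (q + 2) * (t + 2) + (t + 2)) * (m₁ + 1) : ℕ) : ℝ) ≤
        ((univ.filter (fun w => T₁ (rep v) w)).card : ℝ) := by
      rw [← hm₀]
      push_cast
      linarith
    exact_mod_cast h8
  · have h1 : (d₀ : ℝ) ≤ df G G' := by
      rw [hdR]
      nlinarith
    exact_mod_cast h1

/-- the removal lemma -/
theorem remSt (t : ℕ) : RemSt t := by
  intro r κ hκ
  obtain ⟨n₀, h⟩ := Pool.Agent.WTE.rem_free r t hκ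
  refine ⟨n₀, fun V _ hn G hG => h V G hn ?_⟩
  rintro ⟨e⟩
  apply hG
  refine ⟨fun i a => e (i, a), fun p p' hp => e.injective hp, fun i j hij a b => ?_⟩
  refine e.toHom.map_adj ?_
  rw [SimpleGraph.completeEquipartiteGraph_adj]
  exact hij

/-- (FOUR) no hypothesis on the removal lemma; `K` is the constant of the sampling lemma -/
theorem four (q t K : ℕ) (_hq : 1 ≤ q) (_C' C₂ A : ℝ) : ∃ s₀ : ℝ, ∀ (V : Type) [Finite V] (G G' : SimpleGraph V) (s : ℝ)
    (T₁ T₂ : V → V → Prop), 1 ≤ s → (df G G' : ℝ) = s ^ 2 → MinDel G G' (q + 2) → ¬ HasPlus G q t →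
    (∀ x, T₁ x x) → (∀ x y, T₁ x y → T₁ y x) → (∀ x y z, T₁ x y → T₁ y z → T₂ x z) →
    (∀ E : Set V, ∃ X ⊆ E, E.ncard ≤ K * X.ncard ∧ ∀ x ∈ X, ∀ x' ∈ X, T₁ x x') →
    (∀ (a b : V) (M : Set V), G'.Adj a b → (∀ w ∈ M, T₂ b w ∧ ¬ G'.Adj a w) → (M.ncard : ℝ) ≤ C₂ * s) →
    (∀ x, 0 < dD G G' x → (({w | T₁ x w}.ncard : ℕ) : ℝ) < A * s) → s ≤ s₀ :=
  four_of q t K (remSt (t + 2)) C₂ A

end Pool.Agent.WTG
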