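import Pool.Agent.WTG.Defs
import Pool.Agent.WTK.EmbG
import Pool.Agent.WTE.RemK

/-!
# [WTG-BoxPlus] (BOXPLUS) and (REMD) (helper52)

`boxplus`: blow up the cliques with `WTK.emb_gen`, the edge `x y` is put into the part `0`.
`remd`: a graph without the plus graph has no complete `(q+2)`-partite graph with parts of size `t + 2`, so the removal lemma applies.
-/

set_option autoImplicit false

namespace Pool.Agent.WTG

open Pool.Agent.WT7 Pool.Agent.WTK

variable {V : Type}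

/-- the complete `(q+1)`-partite graph with parts of size `m + 2` and one edge inside the part `0` -/
def plusG (q m : ℕ) : SimpleGraph (Fin (q + 1) × Fin (m + 2)) where
  Adj u v := u.1 ≠ v.1 ∨ (u.1 = 0 ∧ v.1 = 0 ∧ ((u.2 = 0 ∧ v.2 = 1) ∨ (u.2 = 1 ∧ v.2 = 0)))
  symm := ⟨by
    rintro u v (h | ⟨h1, h2, h3 | h3⟩)
    · exact Or.inl (Ne.symm h)
    · exact Or.inr ⟨h2, h1, Or.inr ⟨h3.2, h3.1⟩⟩
    · exact Or.inr ⟨h2, h1, Or.inl ⟨h3.2, h3.1⟩⟩⟩
  loopless := ⟨by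
    rintro u (h | ⟨-, -, ⟨h1, h2⟩ | ⟨h1, h2⟩⟩)
    · exact h rfl
    · rw [h1] at h2
      exact absurd h2 (by simp)
    · rw [h1] at h2
      exact absurd h2 (by simp)⟩

theorem hasPlus_of_contained {G : SimpleGraph V} {q m : ℕ} (h : (plusG q m).IsContained G) :
    HasPlus G q m := by
  obtain ⟨e⟩ := h
  refine ⟨fun i a => e (i, a), ?_, ?_, 0, 1, ?_⟩
  · intro p p' hp
    exact e.injective hp
  · intro i j hij a b
    exact e.toHom.map_adj (show (plusG q m).Adj (i, a) (j, b) from Or.inl hij)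
  · exact e.toHom.map_adj (show (plusG q m).Adj (0, 0) (0, 1) from Or.inr ⟨rfl, rfl, Or.inl ⟨rfl, rfl⟩⟩)

/-- (BOXPLUS) adjacent `x`, `y` and many `(q+1)`-cliques with all vertices except the one at `0` in `N(x) ∩ N(y)` -/
theorem boxplus (q m : ℕ) {γ : ℝ} (hγ : 0 < γ) : ∃ n₀ : ℕ, ∀ (V : Type) [Finite V], n₀ ≤ Nat.card V →
    ∀ (G : SimpleGraph V) (x y : V), G.Adj x y →
      γ * (Nat.card V : ℝ) ^ (q + 1) ≤ (({f : Fin (q + 1) → V | (∀ i i', i ≠ i' → G.Adj (f i) (f i')) ∧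
        ∀ i, i ≠ 0 → f i ∈ G.neighborSet x ∩ G.neighborSet y}.ncard : ℕ) : ℝ) → HasPlus G q m := by
  obtain ⟨n₀, h⟩ := emb_gen (F := plusG q m) (ι := Fin (q + 1))
    (fun u => if u.1 = 0 ∧ (u.2 = 0 ∨ u.2 = 1) then none else some u.1) hγ
  refine ⟨n₀, fun V _ hn G x y hxy hT => hasPlus_of_contained ?_⟩
  have hsome : ∀ (u : Fin (q + 1) × Fin (m + 2)) (i : Fin (q + 1)),
      (if u.1 = 0 ∧ (u.2 = 0 ∨ u.2 = 1) then none else some u.1) = some i →
        ¬ (u.1 = 0 ∧ (u.2 = 0 ∨ u.2 = 1)) ∧ u.1 = i := by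
    intro u i hu
    split_ifs at hu with h1
    exact ⟨h1, Option.some_injective _ hu⟩
  have hnone : ∀ (u : Fin (q + 1) × Fin (m + 2)),
      (if u.1 = 0 ∧ (u.2 = 0 ∨ u.2 = 1) then none else some u.1) = none →
        u.1 = 0 ∧ (u.2 = 0 ∨ u.2 = 1) := by
    intro u hu
    split_ifs at hu with h1
    exact h1
  refine h V hn G (fun u => if u.2 = 0 then x else y)
    {f : Fin (q + 1) → V | (∀ i i', i ≠ i' → G.Adj (f i) (f i')) ∧
        ∀ i, i ≠ 0 → f i ∈ G.neighborSet x ∩ G.neighborSet y} ?_ ?_ ?_ ?_ ?_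
  · rintro u v hu hv huv
    obtain ⟨u1, u2⟩ := hnone u hu
    obtain ⟨v1, v2⟩ := hnone v hv
    refine Prod.ext (u1.trans v1.symm) ?_
    have hne : x ≠ y := hxy.ne
    replace huv : (if u.2 = 0 then x else y) = (if v.2 = 0 then x else y) := huv
    rcases u2 with u2 | u2 <;> rcases v2 with v2 | v2
    · rw [u2, v2]
    · rw [u2, v2, if_pos rfl, if_neg (by simp)] at huv
      exact absurd huv hne
    · rw [u2, v2, if_pos rfl, if_neg (by simp)] at huv
      exact absurd huv.symm hne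
    · rw [u2, v2]
  · rintro u v huv hu hv
    obtain ⟨u1, u2⟩ := hnone u hu
    obtain ⟨v1, v2⟩ := hnone v hv
    rcases huv with h1 | ⟨-, -, ⟨h1, h2⟩ | ⟨h1, h2⟩⟩
    · exact absurd (u1.trans v1.symm) h1
    · rw [h1, h2, if_pos rfl, if_neg (by simp)]
      exact hxy
    · rw [h1, h2, if_pos rfl, if_neg (by simp)]
      exact hxy.symm
  · rintro u v i huv hu hv Q hQ
    obtain ⟨u1, u2⟩ := hnone u hu
    obtain ⟨v1, v2⟩ := hsome v i hv
    have hi : i ≠ 0 := by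
      rcases huv with h1 | ⟨-, h0, ⟨-, h2⟩ | ⟨-, h2⟩⟩
      · intro hi
        exact h1 (u1.trans (v2.trans hi).symm)
      · exact absurd ⟨h0, Or.inr h2⟩ v1
      · exact absurd ⟨h0, Or.inl h2⟩ v1
    have h3 := hQ.2 i hi
    show G.Adj (if u.2 = 0 then x else y) (Q i)
    split_ifs
    · exact h3.1
    · exact h3.2
  · rintro u v i j huv hu hv Q hQ
    obtain ⟨u1, u2⟩ := hsome u i hu
    obtain ⟨v1, v2⟩ := hsome v j hv
    rcases huv with h1 | ⟨h0, -, ⟨h1, -⟩ | ⟨h1, -⟩⟩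
    · exact hQ.1 i j (by rw [← u2, ← v2]; exact h1)
    · exact absurd ⟨h0, Or.inl h1⟩ u1
    · exact absurd ⟨h0, Or.inr h1⟩ u1
  · rw [Nat.card_fin]
    exact hT

/-- no plus graph, so no complete `(q+2)`-partite graph with parts of size `t + 2` -/
theorem free_of_noplus {G : SimpleGraph V} {q t : ℕ} (h : ¬ HasPlus G q t) :
    (SimpleGraph.completeEquipartiteGraph (q + 2) (t + 2)).Free G := by
  rintro ⟨e⟩
  apply h
  have hadj : ∀ (i j : Fin (q + 2)) (a b : Fin (t + 2)), i ≠ j → G.Adj (e (i, a)) (e (j, b)) := by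
    intro i j a b hij
    refine e.toHom.map_adj ?_
    rw [SimpleGraph.completeEquipartiteGraph_adj]
    exact hij
  let z : Fin (t + 2) := ⟨0, by omega⟩
  let o : Fin (t + 2) := ⟨1, by omega⟩
  have hzo : z ≠ o := by
    intro h
    have := congrArg Fin.val h
    simp [z, o] at this
  -- the vertex `z` of the part `0` is replaced by a vertex of the last part
  let g : Fin (q + 1) → Fin (t + 2) → Fin (q + 2) × Fin (t + 2) := fun i a =>
    if i = 0 ∧ a = z then (Fin.last (q + 1), z) else (i.castSucc, a)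
  have hg : ∀ i a, g i a = if i = 0 ∧ a = z then (Fin.last (q + 1), z) else (i.castSucc, a) := fun _ _ => rfl
  refine ⟨fun i a => e (g i a), ?_, ?_, z, o, ?_⟩
  · rintro ⟨i, a⟩ ⟨j, b⟩ hp
    have h1 : g i a = g j b := e.injective hp
    rw [hg, hg] at h1
    split_ifs at h1 with h2 h3 h3
    · rw [h2.1, h2.2, h3.1, h3.2]
    · have := (Prod.ext_iff.1 h1).1
      exact absurd this.symm (Fin.castSucc_ne_last j)
    · have := (Prod.ext_iff.1 h1).1
      exact absurd this (Fin.castSucc_ne_last i)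
    · have h4 := (Prod.ext_iff.1 h1).1
      have h5 := (Prod.ext_iff.1 h1).2
      exact Prod.ext (Fin.castSucc_injective _ h4) h5
  · intro i j hij a b
    show G.Adj (e (g i a)) (e (g j b))
    have h1 : (g i a).1 ≠ (g j b).1 := by
      rw [hg, hg]
      split_ifs with h2 h3 h3
      · exact absurd (h2.1.trans h3.1.symm) hij
      · exact (Fin.castSucc_ne_last j).symm
      · exact Fin.castSucc_ne_last i
      · intro h
        exact hij (Fin.castSucc_injective _ h)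
    have h2 := hadj (g i a).1 (g j b).1 (g i a).2 (g j b).2 h1
    exact h2
  · show G.Adj (e (g 0 z)) (e (g 0 o))
    rw [hg, hg, if_pos ⟨rfl, rfl⟩, if_neg (fun h => hzo h.2.symm)]
    exact hadj _ _ _ _ (Fin.castSucc_ne_last 0).symm

/-- (REMD) few deleted edges -/
theorem remd (q t : ℕ) {ε : ℝ} (hε : 0 < ε) : ∃ n₀ : ℕ, ∀ (V : Type) [Finite V], n₀ ≤ Nat.card V →
    ∀ G : SimpleGraph V, ¬ HasPlus G q t → ∃ G', MinDel G G' (q + 2) ∧ (df G G' : ℝ) ≤ ε * (Nat.card V : ℝ) ^ 2 := by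
  classical
  obtain ⟨n₀, h⟩ := Pool.Agent.WTE.rem_free (q + 2) (t + 2) hε
  refine ⟨n₀, fun V _ hn G hG => ?_⟩
  obtain ⟨G₁, h1, h2, h3⟩ := h V G hn (free_of_noplus hG)
  have hex : ∃ m : ℕ, ∃ G₂ : SimpleGraph V, G₂ ≤ G ∧ G₂.CliqueFree (q + 2) ∧ df G G₂ = m := ⟨_, G₁, h1, h2, rfl⟩
  obtain ⟨G', h4, h5, h6⟩ := Nat.find_spec hex
  have hmin : ∀ G'' ≤ G, G''.CliqueFree (q + 2) → df G G' ≤ df G G'' := by
    intro G'' h7 h8
    rw [h6]
    exact Nat.find_min' hex ⟨G'', h7, h8, rfl⟩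
  refine ⟨G', ⟨h4, h5, hmin⟩, ?_⟩
  refine le_trans ?_ h3
  exact_mod_cast hmin G₁ h1 h2

end Pool.Agent.WTG
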