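import Pool.Agent.WT7.Low
import Pool.Agent.WT7.DegL
import Pool.Agent.WT7.ExtM
import Pool.Agent.WTK.StarK
import Pool.Agent.WTK.GrowK
import Pool.Agent.WTK.EmbG
import Pool.Agent.WTG.BoxPlus

/-!
# [WTG-PropK] almost all `y ∉ N(u)` have many `K_(k-2)` in `N(u) ∩ N(y)` (helper33)

`k = q + 2`, `q ≥ 1`. `few1K`, `fewK`: every neighbourhood of a graph without `F` contains few `K_(k-1)`, the graph contains few `K_k`. `level`: let `Z` be a large set
of exceptions. If all large subsets of `Z` contain many edges then `Z` contains many `K_k` (induction), if `I` is a large subset with few edges then `N(u) ∪ I` contains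
few `K_(k-1)` and this contradicts `starK`. `coN`: no vertex is adjacent to almost all vertices.
-/

set_option autoImplicit false

namespace Pool.Agent.WTG

open Pool.Agent.WT7 Pool.Agent.WTK

variable {α β V : Type}

open Classical in
/-- cliques with one vertex in `I` and the others in `S` -/
theorem cq_E1 [Finite V] (G : SimpleGraph V) (S I : Set V) {q : ℕ} {d : ℝ} (hd : 0 ≤ d)
    (hI : ∀ y ∈ I, ((cq G (G.neighborSet y ∩ S) (Fin q)).ncard : ℝ) ≤ d) (i₀ : Fin (q + 1)) :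
    (({f : Fin (q + 1) → V | f ∈ cq G Set.univ (Fin (q + 1)) ∧ f i₀ ∈ I ∧ ∀ i, i ≠ i₀ → f i ∈ S}).ncard : ℝ) ≤
      Nat.card V * d := by
  have := Fintype.ofFinite V
  obtain ⟨A, hA⟩ : ∃ A : Set (Fin (q + 1) → V), A = {f | f ∈ cq G Set.univ (Fin (q + 1)) ∧ f i₀ ∈ I ∧
      ∀ i, i ≠ i₀ → f i ∈ S} := ⟨_, rfl⟩
  rw [← hA]
  obtain ⟨B, hB⟩ : ∃ B : V → Set (Fin q → V), ∀ v, B v =
      {g | v ∈ I ∧ g ∈ cq G (G.neighborSet v ∩ S) (Fin q)} := ⟨_, fun _ => rfl⟩
  have h3 : A.toFinset.card ≤ (Finset.univ.sigma (fun v => (B v).toFinset)).card := by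
    refine Finset.card_le_card_of_injOn (fun f => ⟨f i₀, fun j => f (i₀.succAbove j)⟩) ?_ ?_
    · intro f hf
      simp only [Finset.mem_coe, Set.mem_toFinset, hA, Set.mem_ofPred_eq] at hf
      simp only [Finset.mem_coe, Finset.mem_sigma, Finset.mem_univ, true_and, Set.mem_toFinset, hB,
        Set.mem_ofPred_eq]
      refine ⟨hf.2.1, fun j => ⟨?_, hf.2.2 _ (Fin.succAbove_ne i₀ j)⟩, fun j j' hj => ?_⟩
      · exact hf.1.2 _ _ (Fin.succAbove_ne i₀ j).symm
      · exact hf.1.2 _ _ (fun h => hj (Fin.succAbove_right_injective h))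
    · intro f _ f' _ hx
      simp only [Sigma.mk.injEq, heq_eq_eq] at hx
      funext i
      rcases eq_or_ne i i₀ with rfl | hi
      · exact hx.1
      · obtain ⟨j, rfl⟩ := Fin.exists_succAbove_eq hi
        exact congrFun hx.2 j
  rw [Finset.card_sigma, ← Set.ncard_eq_toFinset_card'] at h3
  have h4 : (A.ncard : ℝ) ≤ ∑ v : V, ((B v).toFinset.card : ℝ) := by
    exact_mod_cast h3
  have h5 : ∀ v : V, ((B v).toFinset.card : ℝ) ≤ d := by
    intro v
    rw [← Set.ncard_eq_toFinset_card']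
    by_cases hv : v ∈ I
    · have e : B v = cq G (G.neighborSet v ∩ S) (Fin q) := by
        rw [hB]
        ext g
        simp [hv]
      rw [e]
      exact hI v hv
    · have : B v = ∅ := by
        rw [hB, Set.eq_empty_iff_forall_notMem]
        intro g hg
        exact hv hg.1
      rw [this, Set.ncard_empty, Nat.cast_zero]
      exact hd
  refine h4.trans ((Finset.sum_le_sum fun v _ => h5 v).trans (le_of_eq ?_))
  rw [Finset.sum_const, Finset.card_univ, nsmul_eq_mul, Nat.card_eq_fintype_card]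

open Classical in
/-- tuples with an edge inside `I` -/
theorem cq_pair [Finite V] (G : SimpleGraph V) (I : Set V) {q : ℕ} {i i' : Fin (q + 1)} (hi : i ≠ i') :
    (({f : Fin (q + 1) → V | f i ∈ I ∧ f i' ∈ I ∧ G.Adj (f i) (f i')}).ncard : ℝ) ≤
      pe G I I * (Nat.card V : ℝ) ^ (q - 1) := by
  have := Fintype.ofFinite V
  obtain ⟨A, hA⟩ : ∃ A : Set (Fin (q + 1) → V), A = {f | f i ∈ I ∧ f i' ∈ I ∧ G.Adj (f i) (f i')} := ⟨_, rfl⟩
  obtain ⟨E, hE⟩ : ∃ E : Set (V × V), E = {p : V × V | p.1 ∈ I ∧ p.2 ∈ I ∧ G.Adj p.1 p.2} := ⟨_, rfl⟩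
  rw [← hA, pe, ← hE]
  have hq : 1 ≤ q := by
    by_contra h
    apply hi
    have h1 := i.isLt
    have h2 := i'.isLt
    ext
    omega
  have h3 : A.toFinset.card ≤ (E.toFinset ×ˢ
      (Finset.univ : Finset ({j : Fin (q + 1) // ¬ (j = i ∨ j = i')} → V))).card := by
    refine Finset.card_le_card_of_injOn
      (fun f => ((f i, f i'), fun j => f j.1)) ?_ ?_
    · intro f hf
      simp only [Finset.mem_coe, Set.mem_toFinset, hA, Set.mem_ofPred_eq] at hf
      simp only [Finset.mem_coe, Finset.mem_product, Finset.mem_univ, and_true, Set.mem_toFinset, hE,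
        Set.mem_ofPred_eq]
      exact hf
    · intro f _ f' _ hx
      simp only [Prod.mk.injEq] at hx
      funext j
      by_cases hj : j = i ∨ j = i'
      · rcases hj with rfl | rfl
        · exact hx.1.1
        · exact hx.1.2
      · exact congrFun hx.2 ⟨j, hj⟩
  rw [Finset.card_product, ← Set.ncard_eq_toFinset_card', ← Set.ncard_eq_toFinset_card', Finset.card_univ,
    Fintype.card_fun] at h3
  have h6 : Fintype.card {j : Fin (q + 1) // ¬ (j = i ∨ j = i')} = q - 1 := by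
    rw [Fintype.card_subtype_compl, Fintype.card_fin]
    have : Fintype.card {j : Fin (q + 1) // j = i ∨ j = i'} = 2 := by
      rw [Fintype.card_subtype]
      have e : (Finset.univ.filter (fun j : Fin (q + 1) => j = i ∨ j = i')) = {i, i'} := by
        ext j
        simp
      rw [e, Finset.card_pair hi]
    rw [this]
    omega
  rw [h6] at h3
  rw [Nat.card_eq_fintype_card]
  exact_mod_cast h3

/-- the cliques in `S ∪ I` -/
theorem cq_union [Finite V] (G : SimpleGraph V) (S I : Set V) {q : ℕ} {d : ℝ} (hd : 0 ≤ d)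
    (hI : ∀ y ∈ I, ((cq G (G.neighborSet y ∩ S) (Fin q)).ncard : ℝ) ≤ d) :
    ((cq G (S ∪ I) (Fin (q + 1))).ncard : ℝ) ≤ (cq G S (Fin (q + 1))).ncard + (q + 1) * (Nat.card V * d) +
      (q + 1) * ((q + 1) * (pe G I I * (Nat.card V : ℝ) ^ (q - 1))) := by
  classical
  obtain ⟨A, hA⟩ : ∃ A : Fin (q + 1) → Set (Fin (q + 1) → V), ∀ i₀, A i₀ = {f | f ∈ cq G Set.univ (Fin (q + 1)) ∧
      f i₀ ∈ I ∧ ∀ i, i ≠ i₀ → f i ∈ S} := ⟨_, fun _ => rfl⟩
  obtain ⟨B, hB⟩ : ∃ B : Fin (q + 1) → Fin (q + 1) → Set (Fin (q + 1) → V), ∀ i i', B i i' =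
      {f | i ≠ i' ∧ f i ∈ I ∧ f i' ∈ I ∧ G.Adj (f i) (f i')} := ⟨_, fun _ _ => rfl⟩
  have hsub : cq G (S ∪ I) (Fin (q + 1)) ⊆ cq G S (Fin (q + 1)) ∪ ((⋃ i, A i) ∪ ⋃ i, ⋃ i', B i i') := by
    intro f hf
    by_cases h0 : ∀ i, f i ∈ S
    · exact Or.inl ⟨h0, hf.2⟩
    right
    push Not at h0
    obtain ⟨i₀, hi₀⟩ := h0
    have hi₀I : f i₀ ∈ I := (hf.1 i₀).resolve_left hi₀
    by_cases h1 : ∀ i, i ≠ i₀ → f i ∈ S
    · left
      rw [Set.mem_iUnion]
      refine ⟨i₀, ?_⟩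
      rw [hA]
      exact ⟨⟨fun i => Set.mem_univ _, hf.2⟩, hi₀I, h1⟩
    · right
      push Not at h1
      obtain ⟨i, hi1, hi2⟩ := h1
      rw [Set.mem_iUnion]
      refine ⟨i₀, ?_⟩
      rw [Set.mem_iUnion]
      refine ⟨i, ?_⟩
      rw [hB]
      exact ⟨Ne.symm hi1, hi₀I, (hf.1 i).resolve_left hi2, hf.2 _ _ (Ne.symm hi1)⟩
  have h1 : (cq G (S ∪ I) (Fin (q + 1))).ncard ≤ (cq G S (Fin (q + 1))).ncard + ((⋃ i, A i).ncard +
      (⋃ i, ⋃ i', B i i').ncard) :=
    (Set.ncard_le_ncard hsub (Set.toFinite _)).trans ((Set.ncard_union_le _ _).trans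
      (Nat.add_le_add_left (Set.ncard_union_le _ _) _))
  have hU : ∀ {J : Type} [Fintype J] (T : J → Set (Fin (q + 1) → V)), (⋃ j, T j).ncard ≤ ∑ j, (T j).ncard := by
    intro J _ T
    have h2 : (⋃ j, T j) = ⋃ j ∈ (Finset.univ : Finset J), T j := by simp
    rw [h2]
    exact Finset.set_ncard_biUnion_le _ _
  have h2 : ((⋃ i, A i).ncard : ℝ) ≤ (q + 1) * (Nat.card V * d) := by
    have h3 : ((⋃ i, A i).ncard : ℝ) ≤ ∑ i, ((A i).ncard : ℝ) := by exact_mod_cast hU A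
    refine h3.trans ((Finset.sum_le_sum (g := fun _ => (Nat.card V : ℝ) * d) fun i _ => ?_).trans (le_of_eq ?_))
    · rw [hA]
      exact cq_E1 G S I hd hI i
    · rw [Finset.sum_const, Finset.card_univ, Fintype.card_fin, nsmul_eq_mul]
      push_cast
      ring
  have h3 : ((⋃ i, ⋃ i', B i i').ncard : ℝ) ≤ (q + 1) * ((q + 1) * (pe G I I * (Nat.card V : ℝ) ^ (q - 1))) := by
    have h4 : ((⋃ i, ⋃ i', B i i').ncard : ℝ) ≤ ∑ i, ((⋃ i', B i i').ncard : ℝ) := by
      exact_mod_cast hU (fun i => ⋃ i', B i i')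
    have h5 : ∀ i, ((⋃ i', B i i').ncard : ℝ) ≤ (q + 1) * (pe G I I * (Nat.card V : ℝ) ^ (q - 1)) := by
      intro i
      have h6 : ((⋃ i', B i i').ncard : ℝ) ≤ ∑ i', ((B i i').ncard : ℝ) := by exact_mod_cast hU (B i)
      refine h6.trans ((Finset.sum_le_sum (g := fun _ => (pe G I I : ℝ) * (Nat.card V : ℝ) ^ (q - 1))
        fun i' _ => ?_).trans (le_of_eq ?_))
      · rw [hB]
        by_cases hii : i = i'
        · have h7 : {f : Fin (q + 1) → V | i ≠ i' ∧ f i ∈ I ∧ f i' ∈ I ∧ G.Adj (f i) (f i')} = ∅ := by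
            rw [Set.eq_empty_iff_forall_notMem]
            intro f hf
            exact hf.1 hii
          rw [h7, Set.ncard_empty, Nat.cast_zero]
          positivity
        · refine le_trans ?_ (cq_pair G I hii)
          apply Nat.cast_le.2
          exact Set.ncard_le_ncard (fun f hf => hf.2) (Set.toFinite _)
      · rw [Finset.sum_const, Finset.card_univ, Fintype.card_fin, nsmul_eq_mul]
        push_cast
        ring
    refine h4.trans ((Finset.sum_le_sum (g := fun _ => ((q : ℝ) + 1) * (pe G I I * (Nat.card V : ℝ) ^ (q - 1)))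
      fun i _ => h5 i).trans (le_of_eq ?_))
    rw [Finset.sum_const, Finset.card_univ, Fintype.card_fin, nsmul_eq_mul]
    push_cast
    ring
  have h4 : ((cq G (S ∪ I) (Fin (q + 1))).ncard : ℝ) ≤ (cq G S (Fin (q + 1))).ncard + ((⋃ i, A i).ncard +
      (⋃ i, ⋃ i', B i i').ncard) := by exact_mod_cast h1
  linarith

open Classical in
/-- cliques from their first vertex -/
theorem cq_cons [Finite V] (G : SimpleGraph V) (Z Y : Set V) (hY : Y ⊆ Z) (j : ℕ) {c : ℝ}
    (hc : ∀ y ∈ Y, c ≤ ((cq G (G.neighborSet y ∩ Z) (Fin j)).ncard : ℝ)) :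
    (Y.ncard : ℝ) * c ≤ ((cq G Z (Fin (j + 1))).ncard : ℝ) := by
  have := Fintype.ofFinite V
  have h1 : (Y.toFinset.sigma (fun v => (cq G (G.neighborSet v ∩ Z) (Fin j)).toFinset)).card ≤
      (cq G Z (Fin (j + 1))).toFinset.card := by
    refine Finset.card_le_card_of_injOn (fun p => (Fin.cons p.1 p.2 : Fin (j + 1) → V)) ?_ ?_
    · rintro ⟨v, f⟩ hp
      simp only [Finset.mem_coe, Finset.mem_sigma, Set.mem_toFinset] at hp
      obtain ⟨h1, h2, h3⟩ := hp
      simp only [Finset.mem_coe, Set.mem_toFinset]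
      refine ⟨fun i => ?_, fun i j => ?_⟩
      · refine Fin.cases ?_ (fun i => ?_) i
        · exact hY h1
        · exact (h2 i).2
      · refine Fin.cases ?_ (fun i => ?_) i <;> refine Fin.cases ?_ (fun j => ?_) j
        · intro h
          exact absurd rfl h
        · intro _
          exact (h2 j).1
        · intro _
          exact ((h2 i).1 : G.Adj v (f i)).symm
        · intro h
          exact h3 i j fun h' => h (by rw [h'])
    · rintro ⟨v, f⟩ _ ⟨v', f'⟩ _ h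
      have h1 : v = v' := by
        have := congrFun h 0
        simpa using this
      have h2 : f = f' := by
        funext i
        have := congrFun h i.succ
        simpa using this
      rw [h1, h2]
  rw [Finset.card_sigma, ← Set.ncard_eq_toFinset_card'] at h1
  have h2 : ∑ v ∈ Y.toFinset, ((cq G (G.neighborSet v ∩ Z) (Fin j)).toFinset.card : ℝ) ≤
      (cq G Z (Fin (j + 1))).ncard := by exact_mod_cast h1
  refine le_trans ?_ h2
  calc (Y.ncard : ℝ) * c = ∑ _v ∈ Y.toFinset, c := by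
        rw [Finset.sum_const, nsmul_eq_mul, Set.ncard_eq_toFinset_card']
    _ ≤ _ := Finset.sum_le_sum fun v hv => by
        rw [← Set.ncard_eq_toFinset_card']
        exact hc v (Set.mem_toFinset.1 hv)

theorem cq_zero [Finite V] (G : SimpleGraph V) (Z : Set V) : (cq G Z (Fin 0)).ncard = 1 := by
  rw [Set.ncard_eq_one]
  refine ⟨fun i => i.elim0, ?_⟩
  ext f
  rw [Set.mem_singleton_iff]
  exact ⟨fun _ => funext fun i => i.elim0, fun _ => ⟨fun i => i.elim0, fun i => i.elim0⟩⟩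

theorem cq_mono [Finite V] (G : SimpleGraph V) {S S' : Set V} (h : S ⊆ S') (j : ℕ) :
    (cq G S (Fin j)).ncard ≤ (cq G S' (Fin j)).ncard :=
  Set.ncard_le_ncard (fun _ hf => ⟨fun i => h (hf.1 i), hf.2⟩) (Set.toFinite _)

/-! ### Few cliques -/

/-- (FEWK) every vertex is in few `K_(q+2)` -/
theorem fewk (q t : ℕ) {γ : ℝ} (hγ : 0 < γ) : ∃ n₀ : ℕ, ∀ (V : Type) [Finite V], n₀ ≤ Nat.card V →
    ∀ G : SimpleGraph V, ¬ HasPlus G q t → ∀ u,
      (nq G (G.neighborSet u) (q + 1) : ℝ) ≤ γ * (Nat.card V : ℝ) ^ (q + 1) := by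
  classical
  obtain ⟨n₀, hn₀⟩ := emb_gen (F := plusG q t) (ι := Fin (q + 1))
    (fun u => if u = (0, 0) then none else some u.1) hγ
  refine ⟨n₀, fun V _ hV G hG u => ?_⟩
  by_contra hcon
  push Not at hcon
  apply hG
  apply hasPlus_of_contained
  refine hn₀ V hV G (fun _ => u) (cq G (G.neighborSet u) (Fin (q + 1))) ?_ ?_ ?_ ?_ ?_
  · intro a b ha hb _
    have ha' : a = (0, 0) := by
      by_contra h
      simp [h] at ha
    have hb' : b = (0, 0) := by
      by_contra h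
      simp [h] at hb
    rw [ha', hb']
  · intro a b hab ha hb
    have ha' : a = (0, 0) := by
      by_contra h
      simp [h] at ha
    have hb' : b = (0, 0) := by
      by_contra h
      simp [h] at hb
    rw [ha', hb'] at hab
    exact absurd hab ((plusG q t).loopless.irrefl _)
  · intro a b i _ _ _ Q hQ
    exact hQ.1 i
  · intro a b i j hab ha hb Q hQ
    have ha' : a ≠ (0, 0) := by
      rintro rfl
      simp at ha
    have hb' : b ≠ (0, 0) := by
      rintro rfl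
      simp at hb
    simp only [ha', hb', if_false, Option.some.injEq] at ha hb
    apply hQ.2
    rw [← ha, ← hb]
    rcases hab with h | ⟨h1, h2, ⟨h3, h4⟩ | ⟨h3, h4⟩⟩
    · exact h
    · exact absurd (Prod.ext h1 h3) ha'
    · exact absurd (Prod.ext h2 h4) hb'
  · rw [Nat.card_fin]
    exact hcon.le

/-- the number of the `K_(q+2)` from the numbers of the `K_(q+1)` in the neighbourhoods -/
theorem few_all' [Finite V] (G : SimpleGraph V) {q : ℕ} {γ : ℝ} (hγ : 0 ≤ γ)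
    (h : ∀ u, (nq G (G.neighborSet u) (q + 1) : ℝ) ≤ γ * (Nat.card V : ℝ) ^ (q + 1)) :
    ((cq G Set.univ (Fin (q + 2))).ncard : ℝ) ≤ γ * (Nat.card V : ℝ) ^ (q + 2) := by
  have h1 := cq_E1 G Set.univ Set.univ (q := q + 1) (d := γ * (Nat.card V : ℝ) ^ (q + 1)) (by positivity)
    (fun y _ => by rw [Set.inter_univ]; exact h y) 0
  have h2 : {f : Fin (q + 1 + 1) → V | f ∈ cq G Set.univ (Fin (q + 1 + 1)) ∧ f 0 ∈ (Set.univ : Set V) ∧
      ∀ i, i ≠ 0 → f i ∈ (Set.univ : Set V)} = cq G Set.univ (Fin (q + 2)) := by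
    ext f
    exact ⟨fun hf => hf.1, fun hf => ⟨hf, Set.mem_univ _, fun _ _ => Set.mem_univ _⟩⟩
  rw [h2] at h1
  refine h1.trans (le_of_eq ?_)
  rw [pow_succ (Nat.card V : ℝ) (q + 1)]
  ring

/-! ### The macroscopic hypotheses -/

/-- a graph with few `K_k` in which all `dg` are large -/
structure Mac (q : ℕ) (H : SimpleGraph α) (G : SimpleGraph V) (τ ε : ℝ) : Prop where
  few : ((cq G Set.univ (Fin (q + 2))).ncard : ℝ) ≤ τ * (Nat.card V : ℝ) ^ (q + 2)
  few1 : ∀ x, ((cq G (G.neighborSet x) (Fin (q + 1))).ncard : ℝ) ≤ τ * (Nat.card V : ℝ) ^ (q + 1)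
  inj : (piK q H - τ) * (Nat.card V : ℝ) ^ Nat.card α ≤ WT7.inj H G
  deg : ∀ x, (piK q H * Nat.card α - ε) * (Nat.card V : ℝ) ^ (Nat.card α - 1) ≤ (dg H G x : ℝ)

theorem Mac.mono {q : ℕ} {H : SimpleGraph α} {G : SimpleGraph V} {τ ε τ' ε' : ℝ} (h : Mac q H G τ ε) (hτ : τ ≤ τ')
    (hε : ε ≤ ε') : Mac q H G τ' ε' := by
  have h1 : ∀ m : ℕ, (0 : ℝ) ≤ (Nat.card V : ℝ) ^ m := fun m => by positivity
  refine ⟨h.few.trans (mul_le_mul_of_nonneg_right hτ (h1 _)), fun x => (h.few1 x).trans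
    (mul_le_mul_of_nonneg_right hτ (h1 _)), le_trans (mul_le_mul_of_nonneg_right (by linarith) (h1 _)) h.inj,
    fun x => le_trans (mul_le_mul_of_nonneg_right (by linarith) (h1 _)) (h.deg x)⟩

theorem ts_deg [Finite α] [Nonempty α] (q : ℕ) (H : SimpleGraph α) {ε : ℝ} (hε : 0 < ε) :
    ∃ n₀ : ℕ, ∀ (V : Type) [Finite V], n₀ ≤ Nat.card V → ∀ (G : SimpleGraph V) (t : ℕ), TS q t H G →
      ∀ x, (piK q H * Nat.card α - ε) * (Nat.card V : ℝ) ^ (Nat.card α - 1) ≤ (dg H G x : ℝ) := by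
  obtain ⟨n₃, h3⟩ := growthK H q hε
  refine ⟨n₃ + 1, fun V _ hV G t hG x => ?_⟩
  have h4 := h3 (Nat.card V - 1) (by omega)
  have h5 : Nat.card V - 1 + 1 = Nat.card V := by omega
  have h6 : ((Nat.card V - 1 : ℕ) : ℝ) + 1 = Nat.card V := by
    rw [← Nat.cast_succ]
    exact_mod_cast h5
  rw [h5, h6] at h4
  have h7 : (bF H (⊤ : SimpleGraph (Fin (q + 2))) (Nat.card V) : ℝ) ≤
      bF H (⊤ : SimpleGraph (Fin (q + 2))) (Nat.card V - 1) + dg H G x := by exact_mod_cast hG.deg x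
  linarith

theorem ts_mac [Finite α] [Nonempty α] (q t : ℕ) (H : SimpleGraph α) {τ ε : ℝ} (hτ : 0 < τ) (hε : 0 < ε) :
    ∃ n₀ : ℕ, ∀ (V : Type) [Finite V], n₀ ≤ Nat.card V → ∀ G : SimpleGraph V, TS q t H G → Mac q H G τ ε := by
  obtain ⟨n₁, h1⟩ := fewk q t hτ
  obtain ⟨n₂, h2⟩ := lowerK H q hτ
  obtain ⟨n₃, h3⟩ := ts_deg q H hε
  refine ⟨n₁ + n₂ + n₃, fun V _ hV G hG => ?_⟩
  have hf := h1 V (by omega) G hG.noplus
  refine ⟨few_all' G hτ.le hf, hf, ?_, fun x => h3 V (by omega) G t hG x⟩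
  refine (h2 (Nat.card V) (by omega)).trans ?_
  exact_mod_cast hG.inj

/-- the minimum degree -/
theorem deg_of_dg [Finite α] [Nonempty α] [Finite V] {q : ℕ} {H : SimpleGraph α} (hI : NoIso H) (hπ : 0 < piK q H)
    (G : SimpleGraph V) {ε : ℝ} (hε : ε ≤ piK q H) (x : V)
    (hx : (piK q H * Nat.card α - ε) * (Nat.card V : ℝ) ^ (Nat.card α - 1) ≤ (dg H G x : ℝ)) :
    piK q H / 2 * (Nat.card V : ℝ) ≤ ((G.neighborSet x).ncard : ℝ) := by
  have h2 := two_le_card hI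
  have : Nonempty V := ⟨x⟩
  have hn : (0 : ℝ) < (Nat.card V : ℝ) := by exact_mod_cast Nat.card_pos
  have h3 : (dg H G x : ℝ) ≤ Nat.card α * (((G.neighborSet x).ncard : ℝ) * (Nat.card V : ℝ) ^ (Nat.card α - 2)) := by
    exact_mod_cast dg_le hI G x
  have h4 : (Nat.card V : ℝ) ^ (Nat.card α - 1) = (Nat.card V : ℝ) ^ (Nat.card α - 2) * (Nat.card V : ℝ) := by
    rw [← pow_succ]
    congr 1
    omega
  rw [h4] at hx
  have hh : (2 : ℝ) ≤ Nat.card α := by exact_mod_cast h2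
  have hp : (0 : ℝ) < (Nat.card V : ℝ) ^ (Nat.card α - 2) := pow_pos hn _
  have h5 : piK q H / 2 * Nat.card α ≤ piK q H * Nat.card α - ε := by nlinarith
  have h6 : (piK q H / 2 * Nat.card α) * ((Nat.card V : ℝ) ^ (Nat.card α - 2) * (Nat.card V : ℝ)) ≤
      Nat.card α * (((G.neighborSet x).ncard : ℝ) * (Nat.card V : ℝ) ^ (Nat.card α - 2)) :=
    le_trans (le_trans (mul_le_mul_of_nonneg_right h5 (by positivity)) hx) h3
  have h7 : (Nat.card α : ℝ) * (Nat.card V : ℝ) ^ (Nat.card α - 2) * (piK q H / 2 * (Nat.card V : ℝ)) ≤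
      (Nat.card α : ℝ) * (Nat.card V : ℝ) ^ (Nat.card α - 2) * ((G.neighborSet x).ncard : ℝ) := by
    calc _ = (piK q H / 2 * Nat.card α) * ((Nat.card V : ℝ) ^ (Nat.card α - 2) * (Nat.card V : ℝ)) := by ring
      _ ≤ _ := h6
      _ = _ := by ring
  exact le_of_mul_le_mul_left h7 (by positivity)

theorem piK_pos2 [Finite α] [Nonempty α] {q : ℕ} (hq : 1 ≤ q) {H : SimpleGraph α} (hH : H.Colorable 2) :
    0 < piK q H := by
  apply piK_pos
  exact SimpleGraph.Colorable.cliqueFree (hH.mono (by omega : 2 ≤ q + 1)) (by omega)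

/-- (DEGS) -/
theorem degs [Finite α] [Nonempty α] {q : ℕ} (hq : 1 ≤ q) {H : SimpleGraph α} (hH : H.Colorable 2) (hI : NoIso H) :
    ∃ c₀ : ℝ, 0 < c₀ ∧ ∃ n₀ : ℕ, ∀ (V : Type) [Finite V], n₀ ≤ Nat.card V → ∀ (G : SimpleGraph V) (t : ℕ), TS q t H G →
      ∀ x, c₀ * (Nat.card V : ℝ) ≤ ((G.neighborSet x).ncard : ℝ) := by
  have hπ := piK_pos2 hq hH
  obtain ⟨n₀, h⟩ := ts_deg q H hπ
  exact ⟨piK q H / 2, by positivity, n₀, fun V _ hV G t hG x => deg_of_dg hI hπ G le_rfl x (h V hV G t hG x)⟩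

/-- the contradiction -/
theorem Mac.contra [Finite α] [Nonempty α] {q : ℕ} {H : SimpleGraph α} (hI : NoIso H) [Finite V] {G : SimpleGraph V}
    {τ ε c : ℝ} (h : Mac q H G τ ε) (u : V) (I : Set V) (hd : Disjoint (G.neighborSet u) I) (hc : 0 < c)
    (hεc : ε ≤ c / 4) (hDI : c * (Nat.card V : ℝ) ^ (Nat.card α - 1) ≤ D H G I)
    (hst : (D H G (G.neighborSet u ∪ I) : ℝ) ≤
      (piK q H * Nat.card α + c / 2) * (Nat.card V : ℝ) ^ (Nat.card α - 1)) : False := by
  have : Nonempty V := ⟨u⟩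
  have hn : (0 : ℝ) < (Nat.card V : ℝ) := by exact_mod_cast Nat.card_pos
  have hp : (0 : ℝ) < (Nat.card V : ℝ) ^ (Nat.card α - 1) := pow_pos hn _
  have h1 : (D H G (G.neighborSet u) : ℝ) + D H G I ≤ D H G (G.neighborSet u ∪ I) := by
    exact_mod_cast D_add_le hI G hd
  have h2 : (dg H G u : ℝ) ≤ D H G (G.neighborSet u) := by exact_mod_cast dg_le_D H G u
  have h3 := h.deg u
  nlinarith

/-! ### PropP -/

/-- the number of adjacent pairs in a set most of whose vertices have few neighbours in it -/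
theorem pe_le_of_few [Finite V] (G : SimpleGraph V) (Z Y : Set V) {d : ℝ} (hd : 0 ≤ d)
    (hZ : ∀ y ∈ Z, y ∉ Y → ((G.neighborSet y ∩ Z).ncard : ℝ) ≤ d) :
    (pe G Z Z : ℝ) ≤ Y.ncard * Nat.card V + Nat.card V * d := by
  classical
  have := Fintype.ofFinite V
  have h1 : pe G Z Z = ∑ y : V, (if y ∈ Z then (G.neighborSet y ∩ Z).ncard else 0) := by
    unfold pe
    rw [Set.ncard_eq_toFinset_card', Finset.card_eq_sum_card_fiberwise (f := Prod.fst) (t := (Finset.univ : Finset V))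
      (fun x _ => Finset.mem_coe.2 (Finset.mem_univ _))]
    refine Finset.sum_congr rfl fun y _ => ?_
    by_cases hy : y ∈ Z
    · rw [if_pos hy, Set.ncard_eq_toFinset_card']
      refine Finset.card_bij' (fun p _ => p.2) (fun z _ => (y, z)) ?_ ?_ ?_ ?_
      · intro p hp
        simp only [Finset.mem_filter, Set.mem_toFinset, Set.mem_ofPred_eq] at hp
        rw [Set.mem_toFinset]
        refine ⟨?_, hp.1.2.1⟩
        rw [SimpleGraph.mem_neighborSet, ← hp.2]
        exact hp.1.2.2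
      · intro z hz
        rw [Set.mem_toFinset] at hz
        simp only [Finset.mem_filter, Set.mem_toFinset, Set.mem_ofPred_eq]
        exact ⟨⟨hy, hz.2, hz.1⟩, trivial⟩
      · intro p hp
        simp only [Finset.mem_filter, Set.mem_toFinset, Set.mem_ofPred_eq] at hp
        exact Prod.ext hp.2.symm rfl
      · intro z _
        rfl
    · rw [if_neg hy, Finset.card_eq_zero, Finset.filter_eq_empty_iff]
      intro p hp hpy
      rw [Set.mem_toFinset] at hp
      exact hy (hpy ▸ hp.1)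
  have h2 : ∀ y : V, ((if y ∈ Z then (G.neighborSet y ∩ Z).ncard else 0 : ℕ) : ℝ) ≤
      (if y ∈ Y then (Nat.card V : ℝ) else 0) + d := by
    intro y
    by_cases hy : y ∈ Z
    · rw [if_pos hy]
      by_cases hyY : y ∈ Y
      · rw [if_pos hyY]
        have h3 : ((G.neighborSet y ∩ Z).ncard : ℝ) ≤ Nat.card V := by
          rw [← Set.ncard_univ]
          exact_mod_cast Set.ncard_le_ncard (Set.subset_univ _) (Set.toFinite _)
        linarith
      · rw [if_neg hyY, zero_add]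
        exact hZ y hy hyY
    · rw [if_neg hy, Nat.cast_zero]
      have : (0 : ℝ) ≤ (if y ∈ Y then (Nat.card V : ℝ) else 0) := by
        split_ifs <;> positivity
      linarith
  rw [h1]
  push_cast
  have h3 := Finset.sum_le_sum fun y (_ : y ∈ (Finset.univ : Finset V)) => h2 y
  push_cast at h3
  refine h3.trans (le_of_eq ?_)
  rw [Finset.sum_add_distrib, Finset.sum_ite, Finset.sum_const_zero, add_zero, Finset.sum_const, Finset.sum_const,
    nsmul_eq_mul, nsmul_eq_mul, Finset.card_univ, ← Nat.card_eq_fintype_card]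
  congr 2
  rw [Set.ncard_eq_toFinset_card']
  congr 1
  congr 1
  ext y
  simp

/-- a large set of exceptions contains many cliques of all sizes -/
theorem level [Finite α] [Nonempty α] {q : ℕ} (hq : 1 ≤ q) {H : SimpleGraph α} (hH : H.Colorable 2) (hI : NoIso H)
    (j : ℕ) : ∀ {ρ : ℝ}, 0 < ρ → ∃ ε δ τ c : ℝ, 0 < ε ∧ ε ≤ piK q H ∧ 0 < δ ∧ 0 < τ ∧ 0 < c ∧ ∃ n₀ : ℕ,
      ∀ (V : Type) [Finite V], n₀ ≤ Nat.card V → ∀ G : SimpleGraph V, Mac q H G τ ε → ∀ u, ∀ Z : Set V,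
        (∀ y ∈ Z, y ∉ G.neighborSet u ∧ ((cq G (G.neighborSet y ∩ G.neighborSet u) (Fin q)).ncard : ℝ) ≤
          δ * (Nat.card V : ℝ) ^ q) → ρ * Nat.card V ≤ (Z.ncard : ℝ) →
        c * (Nat.card V : ℝ) ^ (j + 1) ≤ ((cq G Z (Fin (j + 1))).ncard : ℝ) := by
  have hπ := piK_pos2 hq hH
  induction j with
  | zero =>
    intro ρ hρ
    refine ⟨piK q H, 1, 1, ρ, hπ, le_rfl, one_pos, one_pos, hρ, 0, fun V _ _ G _ u Z _ hZ => ?_⟩
    have h1 := cq_cons G Z Z (Set.Subset.refl _) 0 (c := 1) (fun y _ => by rw [cq_zero]; simp)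
    rw [mul_one] at h1
    rw [zero_add, pow_one]
    exact hZ.trans h1
  | succ j ih =>
    intro ρ hρ
    have hc0 : 0 < piK q H / 2 := by linarith
    obtain ⟨c₁, hc₁, n₁, hlow⟩ := D_lower hH hI hρ hc0
    obtain ⟨τ₁, hτ₁, n₂, hstar⟩ := starK H q (ε := c₁ / 2) (by linarith)
    have hq1 : (0 : ℝ) < (q : ℝ) + 1 := by positivity
    set ρ' : ℝ := τ₁ / (6 * ((q + 1) * (q + 1))) with hρ'def
    have hρ' : 0 < ρ' := by positivity
    obtain ⟨ε', δ', τ', c', hε', hε'2, hδ', hτ', hc', n₃, hlev⟩ := ih hρ'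
    refine ⟨min ε' (c₁ / 4), min δ' (τ₁ / (3 * (q + 1))), min τ' (τ₁ / 3), ρ' * c', lt_min hε' (by positivity),
      (min_le_left _ _).trans hε'2, lt_min hδ' (by positivity), lt_min hτ' (by positivity), by positivity,
      n₁ + n₂ + n₃, fun V _ hV G hG u Z hZ hZc => ?_⟩
    have hNq : ∀ m : ℕ, (0 : ℝ) ≤ (Nat.card V : ℝ) ^ m := fun m => by positivity
    have hdeg : ∀ x, piK q H / 2 * (Nat.card V : ℝ) ≤ ((G.neighborSet x).ncard : ℝ) := fun x =>
      deg_of_dg hI hπ G ((min_le_left _ _).trans hε'2) x (hG.deg x)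
    obtain ⟨Y, hYdef⟩ : ∃ Y : Set V, Y = {y | y ∈ Z ∧ ρ' * Nat.card V ≤ ((G.neighborSet y ∩ Z).ncard : ℝ)} := ⟨_, rfl⟩
    have hYZ : Y ⊆ Z := by
      rw [hYdef]
      exact fun y hy => hy.1
    by_cases hY : ρ' * Nat.card V ≤ (Y.ncard : ℝ)
    · -- many vertices with many neighbours
      have h1 := cq_cons G Z Y hYZ (j + 1) (c := c' * (Nat.card V : ℝ) ^ (j + 1)) (fun y hy => by
        rw [hYdef] at hy
        refine hlev V (by omega) G (hG.mono (min_le_left _ _) (min_le_left _ _)) u _ (fun z hz => ?_) hy.2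
        obtain ⟨a1, a2⟩ := hZ z hz.2
        exact ⟨a1, a2.trans (mul_le_mul_of_nonneg_right (min_le_left _ _) (hNq _))⟩)
      refine le_trans ?_ h1
      calc ρ' * c' * (Nat.card V : ℝ) ^ (j + 1 + 1) = ρ' * Nat.card V * (c' * (Nat.card V : ℝ) ^ (j + 1)) := by
            rw [pow_succ (Nat.card V : ℝ) (j + 1)]
            ring
        _ ≤ _ := mul_le_mul_of_nonneg_right hY (mul_nonneg hc'.le (hNq _))
    · -- few edges
      exfalso
      push Not at hY
      have h1 := pe_le_of_few G Z Y (d := ρ' * Nat.card V) (by positivity) (fun y hy hyY => by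
        rw [hYdef] at hyY
        by_contra hcon
        push Not at hcon
        exact hyY ⟨hy, hcon.le⟩)
      have h2 : (pe G Z Z : ℝ) ≤ 2 * ρ' * (Nat.card V : ℝ) ^ 2 := by
        have h3 : (Y.ncard : ℝ) * Nat.card V ≤ ρ' * Nat.card V * Nat.card V :=
          mul_le_mul_of_nonneg_right hY.le (Nat.cast_nonneg _)
        calc (pe G Z Z : ℝ) ≤ _ := h1
          _ ≤ ρ' * Nat.card V * Nat.card V + Nat.card V * (ρ' * Nat.card V) := by linarith
          _ = _ := by ring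
      have h3 := cq_union G (G.neighborSet u) Z (q := q) (d := min δ' (τ₁ / (3 * (q + 1))) * (Nat.card V : ℝ) ^ q)
        (by positivity) (fun y hy => (hZ y hy).2)
      have h4 : ((cq G (G.neighborSet u ∪ Z) (Fin (q + 1))).ncard : ℝ) ≤ τ₁ * (Nat.card V : ℝ) ^ (q + 1) := by
        have e1 : ((cq G (G.neighborSet u) (Fin (q + 1))).ncard : ℝ) ≤ τ₁ / 3 * (Nat.card V : ℝ) ^ (q + 1) :=
          (hG.few1 u).trans (mul_le_mul_of_nonneg_right (min_le_right _ _) (hNq _))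
        have e2 : ((q : ℝ) + 1) * (Nat.card V * (min δ' (τ₁ / (3 * (q + 1))) * (Nat.card V : ℝ) ^ q)) ≤
            τ₁ / 3 * (Nat.card V : ℝ) ^ (q + 1) := by
          calc ((q : ℝ) + 1) * (Nat.card V * (min δ' (τ₁ / (3 * (q + 1))) * (Nat.card V : ℝ) ^ q)) ≤
              ((q : ℝ) + 1) * (Nat.card V * (τ₁ / (3 * (q + 1)) * (Nat.card V : ℝ) ^ q)) := by
                apply mul_le_mul_of_nonneg_left _ hq1.le
                apply mul_le_mul_of_nonneg_left _ (Nat.cast_nonneg _)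
                exact mul_le_mul_of_nonneg_right (min_le_right _ _) (hNq _)
            _ = _ := by
                rw [pow_succ]
                field_simp
        have e3 : ((q : ℝ) + 1) * ((q + 1) * (pe G Z Z * (Nat.card V : ℝ) ^ (q - 1))) ≤
            τ₁ / 3 * (Nat.card V : ℝ) ^ (q + 1) := by
          have e4 : (Nat.card V : ℝ) ^ (q + 1) = (Nat.card V : ℝ) ^ 2 * (Nat.card V : ℝ) ^ (q - 1) := by
            rw [← pow_add]
            congr 1
            omega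
          calc ((q : ℝ) + 1) * ((q + 1) * (pe G Z Z * (Nat.card V : ℝ) ^ (q - 1))) ≤
              ((q : ℝ) + 1) * ((q + 1) * (2 * ρ' * (Nat.card V : ℝ) ^ 2 * (Nat.card V : ℝ) ^ (q - 1))) := by
                apply mul_le_mul_of_nonneg_left _ hq1.le
                apply mul_le_mul_of_nonneg_left _ hq1.le
                exact mul_le_mul_of_nonneg_right h2 (hNq _)
            _ = _ := by
                rw [e4, hρ'def]
                field_simp
                ring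
        have e5 : τ₁ * (Nat.card V : ℝ) ^ (q + 1) = τ₁ / 3 * (Nat.card V : ℝ) ^ (q + 1) +
            τ₁ / 3 * (Nat.card V : ℝ) ^ (q + 1) + τ₁ / 3 * (Nat.card V : ℝ) ^ (q + 1) := by ring
        linarith
      have hτ2 : min τ' (τ₁ / 3) ≤ τ₁ := (min_le_right _ _).trans (by linarith)
      refine hG.contra hI u Z ?_ hc₁ (min_le_right _ _) (hlow V (by omega) G Z hdeg hZc)
        (hstar V (by omega) G _ (hG.few.trans (mul_le_mul_of_nonneg_right hτ2 (hNq _))) h4
          (le_trans (mul_le_mul_of_nonneg_right (by linarith) (hNq _)) hG.inj))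
      rw [Set.disjoint_left]
      intro y hy hyZ
      exact (hZ y hyZ).1 hy

/-- **PropP**, macroscopic form -/
theorem propM [Finite α] [Nonempty α] {q : ℕ} (hq : 1 ≤ q) {H : SimpleGraph α} (hH : H.Colorable 2) (hI : NoIso H)
    {ρ : ℝ} (hρ : 0 < ρ) : ∃ ε δ τ : ℝ, 0 < ε ∧ ε ≤ piK q H ∧ 0 < δ ∧ 0 < τ ∧ ∃ n₀ : ℕ,
      ∀ (V : Type) [Finite V], n₀ ≤ Nat.card V → ∀ G : SimpleGraph V, Mac q H G τ ε →
        ∀ u, ((ZK G q u δ).ncard : ℝ) ≤ ρ * Nat.card V := by
  obtain ⟨ε, δ, τ, c, hε, hε2, hδ, hτ, hc, n₀, h⟩ := level hq hH hI (q + 1) hρ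
  refine ⟨ε, δ, min τ (c / 2), hε, hε2, hδ, lt_min hτ (by positivity), n₀ + 1, fun V _ hV G hG u => ?_⟩
  by_contra hcon
  push Not at hcon
  have : Nonempty V := ⟨u⟩
  have hn : (0 : ℝ) < (Nat.card V : ℝ) := by exact_mod_cast Nat.card_pos
  have h1 := h V (by omega) G (hG.mono (min_le_left _ _) le_rfl) u (ZK G q u δ) (fun y hy => ⟨hy.1, hy.2.le⟩) hcon.le
  have h2 : ((cq G (ZK G q u δ) (Fin (q + 1 + 1))).ncard : ℝ) ≤ (cq G Set.univ (Fin (q + 2))).ncard := by
    exact_mod_cast cq_mono G (Set.subset_univ _) (q + 2)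
  have h3 : min τ (c / 2) * (Nat.card V : ℝ) ^ (q + 2) ≤ c / 2 * (Nat.card V : ℝ) ^ (q + 2) :=
    mul_le_mul_of_nonneg_right (min_le_right _ _) (by positivity)
  have h4 : (0 : ℝ) < c * (Nat.card V : ℝ) ^ (q + 2) := by positivity
  have h5 := hG.few
  have h6 : c * (Nat.card V : ℝ) ^ (q + 1 + 1) = c * (Nat.card V : ℝ) ^ (q + 2) := rfl
  linarith

/-- (PROPP) -/
theorem propPK [Finite α] [Nonempty α] {q t : ℕ} (hq : 1 ≤ q) {H : SimpleGraph α} (hH : H.Colorable 2) (hI : NoIso H)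
    {ρ : ℝ} (hρ : 0 < ρ) : ∃ δ : ℝ, 0 < δ ∧ ∃ n₀ : ℕ, ∀ (V : Type) [Finite V], n₀ ≤ Nat.card V → ∀ G : SimpleGraph V,
      TS q t H G → ∀ u, ((ZK G q u δ).ncard : ℝ) ≤ ρ * Nat.card V := by
  obtain ⟨ε, δ, τ, hε, -, hδ, hτ, n₀, h⟩ := propM hq hH hI hρ
  obtain ⟨n₁, h1⟩ := ts_mac q t H hτ hε
  exact ⟨δ, hδ, n₀ + n₁, fun V _ hV G hG u => h V (by omega) G (h1 V (by omega) G hG) u⟩

/-! ### No vertex is adjacent to almost all vertices -/

/-- many cliques if all degrees are almost `n` -/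
theorem cq_dense [Finite V] (G : SimpleGraph V) {ρ : ℝ} (h : ∀ v, (((G.neighborSet v)ᶜ).ncard : ℝ) ≤ ρ * Nat.card V)
    (hρ : 0 ≤ ρ) (j : ℕ) : ∀ Z : Set V, (j * ρ + 1 / 2) * (Nat.card V : ℝ) ≤ Z.ncard →
      ((Nat.card V : ℝ) / 2) ^ j ≤ ((cq G Z (Fin j)).ncard : ℝ) := by
  induction j with
  | zero =>
    intro Z _
    rw [cq_zero]
    simp
  | succ j ih =>
    intro Z hZ
    have h1 := cq_cons G Z Z (Set.Subset.refl _) j (c := ((Nat.card V : ℝ) / 2) ^ j) (fun y _ => by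
      apply ih
      have h2 : Z.ncard ≤ (G.neighborSet y ∩ Z).ncard + ((G.neighborSet y)ᶜ).ncard := by
        refine le_trans (Set.ncard_le_ncard ?_ (Set.toFinite _)) (Set.ncard_union_le _ _)
        intro z hz
        by_cases hzy : z ∈ G.neighborSet y
        · exact Or.inl ⟨hzy, hz⟩
        · exact Or.inr hzy
      have h3 : (Z.ncard : ℝ) ≤ (G.neighborSet y ∩ Z).ncard + ((G.neighborSet y)ᶜ).ncard := by exact_mod_cast h2
      have h4 := h y
      push_cast at hZ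
      have h5 : ((j : ℝ) + 1) * ρ + 1 / 2 = (j * ρ + 1 / 2) + ρ := by ring
      rw [h5, add_mul] at hZ
      linarith)
    refine le_trans ?_ h1
    rw [pow_succ, mul_comm]
    apply mul_le_mul_of_nonneg_right _ (by positivity)
    have h2 : (0 : ℝ) ≤ ((j + 1 : ℕ) : ℝ) * ρ * Nat.card V := by positivity
    have h3 : (((j + 1 : ℕ) : ℝ) * ρ + 1 / 2) * (Nat.card V : ℝ) =
        ((j + 1 : ℕ) : ℝ) * ρ * Nat.card V + (Nat.card V : ℝ) / 2 := by ring
    linarith

/-- (CON), macroscopic form -/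
theorem conM [Finite α] [Nonempty α] {q : ℕ} (hq : 1 ≤ q) {H : SimpleGraph α} (hH : H.Colorable 2) (hI : NoIso H) :
    ∃ ρ ε τ : ℝ, 0 < ρ ∧ 0 < ε ∧ ε ≤ piK q H ∧ 0 < τ ∧ ∃ n₀ : ℕ,
      ∀ (V : Type) [Finite V], n₀ ≤ Nat.card V → ∀ G : SimpleGraph V, Mac q H G τ ε →
        ∀ y, ρ * Nat.card V < (((G.neighborSet y)ᶜ).ncard : ℝ) := by
  have hπ := piK_pos2 hq hH
  have hc0 : 0 < piK q H / 2 := by linarith
  set ρ₀ : ℝ := 1 / (2 * (q + 2)) with hρ₀def
  have hρ₀ : 0 < ρ₀ := by positivity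
  obtain ⟨c₁, hc₁, n₁, hlow⟩ := D_lower hH hI hρ₀ hc0
  obtain ⟨τ₁, hτ₁, n₂, hstar⟩ := starK H q (ε := c₁ / 2) (by linarith)
  have hq1 : (0 : ℝ) < (q : ℝ) + 1 := by positivity
  refine ⟨τ₁ / (2 * (q + 1)), min (piK q H) (c₁ / 4), min (τ₁ / 2) ((1 / 2) ^ (q + 3)), by positivity,
    lt_min hπ (by positivity), min_le_left _ _, lt_min (by positivity) (by positivity), n₁ + n₂ + 1,
    fun V _ hV G hG y => ?_⟩
  by_contra hcon
  push Not at hcon
  have hNq : ∀ m : ℕ, (0 : ℝ) ≤ (Nat.card V : ℝ) ^ m := fun m => by positivity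
  have : Nonempty V := ⟨y⟩
  have hn : (0 : ℝ) < (Nat.card V : ℝ) := by exact_mod_cast Nat.card_pos
  have hdeg : ∀ x, piK q H / 2 * (Nat.card V : ℝ) ≤ ((G.neighborSet x).ncard : ℝ) := fun x =>
    deg_of_dg hI hπ G (min_le_left _ _) x (hG.deg x)
  -- few `(q+1)`-cliques
  have h1 : ((cq G Set.univ (Fin (q + 1))).ncard : ℝ) ≤ τ₁ * (Nat.card V : ℝ) ^ (q + 1) := by
    have e1 : (cq G Set.univ (Fin (q + 1))).ncard ≤ (cq G (G.neighborSet y) (Fin (q + 1))).ncard +
        ({f : Fin (q + 1) → V | ∃ v, f v ∈ (G.neighborSet y)ᶜ}).ncard := by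
      refine le_trans (Set.ncard_le_ncard ?_ (Set.toFinite _)) (Set.ncard_union_le _ _)
      intro f hf
      by_cases h : ∃ v, f v ∈ (G.neighborSet y)ᶜ
      · exact Or.inr h
      · left
        push Not at h
        exact ⟨fun i => not_not.1 (h i), hf.2⟩
    have e2 := ncard_hit_le (κ := Fin (q + 1)) ((G.neighborSet y)ᶜ)
    rw [Nat.card_fin, Nat.add_sub_cancel] at e2
    have e3 : ((cq G Set.univ (Fin (q + 1))).ncard : ℝ) ≤ (cq G (G.neighborSet y) (Fin (q + 1))).ncard +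
        (q + 1) * (((G.neighborSet y)ᶜ).ncard * (Nat.card V : ℝ) ^ q) := by exact_mod_cast e1.trans (Nat.add_le_add_left e2 _)
    have e4 : ((cq G (G.neighborSet y) (Fin (q + 1))).ncard : ℝ) ≤ τ₁ / 2 * (Nat.card V : ℝ) ^ (q + 1) :=
      (hG.few1 y).trans (mul_le_mul_of_nonneg_right (min_le_left _ _) (hNq _))
    have e5 : ((q : ℝ) + 1) * (((G.neighborSet y)ᶜ).ncard * (Nat.card V : ℝ) ^ q) ≤
        τ₁ / 2 * (Nat.card V : ℝ) ^ (q + 1) := by
      calc ((q : ℝ) + 1) * (((G.neighborSet y)ᶜ).ncard * (Nat.card V : ℝ) ^ q) ≤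
          ((q : ℝ) + 1) * (τ₁ / (2 * (q + 1)) * Nat.card V * (Nat.card V : ℝ) ^ q) := by
            apply mul_le_mul_of_nonneg_left _ hq1.le
            exact mul_le_mul_of_nonneg_right hcon (hNq _)
        _ = _ := by
            rw [pow_succ]
            field_simp
    have e6 : τ₁ * (Nat.card V : ℝ) ^ (q + 1) = τ₁ / 2 * (Nat.card V : ℝ) ^ (q + 1) +
        τ₁ / 2 * (Nat.card V : ℝ) ^ (q + 1) := by ring
    linarith
  have hτ2 : min (τ₁ / 2) ((1 / 2 : ℝ) ^ (q + 3)) ≤ τ₁ := (min_le_left _ _).trans (by linarith)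
  have h2 := hstar V (by omega) G Set.univ (hG.few.trans (mul_le_mul_of_nonneg_right hτ2 (hNq _))) h1
    (le_trans (mul_le_mul_of_nonneg_right (by linarith) (hNq _)) hG.inj)
  -- all complements are small
  have h3 : ∀ v, (((G.neighborSet v)ᶜ).ncard : ℝ) ≤ ρ₀ * Nat.card V := by
    intro v
    by_contra hcon2
    push Not at hcon2
    refine hG.contra hI v ((G.neighborSet v)ᶜ) disjoint_compl_right hc₁ (min_le_right _ _)
      (hlow V (by omega) G _ hdeg hcon2.le) ?_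
    rw [Set.union_compl_self]
    exact h2
  have h4 := cq_dense G h3 hρ₀.le (q + 2) Set.univ (by
    rw [Set.ncard_univ]
    have e1 : (((q + 2 : ℕ) : ℝ) * ρ₀ + 1 / 2) = 1 := by
      rw [hρ₀def]
      push_cast
      field_simp
      norm_num
    rw [e1, one_mul])
  have h5 : min (τ₁ / 2) ((1 / 2 : ℝ) ^ (q + 3)) * (Nat.card V : ℝ) ^ (q + 2) ≤
      (1 / 2 : ℝ) ^ (q + 3) * (Nat.card V : ℝ) ^ (q + 2) := mul_le_mul_of_nonneg_right (min_le_right _ _) (hNq _)
  have h6 : ((Nat.card V : ℝ) / 2) ^ (q + 2) = 2 * ((1 / 2 : ℝ) ^ (q + 3) * (Nat.card V : ℝ) ^ (q + 2)) := by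
    rw [div_pow, pow_succ (1 / 2 : ℝ) (q + 2), div_pow, one_pow]
    ring
  have h7 : (0 : ℝ) < (1 / 2 : ℝ) ^ (q + 3) * (Nat.card V : ℝ) ^ (q + 2) := by positivity
  have h8 := hG.few
  linarith

/-- (CON) no vertex is adjacent to almost all vertices -/
theorem coN [Finite α] [Nonempty α] {q t : ℕ} (hq : 1 ≤ q) {H : SimpleGraph α} (hH : H.Colorable 2) (hI : NoIso H) :
    ∃ ρ : ℝ, 0 < ρ ∧ ∃ n₀ : ℕ, ∀ (V : Type) [Finite V], n₀ ≤ Nat.card V → ∀ G : SimpleGraph V,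
      TS q t H G → ∀ y, ρ * Nat.card V < (((G.neighborSet y)ᶜ).ncard : ℝ) := by
  obtain ⟨ρ, ε, τ, hρ, hε, -, hτ, n₀, h⟩ := conM hq hH hI
  obtain ⟨n₁, h1⟩ := ts_mac q t H hτ hε
  exact ⟨ρ, hρ, n₀ + n₁, fun V _ hV G hG y => h V (by omega) G (h1 V (by omega) G hG) y⟩

end Pool.Agent.WTG
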