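import Pool.Agent.WTE.Core
import Pool.Agent.WTK.Box

/-!
# WTG: an additive error `K n^(h-2)` for all `k` (MP_aeb998_co; helper57, helper1, helper7, helper33, helper38, helper93)

Goal. `k = q + 2 ≥ 3`, `H` bipartite, `h = |V(H)|`, `F` any `k`-chromatic graph with a colour-critical edge: `ex(n, H, F) ≤ ex(n, H, K_k) + K n^(h-2)`.
Paper proof: team store GENERALK_helper57.md.
-/

set_option autoImplicit false

namespace Pool.Agent.WTG

open Pool.Agent.WT7

variable {α β V : Type}

/-- a complete `r`-partite graph with parts of size `t` in `G` -/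
def HasBlow (G : SimpleGraph V) (r t : ℕ) : Prop :=
  ∃ f : Fin r → Fin t → V, Function.Injective (fun p : Fin r × Fin t => f p.1 p.2) ∧
    ∀ i j, i ≠ j → ∀ a b, G.Adj (f i a) (f j b)

/-- a complete `(q+1)`-partite graph with parts of size `t + 2` and an edge inside the part `0` -/
def HasPlus (G : SimpleGraph V) (q t : ℕ) : Prop :=
  ∃ f : Fin (q + 1) → Fin (t + 2) → V, Function.Injective (fun p : Fin (q + 1) × Fin (t + 2) => f p.1 p.2) ∧
    (∀ i j, i ≠ j → ∀ a b, G.Adj (f i a) (f j b)) ∧ ∃ a b, G.Adj (f 0 a) (f 0 b)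

/-- `a(n)`: maximum of `inj H G` over the `K_(q+2)`-free graphs on `n` vertices -/
noncomputable def aK (q : ℕ) (H : SimpleGraph α) (n : ℕ) : ℕ := bF H (⊤ : SimpleGraph (Fin (q + 2))) n

/-- `G'` arises from `G` by deleting a smallest set of edges which makes it `K_k`-free -/
structure MinDel (G G' : SimpleGraph V) (k : ℕ) : Prop where
  le : G' ≤ G
  cf : G'.CliqueFree k
  min : ∀ G'' ≤ G, G''.CliqueFree k → df G G' ≤ df G G''

/-- the number of the deleted edges at `v` -/
noncomputable def dD (G G' : SimpleGraph V) (v : V) : ℕ := (G.neighborSet v \ G'.neighborSet v).ncard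

/-- `x`, `y` are `κ`-near twins in `G` -/
def Nt (G : SimpleGraph V) (κ : ℝ) (x y : V) : Prop :=
  ((symmDiff (G.neighborSet x) (G.neighborSet y)).ncard : ℝ) ≤ κ * (Nat.card V : ℝ)

/-- the number of the labelled cliques with index type `ι` in `S` (the set is `WTK.cq G S ι`) -/
noncomputable def nq (G : SimpleGraph V) (S : Set V) (j : ℕ) : ℕ :=
  Set.ncard {f : Fin j → V | (∀ i, f i ∈ S) ∧ ∀ i i', i ≠ i' → G.Adj (f i) (f i')}

/-- the exceptions in PropP: not adjacent to `u` and fewer than `δ n^q` labelled `q`-cliques in the common neighbourhood -/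
def ZK (G : SimpleGraph V) (q : ℕ) (u : V) (δ : ℝ) : Set V :=
  {y | ¬ G.Adj u y ∧ (nq G (G.neighborSet y ∩ G.neighborSet u) q : ℝ) < δ * (Nat.card V : ℝ) ^ q}

/-- tight graphs: the situation of the proof -/
structure TS (q t : ℕ) (H : SimpleGraph α) (G : SimpleGraph V) : Prop where
  noplus : ¬ HasPlus G q t
  inj : aK q H (Nat.card V) ≤ WT7.inj H G
  deg : ∀ x, aK q H (Nat.card V) ≤ aK q H (Nat.card V - 1) + dg H G x

end Pool.Agent.WTG
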