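import Pool.Agent.WTG.Samp
import Pool.Agent.WTG.Defs

/-!
# [WTG-Samp2] sampling in terms of `ZK` and `nq`
-/

set_option autoImplicit false

namespace Pool.Agent.WTG

open Pool.Agent.WT7 Pool.Agent.WTK

/-- (SAMPK) sampling -/
theorem sampK (q : ℕ) (_hq : 1 ≤ q) {δ κ : ℝ} (hδ : 0 < δ) (hκ : 0 < κ) : ∃ (η : ℝ) (K n₀ : ℕ), 0 < η ∧ 0 < K ∧
    ∀ (V : Type) [Finite V], n₀ ≤ Nat.card V → ∀ G : SimpleGraph V,
      (∀ u, ((ZK G q u δ).ncard : ℝ) ≤ κ / 24 * Nat.card V) →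
      (∀ u, (nq G (G.neighborSet u) (q + 1) : ℝ) ≤ η * (Nat.card V : ℝ) ^ (q + 1)) →
      ∀ E : Set V, ∃ X ⊆ E, E.ncard ≤ K * X.ncard ∧ ∀ x ∈ X, ∀ x' ∈ X, Nt G κ x x' := by
  obtain ⟨η, hη, K, hK, h⟩ := samp q hκ hδ
  refine ⟨η, K, 0, hη, hK, ?_⟩
  intro V _ _ G hZ hfew E
  refine h V G hfew (fun u => ?_) E
  have h1 : {y | y ∉ G.neighborSet u ∧ y ∉ R G q (G.neighborSet u) δ} = ZK G q u δ := by
    ext y
    constructor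
    · rintro ⟨h1, h2⟩
      exact ⟨h1, not_le.1 h2⟩
    · rintro ⟨h1, h2⟩
      exact ⟨h1, not_le.2 h2⟩
  rw [h1]
  exact hZ u

end Pool.Agent.WTG
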