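import Pool.Agent.WTG.Two

/-!
# (THREE) the vertices with a deleted edge have few near twins
-/

set_option linter.unusedSectionVars false
namespace Pool.Agent.WTG

open Pool.Agent.WT7

variable {V : Type}

/-- a deleted edge lies in a clique without a further deleted edge -/
theorem exists_link [Finite V] {G G' : SimpleGraph V} {q : ℕ} (hmin : MinDel G G' (q + 2))
    {x y : V} (hxy : G.Adj x y) (hn : ¬ G'.Adj x y) : ∃ L : Fin q → V,
      (∀ i, G'.Adj x (L i) ∧ G'.Adj y (L i)) ∧ ∀ i j, i ≠ j → G'.Adj (L i) (L j) := by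
  classical
  have hle : G' ⊔ SimpleGraph.edge x y ≤ G := by
    refine sup_le hmin.le ?_
    intro a b hab
    rw [SimpleGraph.edge_adj] at hab
    rcases hab with ⟨⟨rfl, rfl⟩ | ⟨rfl, rfl⟩, -⟩
    · exact hxy
    · exact hxy.symm
  have hdf : df G (G' ⊔ SimpleGraph.edge x y) < df G G' := by
    refine Set.ncard_lt_ncard ?_ (Set.toFinite _)
    refine ⟨?_, ?_⟩
    · rintro p ⟨h1, h2⟩
      exact ⟨h1, fun h => h2 (Or.inl h)⟩
    · intro h
      have h1 : (x, y) ∈ {p : V × V | G.Adj p.1 p.2 ∧ ¬ G'.Adj p.1 p.2} := ⟨hxy, hn⟩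
      have h2 := (h h1).2
      apply h2
      refine Or.inr ?_
      rw [SimpleGraph.edge_adj]
      exact ⟨Or.inl ⟨rfl, rfl⟩, hxy.ne⟩
  have hncf : ¬ (G' ⊔ SimpleGraph.edge x y).CliqueFree (q + 2) := by
    intro h
    have := hmin.min _ hle h
    omega
  unfold SimpleGraph.CliqueFree at hncf
  push Not at hncf
  obtain ⟨A, hA⟩ := hncf
  rw [SimpleGraph.isNClique_iff] at hA
  obtain ⟨hA1, hA2⟩ := hA
  have hed : ∀ a ∈ A, ∀ b ∈ A, a ≠ b → ¬ (a = x ∧ b = y) → ¬ (a = y ∧ b = x) → G'.Adj a b := by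
    intro a ha b hb hab h1 h2
    rcases hA1 ha hb hab with h3 | h3
    · exact h3
    · rw [SimpleGraph.edge_adj] at h3
      rcases h3.1 with h4 | h4
      · exact absurd h4 h1
      · exact absurd h4 h2
  have hx : x ∈ A := by
    by_contra hx
    refine hmin.cf A ?_
    rw [SimpleGraph.isNClique_iff]
    refine ⟨fun a ha b hb hab => hed a ha b hb hab ?_ ?_, hA2⟩
    · rintro ⟨rfl, -⟩; exact hx ha
    · rintro ⟨-, rfl⟩; exact hx hb
  have hy : y ∈ A := by
    by_contra hy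
    refine hmin.cf A ?_
    rw [SimpleGraph.isNClique_iff]
    refine ⟨fun a ha b hb hab => hed a ha b hb hab ?_ ?_, hA2⟩
    · rintro ⟨-, rfl⟩; exact hy hb
    · rintro ⟨rfl, -⟩; exact hy ha
  have hc : ((A.erase x).erase y).card = q := by
    rw [Finset.card_erase_of_mem (Finset.mem_erase.2 ⟨hxy.ne', hy⟩),
      Finset.card_erase_of_mem hx, hA2]
    rfl
  obtain ⟨g, hg1, hg2⟩ := exists_inj (((A.erase x).erase y : Finset V) : Set V) q
    (by rw [Set.ncard_coe_finset, hc])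
  have hg3 : ∀ i, g i ≠ y ∧ g i ≠ x ∧ g i ∈ A := by
    intro i
    obtain ⟨h1, h2⟩ := Finset.mem_erase.1 (Finset.mem_coe.1 (hg2 i))
    obtain ⟨h3, h4⟩ := Finset.mem_erase.1 h2
    exact ⟨h1, h3, h4⟩
  refine ⟨g, fun i => ⟨?_, ?_⟩, fun i j hij => ?_⟩
  · obtain ⟨h1, h2, h3⟩ := hg3 i
    exact hed x hx _ h3 h2.symm (fun h => h1 h.2) (fun h => hxy.ne h.1)
  · obtain ⟨h1, h2, h3⟩ := hg3 i
    exact hed y hy _ h3 h1.symm (fun h => hxy.ne' h.1) (fun h => h2 h.2)
  · obtain ⟨h1, h2, h3⟩ := hg3 i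
    obtain ⟨h4, h5, h6⟩ := hg3 j
    exact hed _ h3 _ h6 (fun h => hij (hg1 h)) (fun h => h2 h.1) (fun h => h1 h.1)

/-- few near twins of `x` are adjacent to `y` -/
theorem three_a [Finite V] {G G' : SimpleGraph V} {q m : ℕ} (hmin : MinDel G G' (q + 2))
    (T : V → V → Prop)
    (hone : ∀ (a b : V) (M : Set V), G'.Adj a b → (∀ w ∈ M, T b w ∧ ¬ G'.Adj a w) → M.ncard ≤ m)
    {x y : V} (hxy : G.Adj x y) (hn : ¬ G'.Adj x y) :
    {w | T x w ∧ G'.Adj y w}.ncard ≤ q * m := by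
  classical
  obtain ⟨L, hL1, hL2⟩ := exists_link hmin hxy hn
  by_contra hcon
  rw [not_le] at hcon
  have h1 : (⋃ i : Fin q, {w | T x w ∧ ¬ G'.Adj (L i) w}).ncard ≤ q * m := by
    refine (Set.ncard_iUnion_le_of_fintype _).trans ?_
    refine (Finset.sum_le_card_nsmul _ _ m fun i _ => ?_).trans ?_
    · exact hone (L i) x _ (hL1 i).1.symm fun w hw => hw
    · rw [Finset.card_univ, Fintype.card_fin, smul_eq_mul]
  obtain ⟨w, hw1, hw2⟩ := Set.exists_mem_notMem_of_ncard_lt_ncard (lt_of_le_of_lt h1 hcon)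
    (Set.toFinite _)
  have hwL : ∀ i, G'.Adj (L i) w := by
    intro i
    by_contra h
    exact hw2 (Set.mem_iUnion.2 ⟨i, hw1.1, h⟩)
  have hLi : Function.Injective L := by
    intro i j hij
    by_contra hne
    exact (hL2 i j hne).ne hij
  have hyL : y ∉ Finset.univ.image L := by
    intro h
    obtain ⟨i, -, hi⟩ := Finset.mem_image.1 h
    exact (hL1 i).2.ne hi.symm
  have hwL' : w ∉ insert y (Finset.univ.image L) := by
    intro h
    rcases Finset.mem_insert.1 h with h | h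
    · exact hw1.2.ne h.symm
    · obtain ⟨i, -, hi⟩ := Finset.mem_image.1 h
      exact (hwL i).ne hi
  refine hmin.cf (insert w (insert y (Finset.univ.image L))) ?_
  rw [SimpleGraph.isNClique_iff]
  constructor
  · have hmem : ∀ a, a ∈ ((insert w (insert y (Finset.univ.image L)) : Finset V) : Set V) ↔
        a = w ∨ a = y ∨ ∃ i, L i = a := by
      intro a
      simp
    intro a ha b hb hab
    rw [hmem] at ha hb
    rcases ha with rfl | rfl | ⟨i, rfl⟩
    · rcases hb with rfl | rfl | ⟨j, rfl⟩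
      · exact absurd rfl hab
      · exact hw1.2.symm
      · exact (hwL j).symm
    · rcases hb with rfl | rfl | ⟨j, rfl⟩
      · exact hw1.2
      · exact absurd rfl hab
      · exact (hL1 j).2
    · rcases hb with rfl | rfl | ⟨j, rfl⟩
      · exact hwL i
      · exact (hL1 i).2.symm
      · exact hL2 i j fun h => hab (by rw [h])
  · rw [Finset.card_insert_of_notMem hwL', Finset.card_insert_of_notMem hyL,
      Finset.card_image_of_injective _ hLi, Finset.card_univ, Fintype.card_fin]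

/-- a small vertex cover of the cliques in the common neighbourhood -/
theorem three_b [Finite V] {G G' : SimpleGraph V} {q t K m : ℕ} (hq : 1 ≤ q)
    (hmin : MinDel G G' (q + 2)) (hplus : ¬ HasPlus G q t) (T : V → V → Prop)
    (hsam : ∀ E : Set V, ∃ X ⊆ E, E.ncard ≤ K * X.ncard ∧ ∀ x ∈ X, ∀ x' ∈ X, T x x')
    (hone : ∀ (a b : V) (M : Set V), G'.Adj a b → (∀ w ∈ M, T b w ∧ ¬ G'.Adj a w) → M.ncard ≤ m)
    {x y : V} (hxy : G.Adj x y)
    (hX : (q + 1) * (t + 2) * (m + 1) + 2 ≤ {w | T x w}.ncard) :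
    ∃ Z : Set V, x ∉ Z ∧ y ∉ Z ∧ Z.ncard ≤ q * (K ^ q * ((q + 1) * (t + 2) * (m + 1))) ∧
      ∀ L : Fin q → V, (∀ i, G'.Adj x (L i) ∧ G'.Adj y (L i)) →
        (∀ i j, i ≠ j → G'.Adj (L i) (L j)) → ∃ i, L i ∈ Z := by
  classical
  haveI := Fintype.ofFinite V
  haveI : Nonempty V := ⟨x⟩
  let 𝒯 : Set (Finset V) := {A | A.card = q ∧ (∀ a ∈ A, G'.Adj x a ∧ G'.Adj y a) ∧
    G'.IsClique (A : Set V)}
  obtain ⟨ℳ, hM1, hM2, hM3, hM4⟩ := exists_maxdisj 𝒯 q (fun A hA => hA.1) (by omega)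
  refine ⟨((ℳ.biUnion id : Finset V) : Set V), ?_, ?_, ?_, ?_⟩
  · intro h
    obtain ⟨A, hA, hxA⟩ := Finset.mem_biUnion.1 (Finset.mem_coe.1 h)
    exact ((hM1 A hA).2.1 x hxA).1.ne rfl
  · intro h
    obtain ⟨A, hA, hxA⟩ := Finset.mem_biUnion.1 (Finset.mem_coe.1 h)
    exact ((hM1 A hA).2.1 y hxA).2.ne rfl
  · rw [Set.ncard_coe_finset]
    refine hM4.trans (Nat.mul_le_mul_left _ ?_)
    -- ordered cliques
    have hord : ∀ A : Finset V, ∃ e : Fin q → V, A.card = q →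
        Function.Injective e ∧ ∀ i, e i ∈ A := by
      intro A
      by_cases hA : A.card = q
      · obtain ⟨g, hg1, hg2⟩ := exists_inj (A : Set V) q (by rw [Set.ncard_coe_finset, hA])
        exact ⟨g, fun _ => ⟨hg1, hg2⟩⟩
      · exact ⟨fun _ => Classical.arbitrary V, fun h => absurd h hA⟩
    choose e he using hord
    have hin : ∀ a, Set.InjOn (fun A => e A a) (ℳ : Set (Finset V)) := by
      intro a A hA B hB hAB
      by_contra hne
      have h4 := hM2 A hA B hB hne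
      have h5 := (he A (hM1 A hA).1).2 a
      have h6 := (he B (hM1 B hB).1).2 a
      have h7 : e A a = e B a := hAB
      rw [h7] at h5
      exact Finset.disjoint_left.1 h4 h5 h6
    obtain ⟨I, hI, hIc, hIT⟩ := samp_iter hsam ℳ q (fun a A => e A a) hin
    refine hIc.trans (Nat.mul_le_mul_left _ ?_)
    by_contra hcon
    rw [not_le] at hcon
    let P : Fin (q + 1) → Set V := Fin.cons ({w | T x w} \ {x, y})
      (fun a : Fin q => (fun A => e A a) '' (I : Set (Finset V)))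
    have hP0 : P 0 = {w | T x w} \ {x, y} := rfl
    have hPs : ∀ a : Fin q, P a.succ = (fun A => e A a) '' (I : Set (Finset V)) := fun a => rfl
    have hPc : ∀ a : Fin q, ∀ z ∈ P a.succ, G'.Adj x z ∧ G'.Adj y z := by
      rintro a _ ⟨A, hA, rfl⟩
      have hA' := hM1 A (hI hA)
      exact hA'.2.1 _ ((he A hA'.1).2 a)
    obtain ⟨f, hf1, hf2, hf3⟩ := greedy_rev G' (q + 1) (t + 2) m P (by
      intro a b hba z hz
      obtain ⟨a', rfl⟩ : ∃ a' : Fin q, a = a'.succ := ⟨a.pred (by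
        rintro rfl
        exact absurd hba (Fin.not_lt_zero _)), (Fin.succ_pred _ _).symm⟩
      rw [hPs] at hz
      obtain ⟨A, hA, rfl⟩ := hz
      have hA' := hM1 A (hI hA)
      have hA2 := he A hA'.1
      have hxa : G'.Adj x (e A a') := (hA'.2.1 _ (hA2.2 a')).1
      rcases Fin.eq_zero_or_eq_succ b with rfl | ⟨b', rfl⟩
      · refine hone (e A a') x _ hxa.symm ?_
        rintro w ⟨hw, hw'⟩
        exact ⟨hw.1, hw'⟩
      · have hab : a' ≠ b' := by
          rintro rfl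
          exact lt_irrefl _ hba
        refine hone (e A a') (e A b') _ ?_ ?_
        · exact hA'.2.2 (hA2.2 a') (hA2.2 b') (fun h => hab (hA2.1 h))
        · rintro _ ⟨⟨B, hB, rfl⟩, hy⟩
          exact ⟨hIT b' A hA B hB, hy⟩) (by
      intro b
      refine Fin.cases ?_ (fun b' => ?_) b
      · rw [hP0]
        have h1 := Set.le_ncard_sdiff ({x, y} : Set V) {w | T x w}
        have h2 : ({x, y} : Set V).ncard ≤ 2 := (Set.ncard_insert_le x {y}).trans (by simp)
        omega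
      · rw [hPs]
        have h1 : Set.InjOn (fun A => e A b') (I : Set (Finset V)) :=
          (hin b').mono (by exact_mod_cast hI)
        rw [h1.ncard_image, Set.ncard_coe_finset]
        exact hcon.le)
    have hfs : ∀ i, i ≠ 0 → ∀ a, G.Adj x (f i a) ∧ G.Adj y (f i a) := by
      intro i hi a
      obtain ⟨i', rfl⟩ : ∃ i' : Fin q, i = i'.succ := ⟨i.pred hi, (Fin.succ_pred _ _).symm⟩
      obtain ⟨h1, h2⟩ := hPc i' _ (hf1 i'.succ a)
      exact ⟨hmin.le h1, hmin.le h2⟩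
    have hf0 : ∀ a, f 0 a ≠ x ∧ f 0 a ≠ y := by
      intro a
      have h1 := (hf1 0 a).2
      exact ⟨fun h => h1 (by rw [h]; simp), fun h => h1 (by rw [h]; simp)⟩
    obtain ⟨f', g1, g2, g3, g4, g5⟩ := blow_update hf2
      (fun i j hij a b => hmin.le (hf3 i j hij a b)) ⟨0, by omega⟩ x
      (fun i hi a => (hfs i hi a).1) (fun a => (hf0 a).1.symm)
    obtain ⟨f'', h1, h2, h3, h4, -⟩ := blow_update g1 g2 ⟨1, by omega⟩ y
      (fun i hi a => by rw [g5 i hi a]; exact (hfs i hi a).2)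
      (fun a => by
        by_cases ha : a = ⟨0, by omega⟩
        · rw [ha, g3]; exact hxy.ne'
        · rw [g4 a ha]; exact (hf0 a).2.symm)
    refine hplus ⟨f'', h1, h2, ⟨0, by omega⟩, ⟨1, by omega⟩, ?_⟩
    rw [h3, h4 ⟨0, by omega⟩ (by simp), g3]
    exact hxy
  · intro L hL1 hL2
    have hLi : Function.Injective L := by
      intro i j hij
      by_contra hne
      exact (hL2 i j hne).ne hij
    have h1 : Finset.univ.image L ∈ 𝒯 := by
      refine ⟨?_, ?_, ?_⟩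
      · rw [Finset.card_image_of_injective _ hLi, Finset.card_univ, Fintype.card_fin]
      · intro a ha
        obtain ⟨i, -, rfl⟩ := Finset.mem_image.1 ha
        exact hL1 i
      · intro a ha b hb hab
        obtain ⟨i, -, rfl⟩ := Finset.mem_image.1 (Finset.mem_coe.1 ha)
        obtain ⟨j, -, rfl⟩ := Finset.mem_image.1 (Finset.mem_coe.1 hb)
        exact hL2 i j fun h => hab (by rw [h])
    obtain ⟨B, hB, hAB⟩ := hM3 _ h1
    rw [Finset.not_disjoint_iff] at hAB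
    obtain ⟨a, ha, haB⟩ := hAB
    obtain ⟨i, -, rfl⟩ := Finset.mem_image.1 ha
    exact ⟨i, Finset.mem_coe.2 (Finset.mem_biUnion.2 ⟨B, hB, haB⟩)⟩

/-- (THREE) the vertices with a deleted edge have `O(s)` near twins -/
theorem three (q t K : ℕ) (hq : 1 ≤ q) (C' C₂ C₃ : ℝ) : ∃ A : ℝ, ∀ (V : Type)
    [Finite V] (G G' : SimpleGraph V) (s : ℝ)
    (T : V → V → Prop), 1 ≤ s → MinDel G G' (q + 2) → ¬ HasPlus G q t →
    (∀ w, (dD G G' w : ℝ) ≤ C' * s) →
    (∀ x y, T x y → T y x) → (∀ x y, T x y → ¬ G.Adj x y) →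
    (∀ E : Set V, ∃ X ⊆ E, E.ncard ≤ K * X.ncard ∧ ∀ x ∈ X, ∀ x' ∈ X, T x x') →
    (∀ (a b : V) (M : Set V), G'.Adj a b → (∀ w ∈ M, T b w ∧ ¬ G'.Adj a w) →
      (M.ncard : ℝ) ≤ C₂ * s) →
    (∀ (x y : V) (M Z : Set V), G.Adj x y → ¬ G'.Adj x y → (∀ w ∈ M, T x w ∧ ¬ G.Adj y w) →
      x ∉ Z → y ∉ Z → (∀ L : Fin q → V, (∀ i, G'.Adj x (L i) ∧ G'.Adj y (L i)) →
        (∀ i j, i ≠ j → G'.Adj (L i) (L j)) →
        ∃ i, L i ∈ Z) → (M.ncard : ℝ) ≤ C₃ * (s + Z.ncard)) →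
    ∀ x, 0 < dD G G' x → (({w | T x w}.ncard : ℕ) : ℝ) < A * s := by
  set B : ℝ := (q + 1) * (t + 2) * (|C₂| + 1) with hB
  refine ⟨B + 3 + |C₃| * (1 + q * (K ^ q * B)) + q * |C₂| + |C'|, ?_⟩
  intro V _ G G' s T hs hmin hplus hdD _ _ hsam hone hgain x hx
  classical
  haveI := Fintype.ofFinite V
  obtain ⟨y, hy⟩ : ∃ y, y ∈ G.neighborSet x \ G'.neighborSet x := by
    by_contra hcon
    push Not at hcon
    have h1 : G.neighborSet x \ G'.neighborSet x = ∅ := Set.eq_empty_iff_forall_notMem.2 hcon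
    unfold dD at hx
    rw [h1, Set.ncard_empty] at hx
    exact absurd hx (lt_irrefl 0)
  have hxy : G.Adj x y := hy.1
  have hn : ¬ G'.Adj x y := hy.2
  by_contra hcon
  rw [not_lt] at hcon
  set m := ⌊|C₂| * s⌋₊ with hm
  have hmle : (m : ℝ) ≤ |C₂| * s := Nat.floor_le (by positivity)
  have hone' : ∀ (a b : V) (M : Set V), G'.Adj a b → (∀ w ∈ M, T b w ∧ ¬ G'.Adj a w) →
      M.ncard ≤ m := by
    intro a b M hab hM
    refine Nat.le_floor ((hone a b M hab hM).trans ?_)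
    exact mul_le_mul_of_nonneg_right (le_abs_self _) (by linarith)
  have hB0 : 0 ≤ B := by positivity
  have hBs : ((q + 1) * (t + 2) * (m + 1) : ℝ) ≤ B * s := by
    rw [hB]
    calc ((q + 1) * (t + 2) * (m + 1) : ℝ) ≤ (q + 1) * (t + 2) * (|C₂| * s + s) := by gcongr
      _ = _ := by ring
  have hX : (q + 1) * (t + 2) * (m + 1) + 2 ≤ {w | T x w}.ncard := by
    have h1 : (((q + 1) * (t + 2) * (m + 1) + 2 : ℕ) : ℝ) ≤ (({w | T x w}.ncard : ℕ) : ℝ) := by
      push_cast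
      refine le_trans ?_ hcon
      have h2 : (0 : ℝ) ≤ (|C₃| * (1 + q * (K ^ q * B)) + q * |C₂| + |C'|) * s := by positivity
      nlinarith
    exact_mod_cast h1
  obtain ⟨Z, hxZ, hyZ, hZc, hZ⟩ := three_b hq hmin hplus T hsam hone' hxy hX
  have hM := hgain x y {w | T x w ∧ ¬ G.Adj y w} Z hxy hn (fun w hw => hw) hxZ hyZ hZ
  have hX₁ := three_a hmin T hone' hxy hn
  have hsub : {w | T x w} ⊆ ({w | T x w ∧ ¬ G.Adj y w} ∪ {w | T x w ∧ G'.Adj y w}) ∪
      (G.neighborSet y \ G'.neighborSet y) := by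
    intro w hw
    by_cases h1 : G.Adj y w
    · by_cases h2 : G'.Adj y w
      · exact Or.inl (Or.inr ⟨hw, h2⟩)
      · exact Or.inr ⟨h1, h2⟩
    · exact Or.inl (Or.inl ⟨hw, h1⟩)
  have h1 : {w | T x w}.ncard ≤ {w | T x w ∧ ¬ G.Adj y w}.ncard +
      {w | T x w ∧ G'.Adj y w}.ncard + dD G G' y := by
    refine (Set.ncard_le_ncard hsub (Set.toFinite _)).trans ((Set.ncard_union_le _ _).trans ?_)
    exact Nat.add_le_add_right (Set.ncard_union_le _ _) _
  have h2 : (({w | T x w}.ncard : ℕ) : ℝ) ≤ ({w | T x w ∧ ¬ G.Adj y w}.ncard : ℝ) +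
      ({w | T x w ∧ G'.Adj y w}.ncard : ℝ) + dD G G' y := by exact_mod_cast h1
  have h3 : (({w | T x w ∧ G'.Adj y w}.ncard : ℕ) : ℝ) ≤ q * m := by exact_mod_cast hX₁
  have h4 : (Z.ncard : ℝ) ≤ q * (K ^ q * ((q + 1) * (t + 2) * (m + 1))) := by exact_mod_cast hZc
  have h5 : ({w | T x w ∧ ¬ G.Adj y w}.ncard : ℝ) ≤ |C₃| * (s + q * (K ^ q * (B * s))) := by
    refine hM.trans ?_
    have h6 : C₃ * (s + Z.ncard) ≤ |C₃| * (s + Z.ncard) :=
      mul_le_mul_of_nonneg_right (le_abs_self _) (by positivity)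
    refine h6.trans ?_
    have h7 : (Z.ncard : ℝ) ≤ q * (K ^ q * (B * s)) := h4.trans (by gcongr)
    gcongr
  have h6 : (dD G G' y : ℝ) ≤ |C'| * s :=
    (hdD y).trans (mul_le_mul_of_nonneg_right (le_abs_self _) (by linarith))
  have h7 : (q * m : ℝ) ≤ q * (|C₂| * s) := by gcongr
  have h8 : (({w | T x w}.ncard : ℕ) : ℝ) ≤
      (|C₃| * (1 + q * (K ^ q * B)) + q * |C₂| + |C'|) * s := by
    calc _ ≤ |C₃| * (s + q * (K ^ q * (B * s))) + q * (|C₂| * s) + |C'| * s := by linarith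
      _ = _ := by ring
  nlinarith

end Pool.Agent.WTG
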