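import Mathlib

/-!
# Greedy choice of a blow-up, maximal disjoint families, iterated sampling
-/

set_option linter.unusedSectionVars false
namespace Pool.Agent.WTG

variable {V : Type*}

theorem exists_inj [Finite V] (S : Set V) (t : ℕ) (h : t ≤ S.ncard) :
    ∃ g : Fin t → V, Function.Injective g ∧ ∀ i, g i ∈ S := by
  have e := (Finite.equivFin S).symm
  have h' : t ≤ Nat.card S := by rwa [Nat.card_coe_set_eq]
  refine ⟨fun i => (e (Fin.castLE h' i) : V), ?_, fun i => (e _).2⟩
  intro i j hij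
  have := e.injective (Subtype.ext hij)
  exact Fin.castLE_injective h' this

/-- greedy choice of a blow-up from almost complete families -/
theorem greedy [Finite V] (G : SimpleGraph V) (r t m : ℕ) (P : Fin r → Set V)
    (hP : ∀ a b, a < b → ∀ x ∈ P a, {y | y ∈ P b ∧ ¬ G.Adj x y}.ncard ≤ m)
    (hc : ∀ b, r * t * (m + 1) ≤ (P b).ncard) :
    ∃ f : Fin r → Fin t → V, (∀ a j, f a j ∈ P a) ∧
      Function.Injective (fun p : Fin r × Fin t => f p.1 p.2) ∧
      ∀ i j, i ≠ j → ∀ a b, G.Adj (f i a) (f j b) := by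
  classical
  rcases isEmpty_or_nonempty V with hV | hV
  · rcases Nat.eq_zero_or_pos (r * t) with h0 | h0
    · rcases Nat.mul_eq_zero.1 h0 with rfl | rfl
      · exact ⟨fun a => a.elim0, fun a => a.elim0, fun p => p.1.elim0, fun i => i.elim0⟩
      · exact ⟨fun _ j => j.elim0, fun _ j => j.elim0, fun p => p.2.elim0, fun _ _ _ j => j.elim0⟩
    · have hr : 0 < r := Nat.pos_of_mul_pos_right h0
      have h1 := hc ⟨0, hr⟩
      have h2 : (P ⟨0, hr⟩).ncard = 0 := by
        rw [Set.ncard_eq_zero]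
        exact Set.eq_empty_of_isEmpty _
      rw [h2] at h1
      have h3 : 0 < r * t * (m + 1) := Nat.mul_pos h0 (Nat.succ_pos m)
      omega
  have key : ∀ l : ℕ, l ≤ r → ∃ f : Fin r → Fin t → V,
      (∀ a : Fin r, (a : ℕ) < l → (∀ j, f a j ∈ P a) ∧ Function.Injective (f a)) ∧
      ∀ a b : Fin r, (a : ℕ) < l → (b : ℕ) < l → a ≠ b → ∀ i j, G.Adj (f a i) (f b j) := by
    intro l
    induction l with
    | zero =>
      intro _
      exact ⟨fun _ _ => Classical.arbitrary V, fun a ha => absurd ha (Nat.not_lt_zero _),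
        fun a b ha => absurd ha (Nat.not_lt_zero _)⟩
    | succ l ih =>
      intro hl
      obtain ⟨f, hf1, hf2⟩ := ih (by omega)
      let c : Fin r := ⟨l, by omega⟩
      let B : Set V := ⋃ p : Fin r × Fin t, if (p.1 : ℕ) < l then
        {y | y ∈ P c ∧ ¬ G.Adj (f p.1 p.2) y} else ∅
      have hB : B.ncard ≤ r * t * m := by
        have h1 : B.ncard ≤ ∑ p : Fin r × Fin t, ((if (p.1 : ℕ) < l then
            {y | y ∈ P c ∧ ¬ G.Adj (f p.1 p.2) y} else ∅ : Set V)).ncard := by
          have h2 := Set.ncard_iUnion_le_of_fintype (fun p : Fin r × Fin t =>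
            (if (p.1 : ℕ) < l then {y | y ∈ P c ∧ ¬ G.Adj (f p.1 p.2) y} else ∅ : Set V))
          exact h2
        refine h1.trans ?_
        have h3 : ∀ p ∈ (Finset.univ : Finset (Fin r × Fin t)), ((if (p.1 : ℕ) < l then
            {y | y ∈ P c ∧ ¬ G.Adj (f p.1 p.2) y} else ∅ : Set V)).ncard ≤ m := by
          intro p _
          split_ifs with h4
          · exact hP p.1 c h4 _ ((hf1 p.1 h4).1 p.2)
          · rw [Set.ncard_empty]; exact Nat.zero_le _
        refine (Finset.sum_le_card_nsmul _ _ m h3).trans ?_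
        rw [Finset.card_univ, Fintype.card_prod, Fintype.card_fin, Fintype.card_fin, smul_eq_mul]
      have hA : t ≤ (P c \ B).ncard := by
        have h1 := Set.le_ncard_sdiff B (P c)
        have h2 := hc c
        have h3 : t ≤ r * t := Nat.le_mul_of_pos_left t (by omega)
        have h4 : r * t * (m + 1) = r * t * m + r * t := by ring
        omega
      obtain ⟨g, hg1, hg2⟩ := exists_inj (P c \ B) t hA
      have hgc : ∀ a : Fin r, (a : ℕ) < l → ∀ i j, G.Adj (f a i) (g j) := by
        intro a ha i j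
        by_contra hn
        apply (hg2 j).2
        refine Set.mem_iUnion.2 ⟨(a, i), ?_⟩
        rw [if_pos ha]
        exact ⟨(hg2 j).1, hn⟩
      refine ⟨Function.update f c g, ?_, ?_⟩
      · intro a ha
        rcases eq_or_ne a c with rfl | hac
        · rw [Function.update_self]
          exact ⟨fun j => (hg2 j).1, hg1⟩
        · rw [Function.update_of_ne hac]
          have h5 : (a : ℕ) ≠ l := fun h => hac (Fin.ext h)
          exact hf1 a (by omega)
      · intro a b ha hb hab i j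
        rcases eq_or_ne a c with rfl | hac
        · rw [Function.update_self, Function.update_of_ne hab.symm]
          have h5 : (b : ℕ) ≠ l := fun h => hab (Fin.ext h.symm)
          exact (hgc b (by omega) j i).symm
        · rw [Function.update_of_ne hac]
          have h5 : (a : ℕ) ≠ l := fun h => hac (Fin.ext h)
          rcases eq_or_ne b c with rfl | hbc
          · rw [Function.update_self]
            exact hgc a (by omega) i j
          · rw [Function.update_of_ne hbc]
            have h6 : (b : ℕ) ≠ l := fun h => hbc (Fin.ext h)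
            exact hf2 a b (by omega) (by omega) hab i j
  obtain ⟨f, hf1, hf2⟩ := key r le_rfl
  refine ⟨f, fun a j => (hf1 a a.2).1 j, ?_, fun i j hij a b => hf2 i j i.2 j.2 hij a b⟩
  rintro ⟨a, i⟩ ⟨b, j⟩ h
  rcases eq_or_ne a b with rfl | hab
  · have h0 : i = j := (hf1 a a.2).2 h
    rw [h0]
  · have h1 := hf2 a b a.2 b.2 hab i j
    have h2 : f a i = f b j := h
    rw [h2] at h1
    exact absurd h1 (G.loopless.irrefl _)

/-- greedy choice, the last part first -/
theorem greedy_rev [Finite V] (G : SimpleGraph V) (r t m : ℕ) (P : Fin r → Set V)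
    (hP : ∀ a b, b < a → ∀ x ∈ P a, {y | y ∈ P b ∧ ¬ G.Adj x y}.ncard ≤ m)
    (hc : ∀ b, r * t * (m + 1) ≤ (P b).ncard) :
    ∃ f : Fin r → Fin t → V, (∀ a j, f a j ∈ P a) ∧
      Function.Injective (fun p : Fin r × Fin t => f p.1 p.2) ∧
      ∀ i j, i ≠ j → ∀ a b, G.Adj (f i a) (f j b) := by
  obtain ⟨f, h1, h2, h3⟩ := greedy G r t m (fun a => P a.rev)
    (fun a b hab x hx => hP a.rev b.rev (Fin.rev_lt_rev.2 hab) x hx) (fun b => hc b.rev)
  refine ⟨fun a => f a.rev, ?_, ?_, ?_⟩
  · intro a j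
    have := h1 a.rev j
    rwa [Fin.rev_rev] at this
  · rintro ⟨a, i⟩ ⟨b, j⟩ h
    have h4 : ((a.rev, i) : Fin r × Fin t) = (b.rev, j) := h2 h
    rw [Prod.mk.injEq] at h4
    rw [Fin.rev_injective h4.1, h4.2]
  · intro i j hij a b
    exact h3 i.rev j.rev (fun h => hij (Fin.rev_injective h)) a b

/-- replacing a vertex of the part `0` of a blow-up -/
theorem blow_update {G : SimpleGraph V} {q t : ℕ} {f : Fin (q + 1) → Fin t → V}
    (hf : Function.Injective (fun p : Fin (q + 1) × Fin t => f p.1 p.2))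
    (hadj : ∀ i j, i ≠ j → ∀ a b, G.Adj (f i a) (f j b)) (j₀ : Fin t) (y : V)
    (hy : ∀ i, i ≠ 0 → ∀ a, G.Adj y (f i a)) (hy0 : ∀ a, y ≠ f 0 a) :
    ∃ f' : Fin (q + 1) → Fin t → V,
      Function.Injective (fun p : Fin (q + 1) × Fin t => f' p.1 p.2) ∧
      (∀ i j, i ≠ j → ∀ a b, G.Adj (f' i a) (f' j b)) ∧ f' 0 j₀ = y ∧
      (∀ a, a ≠ j₀ → f' 0 a = f 0 a) ∧ ∀ i, i ≠ 0 → ∀ a, f' i a = f i a := by
  classical
  let f' : Fin (q + 1) → Fin t → V := Function.update f 0 (Function.update (f 0) j₀ y)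
  have e1 : f' 0 j₀ = y := by simp [f']
  have e2 : ∀ a, a ≠ j₀ → f' 0 a = f 0 a := by
    intro a ha
    simp [f', ha]
  have e3 : ∀ i, i ≠ 0 → ∀ a, f' i a = f i a := by
    intro i hi a
    simp [f', hi]
  have e4 : ∀ i a, (i = 0 ∧ a = j₀ ∧ f' i a = y) ∨ (f' i a = f i a ∧ ¬ (i = 0 ∧ a = j₀)) := by
    intro i a
    rcases eq_or_ne i 0 with rfl | hi
    · rcases eq_or_ne a j₀ with rfl | ha
      · exact Or.inl ⟨rfl, rfl, e1⟩
      · exact Or.inr ⟨e2 a ha, fun h => ha h.2⟩
    · exact Or.inr ⟨e3 i hi a, fun h => hi h.1⟩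
  have hyne : ∀ i a, y ≠ f i a := by
    intro i a
    rcases eq_or_ne i 0 with rfl | hi
    · exact hy0 a
    · exact (hy i hi a).ne
  refine ⟨f', ?_, ?_, e1, e2, e3⟩
  · rintro ⟨i, a⟩ ⟨j, b⟩ h
    have h' : f' i a = f' j b := h
    rcases e4 i a with ⟨h1, h2, h3⟩ | ⟨h1, h2⟩
    · rcases e4 j b with ⟨h4, h5, h6⟩ | ⟨h4, h5⟩
      · rw [h1, h2, h4, h5]
      · rw [h3, h4] at h'
        exact absurd h' (hyne j b)
    · rcases e4 j b with ⟨h4, h5, h6⟩ | ⟨h4, h5⟩
      · rw [h1, h6] at h'
        exact absurd h'.symm (hyne i a)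
      · rw [h1, h4] at h'
        exact hf h'
  · intro i j hij a b
    rcases e4 i a with ⟨h1, h2, h3⟩ | ⟨h1, h2⟩
    · rcases e4 j b with ⟨h4, h5, h6⟩ | ⟨h4, h5⟩
      · exact absurd (h1.trans h4.symm) hij
      · rw [h3, h4]
        exact hy j (fun h => hij (h1.trans h.symm)) b
    · rcases e4 j b with ⟨h4, h5, h6⟩ | ⟨h4, h5⟩
      · rw [h1, h6]
        exact (hy i (fun h => hij (h.trans h4.symm)) a).symm
      · rw [h1, h4]
        exact hadj i j hij a b

/-- a maximal disjoint subfamily -/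
theorem exists_maxdisj [Finite V] [DecidableEq V] (T : Set (Finset V)) (s : ℕ)
    (hs : ∀ A ∈ T, A.card = s) (hs0 : 0 < s) :
    ∃ M : Finset (Finset V), (∀ A ∈ M, A ∈ T) ∧ (∀ A ∈ M, ∀ B ∈ M, A ≠ B → Disjoint A B) ∧
      (∀ A ∈ T, ∃ B ∈ M, ¬ Disjoint A B) ∧ (M.biUnion id).card ≤ s * M.card := by
  classical
  haveI := Fintype.ofFinite V
  let F : Finset (Finset (Finset V)) := Finset.univ.filter fun M =>
    (∀ A ∈ M, A ∈ T) ∧ ∀ A ∈ M, ∀ B ∈ M, A ≠ B → Disjoint A B
  have hF : F.Nonempty := ⟨∅, by simp [F]⟩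
  obtain ⟨M, hM, hmax⟩ := F.exists_max_image Finset.card hF
  obtain ⟨-, hM1, hM2⟩ := Finset.mem_filter.1 hM
  refine ⟨M, hM1, hM2, ?_, ?_⟩
  · intro A hA
    by_contra hcon
    push Not at hcon
    have hAM : A ∉ M := by
      intro h
      have h1 := hcon A h
      rw [disjoint_self, Finset.bot_eq_empty] at h1
      have h2 := hs A hA
      rw [h1, Finset.card_empty] at h2
      omega
    have h2 : insert A M ∈ F := by
      refine Finset.mem_filter.2 ⟨Finset.mem_univ _, ?_, ?_⟩
      · intro B hB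
        rcases Finset.mem_insert.1 hB with rfl | hB
        · exact hA
        · exact hM1 B hB
      · intro B hB C hC hBC
        rcases Finset.mem_insert.1 hB with hB | hB
        · rcases Finset.mem_insert.1 hC with hC | hC
          · exact absurd (hB.trans hC.symm) hBC
          · rw [hB]; exact hcon C hC
        · rcases Finset.mem_insert.1 hC with hC | hC
          · rw [hC]; exact (hcon B hB).symm
          · exact hM2 B hB C hC hBC
    have h3 := hmax _ h2
    rw [Finset.card_insert_of_notMem hAM] at h3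
    omega
  · refine (Finset.card_biUnion_le).trans ?_
    refine (Finset.sum_le_card_nsmul M _ s (fun A hA => (hs A (hM1 A hA)).le)).trans ?_
    rw [smul_eq_mul, mul_comm]

/-- iterated sampling -/
theorem samp_iter [Finite V] {ι : Type*} {K : ℕ} {Tw : V → V → Prop}
    (hsam : ∀ E : Set V, ∃ X ⊆ E, E.ncard ≤ K * X.ncard ∧ ∀ x ∈ X, ∀ y ∈ X, Tw x y)
    (I : Finset ι) (r : ℕ) (p : Fin r → ι → V) (hinj : ∀ a, Set.InjOn (p a) I) :
    ∃ I' ⊆ I, I.card ≤ K ^ r * I'.card ∧ ∀ a, ∀ i ∈ I', ∀ j ∈ I', Tw (p a i) (p a j) := by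
  classical
  have key : ∀ l : ℕ, l ≤ r → ∃ I' ⊆ I, I.card ≤ K ^ l * I'.card ∧
      ∀ a : Fin r, (a : ℕ) < l → ∀ i ∈ I', ∀ j ∈ I', Tw (p a i) (p a j) := by
    intro l
    induction l with
    | zero =>
      intro _
      exact ⟨I, subset_rfl, by simp, fun a ha => absurd ha (Nat.not_lt_zero _)⟩
    | succ l ih =>
      intro hl
      obtain ⟨J, hJ, hc, hT⟩ := ih (by omega)
      let c : Fin r := ⟨l, by omega⟩
      obtain ⟨X, hX, hXc, hXT⟩ := hsam (p c '' (J : Set ι))
      have hJi : Set.InjOn (p c) (J : Set ι) := (hinj c).mono (by exact_mod_cast hJ)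
      refine ⟨J.filter fun i => p c i ∈ X, (Finset.filter_subset _ _).trans hJ, ?_, ?_⟩
      · have h1 : (p c '' (J : Set ι)).ncard = J.card := by
          rw [hJi.ncard_image, Set.ncard_coe_finset]
        have h2 : X.ncard ≤ (J.filter fun i => p c i ∈ X).card := by
          have h3 : X ⊆ p c '' ((J.filter fun i => p c i ∈ X : Finset ι) : Set ι) := by
            intro x hx
            obtain ⟨i, hi, rfl⟩ := hX hx
            exact ⟨i, by simpa using ⟨hi, hx⟩, rfl⟩
          calc X.ncard ≤ (p c '' ((J.filter fun i => p c i ∈ X : Finset ι) : Set ι)).ncard :=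
                Set.ncard_le_ncard h3 (Set.toFinite _)
            _ ≤ ((J.filter fun i => p c i ∈ X : Finset ι) : Set ι).ncard :=
                Set.ncard_image_le (Finset.finite_toSet _)
            _ = _ := Set.ncard_coe_finset _
        rw [h1] at hXc
        calc I.card ≤ K ^ l * J.card := hc
          _ ≤ K ^ l * (K * X.ncard) := Nat.mul_le_mul_left _ hXc
          _ = K ^ (l + 1) * X.ncard := by ring
          _ ≤ _ := Nat.mul_le_mul_left _ h2
      · intro a ha i hi j hj
        rw [Finset.mem_filter] at hi hj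
        by_cases hal : (a : ℕ) = l
        · have h4 : a = c := Fin.ext hal
          rw [h4]
          exact hXT _ hi.2 _ hj.2
        · exact hT a (by omega) i hi.1 j hj.1
  obtain ⟨I', h1, h2, h3⟩ := key r le_rfl
  exact ⟨I', h1, h2, fun a => h3 a a.2⟩

end Pool.Agent.WTG
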