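import Pool.Agent.WTG.Defs
import Pool.Agent.WTG.Greedy

/-!
# (TWO) the degrees in the deleted graph
-/

set_option linter.unusedSectionVars false
namespace Pool.Agent.WTG

open Pool.Agent.WT7

variable {V : Type}

theorem df_eq_sum [Finite V] (G G' : SimpleGraph V) [Fintype V] : df G G' = ∑ v, dD G G' v := by
  classical
  have h1 : df G G' = (Finset.univ.filter fun p : V × V => G.Adj p.1 p.2 ∧ ¬ G'.Adj p.1 p.2).card := by
    rw [← Set.ncard_coe_finset]
    simp [df]
  have h2 : ∀ v, dD G G' v =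
      (Finset.univ.filter fun u : V => G.Adj v u ∧ ¬ G'.Adj v u).card := by
    intro v
    rw [← Set.ncard_coe_finset]
    unfold dD
    congr 1
    ext u
    simp
  rw [h1, Finset.card_eq_sum_card_fiberwise (f := Prod.fst) (t := Finset.univ)
    (fun x _ => Finset.mem_univ _)]
  refine Finset.sum_congr rfl fun v _ => ?_
  rw [h2]
  refine Finset.card_bij (fun p _ => p.2) ?_ ?_ ?_
  · rintro ⟨a, b⟩ hp
    simp only [Finset.mem_filter, Finset.mem_univ, true_and] at hp ⊢
    obtain ⟨h3, rfl⟩ := hp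
    exact h3
  · rintro ⟨a, b⟩ hp ⟨c, d⟩ hp' h
    simp only [Finset.mem_filter, Finset.mem_univ, true_and] at hp hp'
    obtain ⟨-, rfl⟩ := hp
    obtain ⟨-, rfl⟩ := hp'
    simp only at h
    rw [h]
  · intro u hu
    simp only [Finset.mem_filter, Finset.mem_univ, true_and] at hu
    exact ⟨(v, u), by simpa using hu, rfl⟩

/-- few vertices have large `D`-degree -/
theorem few_high [Finite V] (G G' : SimpleGraph V) {s : ℝ} (hs : 0 < s)
    (hd : (df G G' : ℝ) ≤ s ^ 2) : ({v | ¬ (dD G G' v : ℝ) ≤ s}.ncard : ℝ) ≤ s := by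
  classical
  haveI := Fintype.ofFinite V
  rw [df_eq_sum] at hd
  push_cast at hd
  have h1 : {v | ¬ (dD G G' v : ℝ) ≤ s}.ncard =
      (Finset.univ.filter fun v => ¬ (dD G G' v : ℝ) ≤ s).card := by
    rw [← Set.ncard_coe_finset]
    simp
  rw [h1]
  have h2 : ((Finset.univ.filter fun v => ¬ (dD G G' v : ℝ) ≤ s).card : ℝ) * s ≤
      ∑ v, (dD G G' v : ℝ) := by
    calc ((Finset.univ.filter fun v => ¬ (dD G G' v : ℝ) ≤ s).card : ℝ) * s
        = ∑ v ∈ Finset.univ.filter fun v => ¬ (dD G G' v : ℝ) ≤ s, s := by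
          rw [Finset.sum_const, nsmul_eq_mul]
      _ ≤ ∑ v ∈ Finset.univ.filter fun v => ¬ (dD G G' v : ℝ) ≤ s, (dD G G' v : ℝ) :=
          Finset.sum_le_sum fun v hv => (not_le.1 (Finset.mem_filter.1 hv).2).le
      _ ≤ _ := Finset.sum_le_sum_of_subset_of_nonneg (Finset.filter_subset _ _)
          fun v _ _ => Nat.cast_nonneg _
  have h3 := h2.trans hd
  rw [pow_two] at h3
  exact le_of_mul_le_mul_right h3 hs

/-- the edges at `w` are replaced by the pairs to `Z` -/
def Sw (G G' : SimpleGraph V) (w : V) (Z : Set V) : SimpleGraph V where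
  Adj a b := (G'.Adj a b ∧ a ≠ w ∧ b ≠ w) ∨ (G.Adj a b ∧ ((a = w ∧ b ∉ Z) ∨ (b = w ∧ a ∉ Z)))
  symm := ⟨by
    rintro a b (⟨h1, h2, h3⟩ | ⟨h1, h2 | h2⟩)
    · exact Or.inl ⟨h1.symm, h3, h2⟩
    · exact Or.inr ⟨h1.symm, Or.inr h2⟩
    · exact Or.inr ⟨h1.symm, Or.inl h2⟩⟩
  loopless := ⟨by
    rintro a (⟨h1, -⟩ | ⟨h1, -⟩)
    · exact h1.ne rfl
    · exact h1.ne rfl⟩

theorem dD_le_of_cover [Finite V] {G G' : SimpleGraph V} {k : ℕ} (h : MinDel G G' k) (w : V)
    (Z : Finset V) (hZ : (Sw G G' w (Z : Set V)).CliqueFree k) : dD G G' w ≤ Z.card := by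
  classical
  haveI := Fintype.ofFinite V
  have hle : Sw G G' w (Z : Set V) ≤ G := by
    rintro a b (⟨h1, -⟩ | ⟨h1, -⟩)
    · exact h.le h1
    · exact h1
  have h1 := h.min _ hle hZ
  let D : Finset V := Finset.univ.filter fun u => G.Adj w u ∧ ¬ G'.Adj w u
  have hD : dD G G' w = D.card := by
    rw [← Set.ncard_coe_finset]
    unfold dD
    congr 1
    ext u
    simp [D]
  let A₀ : Finset (V × V) := Finset.univ.filter fun p : V × V =>
    (G.Adj p.1 p.2 ∧ ¬ G'.Adj p.1 p.2) ∧ p.1 ≠ w ∧ p.2 ≠ w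
  have e1 : A₀.card + 2 * D.card ≤ df G G' := by
    have h2 : df G G' =
        (Finset.univ.filter fun p : V × V => G.Adj p.1 p.2 ∧ ¬ G'.Adj p.1 p.2).card := by
      rw [← Set.ncard_coe_finset]
      simp [df]
    have h3 : A₀ ∪ (D.image (fun u => (w, u)) ∪ D.image (fun u => (u, w))) ⊆
        Finset.univ.filter fun p : V × V => G.Adj p.1 p.2 ∧ ¬ G'.Adj p.1 p.2 := by
      intro p hp
      rw [Finset.mem_filter]
      refine ⟨Finset.mem_univ _, ?_⟩
      rcases Finset.mem_union.1 hp with hp | hp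
      · exact (Finset.mem_filter.1 hp).2.1
      · rcases Finset.mem_union.1 hp with hp | hp
        · obtain ⟨u, hu, rfl⟩ := Finset.mem_image.1 hp
          exact (Finset.mem_filter.1 hu).2
        · obtain ⟨u, hu, rfl⟩ := Finset.mem_image.1 hp
          obtain ⟨h4, h5⟩ := (Finset.mem_filter.1 hu).2
          exact ⟨h4.symm, fun h => h5 h.symm⟩
    have h4 : (A₀ ∪ (D.image (fun u => (w, u)) ∪ D.image (fun u => (u, w)))).card =
        A₀.card + (D.card + D.card) := by
      rw [Finset.card_union_of_disjoint, Finset.card_union_of_disjoint,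
        Finset.card_image_of_injective, Finset.card_image_of_injective]
      · intro a b hab; exact (Prod.mk.inj hab).1
      · intro a b hab; exact (Prod.mk.inj hab).2
      · rw [Finset.disjoint_left]
        intro p hp hp'
        obtain ⟨u, hu, rfl⟩ := Finset.mem_image.1 hp
        obtain ⟨v, hv, hv'⟩ := Finset.mem_image.1 hp'
        have h5 : v = w := (Prod.mk.inj hv').1
        rw [h5] at hv
        exact (Finset.mem_filter.1 hv).2.1.ne rfl
      · rw [Finset.disjoint_left]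
        intro p hp hp'
        obtain ⟨-, h5, h6⟩ := (Finset.mem_filter.1 hp).2
        rcases Finset.mem_union.1 hp' with hp' | hp'
        · obtain ⟨u, hu, rfl⟩ := Finset.mem_image.1 hp'
          exact h5 rfl
        · obtain ⟨u, hu, rfl⟩ := Finset.mem_image.1 hp'
          exact h6 rfl
    have h5 := Finset.card_le_card h3
    rw [h4] at h5
    rw [h2]
    omega
  have e2 : df G (Sw G G' w (Z : Set V)) ≤ A₀.card + 2 * Z.card := by
    have h2 : df G (Sw G G' w (Z : Set V)) =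
        (Finset.univ.filter fun p : V × V => G.Adj p.1 p.2 ∧
          ¬ (Sw G G' w (Z : Set V)).Adj p.1 p.2).card := by
      rw [← Set.ncard_coe_finset]
      simp [df]
    have h3 : (Finset.univ.filter fun p : V × V => G.Adj p.1 p.2 ∧
          ¬ (Sw G G' w (Z : Set V)).Adj p.1 p.2) ⊆
        A₀ ∪ (Z.image (fun u => (w, u)) ∪ Z.image (fun u => (u, w))) := by
      rintro ⟨a, b⟩ hp
      obtain ⟨h4, h5⟩ := (Finset.mem_filter.1 hp).2
      simp only at h4 h5
      by_cases ha : a = w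
      · subst ha
        have h6 : b ∈ Z := by
          by_contra h6
          exact h5 (Or.inr ⟨h4, Or.inl ⟨rfl, h6⟩⟩)
        exact Finset.mem_union_right _ (Finset.mem_union_left _ (Finset.mem_image_of_mem _ h6))
      · by_cases hb : b = w
        · subst hb
          have h6 : a ∈ Z := by
            by_contra h6
            exact h5 (Or.inr ⟨h4, Or.inr ⟨rfl, h6⟩⟩)
          exact Finset.mem_union_right _ (Finset.mem_union_right _
            (Finset.mem_image.2 ⟨a, h6, rfl⟩))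
        · refine Finset.mem_union_left _ (Finset.mem_filter.2 ⟨Finset.mem_univ _, ⟨h4, ?_⟩, ha, hb⟩)
          intro h6
          exact h5 (Or.inl ⟨h6, ha, hb⟩)
    rw [h2]
    refine (Finset.card_le_card h3).trans ((Finset.card_union_le _ _).trans ?_)
    have h4 := Finset.card_union_le (Z.image (fun u => (w, u))) (Z.image (fun u => (u, w)))
    have h5 : (Z.image (fun u => (w, u))).card ≤ Z.card := Finset.card_image_le
    have h6 : (Z.image (fun u => (u, w))).card ≤ Z.card := Finset.card_image_le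
    omega
  rw [hD]
  omega

/-- a blow-up in the neighbourhood of a vertex -/
theorem hasPlus_of_vertex {G : SimpleGraph V} {q t : ℕ} (w : V)
    {f : Fin (q + 1) → Fin (t + 2) → V}
    (hf : Function.Injective (fun p : Fin (q + 1) × Fin (t + 2) => f p.1 p.2))
    (hadj : ∀ i j, i ≠ j → ∀ a b, G.Adj (f i a) (f j b)) (hw : ∀ i a, G.Adj w (f i a)) :
    HasPlus G q t := by
  obtain ⟨f', h1, h2, h3, h4, -⟩ := blow_update hf hadj ⟨0, by omega⟩ w
    (fun i _ a => hw i a) (fun a => (hw 0 a).ne)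
  refine ⟨f', h1, h2, ⟨0, by omega⟩, ⟨1, by omega⟩, ?_⟩
  rw [h3, h4 ⟨1, by omega⟩ (by simp)]
  exact hw _ _

/-- the sampled, almost complete families -/
theorem two_nat [Finite V] {G G' : SimpleGraph V} {q t K m n₂ : ℕ}
    (hmin : MinDel G G' (q + 2)) (hplus : ¬ HasPlus G q t) (Low : V → Prop)
    (hlow : {v | ¬ Low v}.ncard ≤ n₂) (T : V → V → Prop)
    (hsam : ∀ E : Set V, ∃ X ⊆ E, E.ncard ≤ K * X.ncard ∧ ∀ x ∈ X, ∀ x' ∈ X, T x x')
    (hone : ∀ (a b : V) (M : Set V), G'.Adj a b → Low a → Low b →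
      (∀ w ∈ M, T b w ∧ Low w ∧ ¬ G'.Adj a w) → M.ncard ≤ m) (w : V) :
    dD G G' w ≤ (q + 1) * (n₂ + K ^ (q + 1) * ((q + 1) * (t + 2) * (m + 1))) := by
  classical
  haveI := Fintype.ofFinite V
  haveI : Nonempty V := ⟨w⟩
  let 𝒯 : Set (Finset V) := {A | A.card = q + 1 ∧ (∀ a ∈ A, G.Adj w a) ∧ G'.IsClique (A : Set V)}
  obtain ⟨ℳ, hM1, hM2, hM3, hM4⟩ := exists_maxdisj 𝒯 (q + 1) (fun A hA => hA.1) (by omega)
  have hcover : dD G G' w ≤ (ℳ.biUnion id).card := by
    refine dD_le_of_cover hmin w _ ?_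
    intro A hA
    rw [SimpleGraph.isNClique_iff] at hA
    obtain ⟨hA1, hA2⟩ := hA
    by_cases hw : w ∈ A
    · have h1 : A.erase w ∈ 𝒯 := by
        refine ⟨by rw [Finset.card_erase_of_mem hw, hA2]; rfl, ?_, ?_⟩
        · intro a ha
          obtain ⟨ha1, ha2⟩ := Finset.mem_erase.1 ha
          rcases hA1 hw ha2 (Ne.symm ha1) with ⟨-, h2, -⟩ | ⟨h2, -⟩
          · exact absurd rfl h2
          · exact h2
        · intro a ha b hb hab
          obtain ⟨ha1, ha2⟩ := Finset.mem_erase.1 ha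
          obtain ⟨hb1, hb2⟩ := Finset.mem_erase.1 hb
          rcases hA1 ha2 hb2 hab with ⟨h2, -⟩ | ⟨-, h2 | h2⟩
          · exact h2
          · exact absurd h2.1 ha1
          · exact absurd h2.1 hb1
      obtain ⟨B, hB, hAB⟩ := hM3 _ h1
      apply hAB
      rw [Finset.disjoint_left]
      intro a ha hb
      obtain ⟨ha1, ha2⟩ := Finset.mem_erase.1 ha
      rcases hA1 hw ha2 (Ne.symm ha1) with ⟨-, h2, -⟩ | ⟨-, h2 | h2⟩
      · exact absurd rfl h2
      · exact h2.2 (Finset.mem_coe.2 (Finset.mem_biUnion.2 ⟨B, hB, hb⟩))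
      · exact ha1 h2.1
    · refine hmin.cf A ?_
      rw [SimpleGraph.isNClique_iff]
      refine ⟨?_, hA2⟩
      intro a ha b hb hab
      rcases hA1 ha hb hab with ⟨h2, -⟩ | ⟨-, h2 | h2⟩
      · exact h2
      · exact absurd (h2.1 ▸ ha) hw
      · exact absurd (h2.1 ▸ hb) hw
  -- the members with low vertices
  let ℳ' : Finset (Finset V) := ℳ.filter fun A => ∀ a ∈ A, Low a
  have hM' : ℳ.card ≤ n₂ + ℳ'.card := by
    have h1 : (ℳ.filter fun A => ¬ ∀ a ∈ A, Low a).card ≤ n₂ := by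
      refine le_trans ?_ hlow
      have h2 : ∀ A ∈ (ℳ.filter fun A => ¬ ∀ a ∈ A, Low a), ∃ a, a ∈ A ∧ ¬ Low a := by
        intro A hA
        have h3 := (Finset.mem_filter.1 hA).2
        push Not at h3
        exact h3
      choose! g hg using h2
      have h3 : Set.InjOn g ((ℳ.filter fun A => ¬ ∀ a ∈ A, Low a : Finset (Finset V)) :
          Set (Finset V)) := by
        intro A hA B hB hAB
        by_contra hne
        have h4 := hM2 A (Finset.mem_filter.1 hA).1 B (Finset.mem_filter.1 hB).1 hne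
        have h5 := (hg A hA).1
        have h6 := (hg B hB).1
        rw [hAB] at h5
        exact Finset.disjoint_left.1 h4 h5 h6
      rw [← Set.ncard_coe_finset, ← h3.ncard_image]
      refine Set.ncard_le_ncard ?_ (Set.toFinite _)
      rintro _ ⟨A, hA, rfl⟩
      exact (hg A hA).2
    have h2 := Finset.card_filter_add_card_filter_not (s := ℳ) (fun A => ∀ a ∈ A, Low a)
    have h3 : (ℳ.filter fun A => ∀ a ∈ A, Low a).card = ℳ'.card := rfl
    omega
  -- ordered cliques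
  have hord : ∀ A : Finset V, ∃ e : Fin (q + 1) → V, A.card = q + 1 →
      Function.Injective e ∧ ∀ i, e i ∈ A := by
    intro A
    by_cases hA : A.card = q + 1
    · obtain ⟨g, hg1, hg2⟩ := exists_inj (A : Set V) (q + 1) (by rw [Set.ncard_coe_finset, hA])
      exact ⟨g, fun _ => ⟨hg1, hg2⟩⟩
    · by_cases hV : Nonempty V
      · exact ⟨fun _ => Classical.choice hV, fun h => absurd h hA⟩
      · exact absurd ⟨w⟩ hV
  choose e he using hord
  have hin : ∀ a, Set.InjOn (fun A => e A a) (ℳ' : Set (Finset V)) := by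
    intro a A hA B hB hAB
    by_contra hne
    have hA' := (Finset.mem_filter.1 hA).1
    have hB' := (Finset.mem_filter.1 hB).1
    have h4 := hM2 A hA' B hB' hne
    have h5 := (he A (hM1 A hA').1).2 a
    have h6 := (he B (hM1 B hB').1).2 a
    have h7 : e A a = e B a := hAB
    rw [h7] at h5
    exact Finset.disjoint_left.1 h4 h5 h6
  obtain ⟨I, hI, hIc, hIT⟩ := samp_iter hsam ℳ' (q + 1) (fun a A => e A a) hin
  have hfin : I.card < (q + 1) * (t + 2) * (m + 1) := by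
    by_contra hcon
    rw [not_lt] at hcon
    have hI' : ∀ A ∈ I, A ∈ ℳ ∧ ∀ a ∈ A, Low a := fun A hA => Finset.mem_filter.1 (hI hA)
    obtain ⟨f, hf1, hf2, hf3⟩ := greedy G' (q + 1) (t + 2) m (fun a => (fun A => e A a) '' (I : Set _)) (by
      rintro a b hab _ ⟨A, hA, rfl⟩
      have hA' := hI' A hA
      have hA2 := he A (hM1 A hA'.1).1
      refine hone (e A a) (e A b) _ ?_ (hA'.2 _ (hA2.2 a)) (hA'.2 _ (hA2.2 b)) ?_
      · exact (hM1 A hA'.1).2.2 (hA2.2 a) (hA2.2 b) (fun h => hab.ne (hA2.1 h))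
      · rintro _ ⟨⟨B, hB, rfl⟩, hy⟩
        have hB' := hI' B hB
        exact ⟨hIT b A hA B hB, hB'.2 _ ((he B (hM1 B hB'.1).1).2 b), hy⟩) (by
      intro b
      have h1 : Set.InjOn (fun A => e A b) (I : Set (Finset V)) :=
        (hin b).mono (by exact_mod_cast hI)
      rw [h1.ncard_image, Set.ncard_coe_finset]
      exact hcon)
    refine hplus (hasPlus_of_vertex w hf2 (fun i j hij a b => hmin.le (hf3 i j hij a b)) ?_)
    intro i a
    obtain ⟨A, hA, hA2⟩ := hf1 i a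
    have hA' := hI' A hA
    rw [← hA2]
    exact (hM1 A hA'.1).2.1 _ ((he A (hM1 A hA'.1).1).2 i)
  calc dD G G' w ≤ (ℳ.biUnion id).card := hcover
    _ ≤ (q + 1) * ℳ.card := hM4
    _ ≤ (q + 1) * (n₂ + K ^ (q + 1) * ((q + 1) * (t + 2) * (m + 1))) := by
      refine Nat.mul_le_mul_left _ (hM'.trans (Nat.add_le_add_left ?_ _))
      exact hIc.trans (Nat.mul_le_mul_left _ hfin.le)

/-- (TWO) all `D`-degrees are `O(s)`, `s² = d`; `T` = near twins (abstract) -/
theorem two (q t K : ℕ) (_hq : 1 ≤ q) (C₂ : ℝ) : ∃ C' : ℝ, ∀ (V : Type) [Finite V]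
    (G G' : SimpleGraph V) (s : ℝ)
    (T : V → V → Prop), 1 ≤ s → (df G G' : ℝ) ≤ s ^ 2 → MinDel G G' (q + 2) → ¬ HasPlus G q t →
    (∀ E : Set V, ∃ X ⊆ E, E.ncard ≤ K * X.ncard ∧ ∀ x ∈ X, ∀ x' ∈ X, T x x') →
    (∀ (a b : V) (M : Set V), G'.Adj a b → (dD G G' a : ℝ) ≤ s → (dD G G' b : ℝ) ≤ s →
      (∀ w ∈ M, T b w ∧ (dD G G' w : ℝ) ≤ s ∧ ¬ G'.Adj a w) → (M.ncard : ℝ) ≤ C₂ * s) →
    ∀ w, (dD G G' w : ℝ) ≤ C' * s := by
  refine ⟨(q + 1) * (1 + K ^ (q + 1) * ((q + 1) * (t + 2) * (|C₂| + 1))), ?_⟩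
  intro V _ G G' s T hs hd hmin hplus hsam hone w
  have h1 := two_nat (m := ⌊|C₂| * s⌋₊) (n₂ := ⌊s⌋₊) hmin hplus
    (fun v => (dD G G' v : ℝ) ≤ s) (Nat.le_floor (few_high G G' (by linarith) hd)) T hsam (by
      intro a b M hab ha hb hM
      refine Nat.le_floor ((hone a b M hab ha hb hM).trans ?_)
      exact mul_le_mul_of_nonneg_right (le_abs_self _) (by linarith)) w
  have h2 : (dD G G' w : ℝ) ≤ (q + 1) * ((⌊s⌋₊ : ℝ) + K ^ (q + 1) *
      ((q + 1) * (t + 2) * ((⌊|C₂| * s⌋₊ : ℝ) + 1))) := by exact_mod_cast h1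
  have h3 : (⌊s⌋₊ : ℝ) ≤ s := Nat.floor_le (by linarith)
  have h4 : (⌊|C₂| * s⌋₊ : ℝ) ≤ |C₂| * s := Nat.floor_le (by positivity)
  calc (dD G G' w : ℝ) ≤ _ := h2
    _ ≤ (q + 1) * (s + K ^ (q + 1) * ((q + 1) * (t + 2) * (|C₂| * s + s))) := by gcongr
    _ = _ := by ring

end Pool.Agent.WTG
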