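import Pool.Agent.WTG.One
import Pool.Agent.WTG.Two
import Pool.Agent.WTG.Three
import Pool.Agent.WTG.Samp2
import Pool.Agent.WTG.Four
import Pool.Agent.WTG.PropK
import Pool.Agent.WTG.Cross

/-!
# [WTG-Dbound] assembly: the deletion number of tight graphs is bounded (helper57)
-/

set_option autoImplicit false

namespace Pool.Agent.WTG

open Pool.Agent.WT7 Pool.Agent.WTE

variable {α β V : Type}

/-- sampling for tight graphs -/
theorem sampTS [Finite α] [Nonempty α] {q t : ℕ} (hq : 1 ≤ q) {H : SimpleGraph α} (hH : H.Colorable 2) (hI : NoIso H)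
    {κ : ℝ} (hκ : 0 < κ) : ∃ K n₀ : ℕ, 0 < K ∧ ∀ (V : Type) [Finite V], n₀ ≤ Nat.card V → ∀ G : SimpleGraph V,
      TS q t H G → ∀ E : Set V, ∃ X ⊆ E, E.ncard ≤ K * X.ncard ∧ ∀ x ∈ X, ∀ x' ∈ X, Nt G κ x x' := by
  obtain ⟨δ, hδ, n₁, h1⟩ := propPK (t := t) hq hH hI (ρ := κ / 24) (by positivity)
  obtain ⟨η, K, n₂, hη, hK, h2⟩ := sampK q hq hδ hκ
  obtain ⟨n₃, h3⟩ := fewk q t hη
  refine ⟨K, n₁ + n₂ + n₃, hK, ?_⟩
  intro V _ hn G hG E
  exact h2 V (by omega) G (fun u => h1 V (by omega) G hG u) (fun u => h3 V (by omega) G hG.noplus u) E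

theorem nt_symm {G : SimpleGraph V} {κ : ℝ} {x y : V} (h : Nt G κ x y) : Nt G κ y x := by
  unfold Nt at h ⊢
  rwa [symmDiff_comm]

theorem nt_refl (G : SimpleGraph V) {κ : ℝ} (hκ : 0 ≤ κ) (x : V) : Nt G κ x x := by
  unfold Nt
  rw [symmDiff_self, Set.bot_eq_empty, Set.ncard_empty]
  simp only [Nat.cast_zero]
  positivity

theorem nt_mono {G : SimpleGraph V} {κ κ' : ℝ} (hκ : κ ≤ κ') {x y : V} (h : Nt G κ x y) : Nt G κ' x y :=
  le_trans h (mul_le_mul_of_nonneg_right hκ (Nat.cast_nonneg _))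

theorem nt_trans [Finite V] {G : SimpleGraph V} {κ : ℝ} {x y z : V} (h : Nt G (κ / 2) x y) (h' : Nt G (κ / 2) y z) :
    Nt G κ x z := by
  unfold Nt at h h' ⊢
  have h1 : symmDiff (G.neighborSet x) (G.neighborSet z) ⊆
      symmDiff (G.neighborSet x) (G.neighborSet y) ∪ symmDiff (G.neighborSet y) (G.neighborSet z) := by
    exact symmDiff_triangle _ _ _
  have h2 : ((symmDiff (G.neighborSet x) (G.neighborSet z)).ncard : ℝ) ≤
      (symmDiff (G.neighborSet x) (G.neighborSet y)).ncard + (symmDiff (G.neighborSet y) (G.neighborSet z)).ncard := by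
    exact_mod_cast (Set.ncard_le_ncard h1 (Set.toFinite _)).trans (Set.ncard_union_le _ _)
  linarith

/-- (DBOUND) -/
theorem dbound [Finite α] [Nonempty α] {q t : ℕ} (hq : 1 ≤ q) {H : SimpleGraph α} (hH : H.Colorable 2) (hI : NoIso H) :
    ∃ d₀ n₀ : ℕ, ∀ (V : Type) [Finite V], n₀ ≤ Nat.card V → ∀ G : SimpleGraph V, TS q t H G →
      ∃ G' ≤ G, G'.CliqueFree (q + 2) ∧ df G G' ≤ d₀ := by
  obtain ⟨κ, hκ, ⟨n₁, hNN⟩, hone⟩ := one' (t := t) hq hH hI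
  have hκ2 : 0 < κ / 2 := by linarith
  obtain ⟨K, n₂, hK, hsam⟩ := sampTS (t := t) hq hH hI hκ2
  obtain ⟨C₂, n₃, h1⟩ := hone 1
  obtain ⟨C', h2⟩ := two q t K hq C₂
  obtain ⟨C₃, n₄, h3⟩ := hone C'
  obtain ⟨A, h4⟩ := three q t K hq C' C₃ C₃
  obtain ⟨s₀, h5⟩ := four q t K hq C' C₃ A
  obtain ⟨n₅, h6⟩ := remd q t one_pos
  refine ⟨⌈(max s₀ 1) ^ 2⌉₊, n₁ + n₂ + n₃ + n₄ + n₅, ?_⟩
  intro V _ hn G hG
  obtain ⟨G', hmin, -⟩ := h6 V (by omega) G hG.noplus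
  refine ⟨G', hmin.le, hmin.cf, ?_⟩
  set s : ℝ := Real.sqrt (df G G') with hsdef
  have hdf : (df G G' : ℝ) = s ^ 2 := (Real.sq_sqrt (Nat.cast_nonneg _)).symm
  have hs0 : 0 ≤ s := Real.sqrt_nonneg _
  have key : s ≤ max s₀ 1 := by
    by_cases hs : s < 1
    · exact hs.le.trans (le_max_right _ _)
    push Not at hs
    have hsam' := hsam V (by omega) G hG
    obtain ⟨g1, -⟩ := h1 V (by omega) G G' hG hmin s hs hdf
    have g2 : ∀ w, (dD G G' w : ℝ) ≤ C' * s := by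
      refine h2 V G G' s (Nt G (κ / 2)) hs hdf.le hmin hG.noplus hsam' ?_
      intro a b M hab ha hb hM
      refine g1 a b M hab (by rwa [one_mul]) (by rwa [one_mul]) ?_
      intro w hw
      obtain ⟨e1, e2, e3⟩ := hM w hw
      exact ⟨nt_mono (by linarith) e1, by rwa [one_mul], e3⟩
    obtain ⟨g3, g4⟩ := h3 V (by omega) G G' hG hmin s hs hdf
    have g3' : ∀ (a b : V) (M : Set V), G'.Adj a b → (∀ w ∈ M, Nt G κ b w ∧ ¬ G'.Adj a w) → (M.ncard : ℝ) ≤ C₃ * s := by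
      intro a b M hab hM
      exact g3 a b M hab (g2 a) (g2 b) fun w hw => ⟨(hM w hw).1, g2 w, (hM w hw).2⟩
    have g5 : ∀ x, 0 < dD G G' x → (({w | Nt G (κ / 2) x w}.ncard : ℕ) : ℝ) < A * s := by
      refine h4 V G G' s (Nt G (κ / 2)) hs hmin hG.noplus g2 (fun x y h => nt_symm h) ?_ hsam' ?_ ?_
      · intro x y h
        exact hNN V (by omega) G hG x y (nt_mono (by linarith) h)
      · intro a b M hab hM
        exact g3' a b M hab fun w hw => ⟨nt_mono (by linarith) (hM w hw).1, (hM w hw).2⟩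
      · intro x y M Z hxy hxy' hM hxZ hyZ hZ
        exact g4 g2 x y M Z hxy hxy' (fun w hw => ⟨nt_mono (by linarith) (hM w hw).1, (hM w hw).2⟩) hxZ hyZ hZ
    refine (h5 V G G' s (Nt G (κ / 2)) (Nt G κ) hs hdf hmin hG.noplus (nt_refl G hκ2.le) (fun x y h => nt_symm h)
      (fun x y z h h' => nt_trans h h') hsam' g3' g5).trans (le_max_left _ _)
  have h7 : (df G G' : ℝ) ≤ (max s₀ 1) ^ 2 := by
    rw [hdf]
    exact pow_le_pow_left₀ hs0 key 2
  have h8 : (df G G' : ℝ) ≤ ((⌈(max s₀ 1) ^ 2⌉₊ : ℕ) : ℝ) := h7.trans (Nat.le_ceil _)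
  exact_mod_cast h8

end Pool.Agent.WTG
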