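import Pool.Agent.WTG.Dgl
import Pool.Agent.WTE.Move
import Pool.Agent.WT7.KGrow
import Pool.Agent.WT7.DegL
import Pool.Agent.WT7.Loss

/-!
# (AVG) the numbers `dg` in `G'` are at most those of the tight graph `G` plus `O(s n^(h-2))`
-/

set_option autoImplicit false

namespace Pool.Agent.WTG

open Pool.Agent.WT7 Pool.Agent.WTE

variable {α β V : Type}

private theorem avg_top (q : ℕ) : ∃ a b, (⊤ : SimpleGraph (Fin (q + 2))).Adj a b :=
  ⟨⟨0, by omega⟩, ⟨1, by omega⟩, by simp [SimpleGraph.top_adj]⟩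

theorem avg_free {k : ℕ} {G : SimpleGraph V} (h : G.CliqueFree k) : (⊤ : SimpleGraph (Fin k)).Free G := by
  rintro ⟨φ⟩
  exact (SimpleGraph.cliqueFree_iff.1 h).false φ

theorem avg_inj_le [Finite α] [Finite V] (H : SimpleGraph α) {q : ℕ} {G : SimpleGraph V} (h : G.CliqueFree (q + 2)) :
    inj H G ≤ aK q H (Nat.card V) := inj_le_bF H _ (avg_free h)

/-- moving to clones does not create larger cliques -/
theorem avg_mv {k : ℕ} {Γ : SimpleGraph V} (h : Γ.CliqueFree k) (M : Set V) (x : V) :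
    (Mv Γ M (Γ.neighborSet x)).CliqueFree k := by
  classical
  rw [SimpleGraph.cliqueFree_iff] at h ⊢
  refine ⟨fun φ => h.false ?_⟩
  have hadj : ∀ a b : Fin k, a ≠ b → Γ.Adj (if φ a ∈ M then x else φ a) (if φ b ∈ M then x else φ b) := by
    intro a b hab
    have h1 : (Mv Γ M (Γ.neighborSet x)).Adj (φ a) (φ b) := φ.toHom.map_adj (by
      show (⊤ : SimpleGraph (Fin k)).Adj a b
      rw [SimpleGraph.top_adj]
      exact hab)
    rcases h1 with h1 | h1 | h1
    · rw [if_neg h1.1, if_neg h1.2.1]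
      exact h1.2.2
    · rw [if_pos h1.1, if_neg h1.2.1]
      exact h1.2.2
    · rw [if_neg h1.1, if_pos h1.2.1]
      exact (show Γ.Adj x (φ a) from h1.2.2).symm
  refine ⟨⟨fun a => if φ a ∈ M then x else φ a, ?_⟩, ?_⟩
  · intro a b hab
    exact hadj a b (by
      rintro rfl
      exact hab.ne rfl)
  · intro a b hab
    by_contra hne
    have h2 := hadj a b hne
    have hab' : (if φ a ∈ M then x else φ a) = (if φ b ∈ M then x else φ b) := hab
    rw [hab'] at h2
    exact h2.ne rfl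

theorem avg_exists_dg_le [Finite α] [Finite V] [Nonempty V] (H : SimpleGraph α) (G : SimpleGraph V) :
    ∃ v, Nat.card V * dg H G v ≤ Nat.card α * inj H G := by
  have := Fintype.ofFinite V
  by_contra hcon
  push Not at hcon
  have h1 : ∑ _v : V, Nat.card α * inj H G < ∑ v : V, Nat.card V * dg H G v :=
    Finset.sum_lt_sum_of_nonempty Finset.univ_nonempty fun v _ => hcon v
  have e1 : ∑ v : V, Nat.card V * dg H G v = Nat.card V * (Nat.card α * inj H G) := by
    rw [← Finset.mul_sum, sum_dg]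
  have e2 : ∑ _v : V, Nat.card α * inj H G = Nat.card V * (Nat.card α * inj H G) := by
    rw [Finset.sum_const, Finset.card_univ, smul_eq_mul, Nat.card_eq_fintype_card (α := V)]
  rw [e1, e2] at h1
  exact lt_irrefl _ h1

/-- `n a(n) ≤ n a(n-1) + h a(n)` -/
theorem avg_down [Finite α] (H : SimpleGraph α) (q : ℕ) {n : ℕ} (hn : 1 ≤ n) :
    n * aK q H n ≤ n * aK q H (n - 1) + Nat.card α * aK q H n := by
  obtain ⟨G, hG, hG3⟩ := exists_bF H (avg_top q) n
  have : Nonempty (Fin n) := ⟨⟨0, hn⟩⟩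
  obtain ⟨v, hv⟩ := avg_exists_dg_le H G
  have h1 := bF_step H hG v
  rw [Nat.card_fin] at h1 hv
  rw [hG3] at h1 hv
  change aK q H n ≤ aK q H (n - 1) + dg H G v at h1
  change n * dg H G v ≤ Nat.card α * aK q H n at hv
  calc n * aK q H n ≤ n * (aK q H (n - 1) + dg H G v) := Nat.mul_le_mul_left _ h1
    _ = n * aK q H (n - 1) + n * dg H G v := by ring
    _ ≤ _ := Nat.add_le_add_left hv _

theorem avg_le_pow [Finite α] (H : SimpleGraph α) (q n : ℕ) : aK q H n ≤ n ^ Nat.card α := by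
  obtain ⟨G, hG, hG3⟩ := exists_bF H (avg_top q) n
  have h1 := (inj_le_hom H G).trans (hom_le_pow H G)
  rw [hG3, Nat.card_fin] at h1
  exact h1

/-- the arithmetic of (T) -/
theorem avg_arith {h N A A₁ P s m : ℝ} (hh : 2 ≤ h) (hN : 8 ≤ N) (hA0 : 0 ≤ A) (hP : 0 ≤ P)
    (hA : A ≤ N ^ 2 * P) (h4 : (N - 1 + h) * A₁ ≤ (N - 1) * A) (h5 : N * A ≤ N * A₁ + h * A)
    (hs : 1 ≤ s) (hm0 : 0 ≤ m) (hm : m ≤ 2 * s) (hm4 : 4 * m ≤ N) :
    h * A / (N - 1 - m) ≤ (A - A₁) + (8 * h + 2 * h ^ 2) * s * P := by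
  have hN0 : 0 < N := by linarith
  have hN1 : 0 < N - 1 := by linarith
  have hN2 : 0 < N - 1 - m := by linarith
  have hhA : 0 ≤ h * A := by positivity
  -- (i)
  have e1 : h * A / (N - 1 - m) = h * A / (N - 1) + h * A * m / ((N - 1 - m) * (N - 1)) := by
    field_simp
    ring
  have e2 : h * A * m / ((N - 1 - m) * (N - 1)) ≤ h * A * m * 4 / N ^ 2 := by
    rw [div_le_div_iff₀ (by positivity) (by positivity)]
    have h6 : N ^ 2 ≤ 4 * ((N - 1 - m) * (N - 1)) := by
      have h7 : N / 2 ≤ N - 1 - m := by linarith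
      have h8 : N / 2 ≤ N - 1 := by linarith
      nlinarith [mul_le_mul h7 h8 (by linarith) hN2.le]
    have h9 : 0 ≤ h * A * m := by positivity
    nlinarith [mul_le_mul_of_nonneg_left h6 h9]
  have e3 : h * A * m * 4 / N ^ 2 ≤ 4 * h * m * P := by
    rw [div_le_iff₀ (by positivity)]
    have h9 : 0 ≤ h * m * 4 := by positivity
    nlinarith [mul_le_mul_of_nonneg_left hA h9]
  have e4 : 4 * h * m * P ≤ 8 * h * s * P := by
    have h9 : 0 ≤ 4 * h * P := by positivity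
    nlinarith [mul_le_mul_of_nonneg_left hm h9]
  -- (ii)
  have e5 : h * A / (N - 1) ≤ (A - A₁) + h * (h * A) / (N * (N - 1)) := by
    have h10 : h * A - h * (h * A) / N ≤ (N - 1) * (A - A₁) := by
      have h11 : A - h * A / N ≤ A₁ := by
        rw [sub_le_iff_le_add, ← sub_le_iff_le_add']
        rw [le_div_iff₀ hN0]
        linarith
      have h12 : h * (A - h * A / N) ≤ h * A₁ := mul_le_mul_of_nonneg_left h11 (by linarith)
      have h13 : h * (A - h * A / N) = h * A - h * (h * A) / N := by ring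
      linarith
    have h14 : h * A / (N - 1) - h * (h * A) / (N * (N - 1)) = (h * A - h * (h * A) / N) / (N - 1) := by
      field_simp
    have h15 : (h * A - h * (h * A) / N) / (N - 1) ≤ A - A₁ := by
      rw [div_le_iff₀ hN1]
      linarith
    linarith
  have e6 : h * (h * A) / (N * (N - 1)) ≤ 2 * h ^ 2 * P := by
    rw [div_le_iff₀ (by positivity)]
    have h16 : A ≤ 2 * P * (N * (N - 1)) := by
      have h17 : N ^ 2 ≤ 2 * (N * (N - 1)) := by nlinarith
      have h18 := mul_le_mul_of_nonneg_right h17 hP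
      linarith
    have h19 := mul_le_mul_of_nonneg_left h16 (show 0 ≤ h ^ 2 by positivity)
    nlinarith
  have e7 : 2 * h ^ 2 * P ≤ 2 * h ^ 2 * s * P := by
    have h20 : 0 ≤ 2 * h ^ 2 * P := by positivity
    nlinarith
  calc h * A / (N - 1 - m) = h * A / (N - 1) + h * A * m / ((N - 1 - m) * (N - 1)) := e1
    _ ≤ ((A - A₁) + 2 * h ^ 2 * s * P) + 8 * h * s * P := by linarith
    _ = _ := by ring

/-- (AVG) the numbers `dg` in `G'` are at most those of `G` plus `O(s n^(h-2))`, `s² = d`, for tight `G` -/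
theorem avg [Finite α] [Nonempty α] {q : ℕ} (hq : 1 ≤ q) {H : SimpleGraph α} (hH : H.Colorable 2) (hI : NoIso H) :
    ∃ (C₁ : ℝ) (n₀ : ℕ), 0 ≤ C₁ ∧ ∀ (V : Type) [Finite V], n₀ ≤ Nat.card V → ∀ (G G' : SimpleGraph V) (t : ℕ), TS q t H G →
      G' ≤ G → G'.CliqueFree (q + 2) → ∀ s : ℝ, 1 ≤ s → (df G G' : ℝ) = s ^ 2 → ∀ v w,
        (dg H G' v : ℝ) ≤ dg H G w + C₁ * s * (Nat.card V : ℝ) ^ (Nat.card α - 2) := by
  classical
  have hc2 : 2 ≤ Nat.card α := two_le_card hI
  obtain ⟨h, hh⟩ : ∃ h : ℝ, h = (Nat.card α : ℝ) := ⟨_, rfl⟩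
  have hh2 : 2 ≤ h := by rw [hh]; exact_mod_cast hc2
  refine ⟨3 * h ^ 2 + (8 * h + 2 * h ^ 2) + 8 * h, 8, by positivity, ?_⟩
  intro V _ hV G G' t hTS _ hcf s hs hd v w
  have := Fintype.ofFinite V
  have hne : Nonempty V := ⟨v⟩
  obtain ⟨N, hN⟩ : ∃ N : ℝ, N = (Nat.card V : ℝ) := ⟨_, rfl⟩
  have hN8 : 8 ≤ N := by rw [hN]; exact_mod_cast hV
  obtain ⟨P, hP⟩ : ∃ P : ℝ, P = (Nat.card V : ℝ) ^ (Nat.card α - 2) := ⟨_, rfl⟩
  have hP0 : 0 ≤ P := by rw [hP]; positivity
  rw [← hP]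
  have hdw : (0 : ℝ) ≤ dg H G w := Nat.cast_nonneg _
  -- the trivial case
  by_cases hcase : N ≤ 8 * s
  · have h1 := dg_le hI G' v
    have h2 : (G'.neighborSet v).ncard ≤ Nat.card V := by
      rw [← Set.ncard_univ]
      exact Set.ncard_le_ncard (Set.subset_univ _) (Set.toFinite _)
    have h3 : dg H G' v ≤ Nat.card α * (Nat.card V * Nat.card V ^ (Nat.card α - 2)) :=
      h1.trans (Nat.mul_le_mul_left _ (Nat.mul_le_mul_right _ h2))
    have h4 : (dg H G' v : ℝ) ≤ h * (N * P) := by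
      rw [hh, hN, hP]
      exact_mod_cast h3
    have h5 : h * (N * P) ≤ h * (8 * s * P) :=
      mul_le_mul_of_nonneg_left (mul_le_mul_of_nonneg_right hcase hP0) (by linarith)
    have h6 : 0 ≤ (3 * h ^ 2 + (8 * h + 2 * h ^ 2)) * s * P := by positivity
    nlinarith
  push Not at hcase
  -- the numbers
  obtain ⟨A, hA⟩ : ∃ A : ℝ, A = (aK q H (Nat.card V) : ℝ) := ⟨_, rfl⟩
  obtain ⟨A₁, hA₁⟩ : ∃ A₁ : ℝ, A₁ = (aK q H (Nat.card V - 1) : ℝ) := ⟨_, rfl⟩
  have hA0 : 0 ≤ A := by rw [hA]; exact Nat.cast_nonneg _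
  have F1 : (inj H G' : ℝ) ≤ A := by rw [hA]; exact_mod_cast avg_inj_le H hcf
  have F2 : A ≤ inj H G' + h ^ 2 * (s ^ 2 * P) := by
    have h1 := hTS.inj.trans (inj_le_add_df H G G')
    have h2 : (aK q H (Nat.card V) : ℝ) ≤
        ((inj H G' + Nat.card α ^ 2 * (df G G' * Nat.card V ^ (Nat.card α - 2)) : ℕ) : ℝ) := by exact_mod_cast h1
    push_cast at h2
    rw [hd, ← hA, ← hP, ← hh] at h2
    exact h2
  have F3 : A - A₁ ≤ dg H G w := by
    have h1 := hTS.deg w
    have h2 : (aK q H (Nat.card V) : ℝ) ≤ ((aK q H (Nat.card V - 1) + dg H G w : ℕ) : ℝ) := by exact_mod_cast h1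
    push_cast at h2
    rw [← hA, ← hA₁] at h2
    linarith
  have hV1 : ((Nat.card V - 1 : ℕ) : ℝ) = N - 1 := by
    rw [Nat.cast_sub (by omega), hN]
    push_cast
    ring
  have F4 : (N - 1 + h) * A₁ ≤ (N - 1) * A := by
    have h1 := k_step H (k := q + 2) (by omega) (n := Nat.card V - 1) (by omega)
    have h2 : Nat.card V - 1 + 1 = Nat.card V := by omega
    rw [h2] at h1
    change (Nat.card V - 1 + Nat.card α) * aK q H (Nat.card V - 1) ≤ (Nat.card V - 1) * aK q H (Nat.card V) at h1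
    have h3 : (((Nat.card V - 1 + Nat.card α) * aK q H (Nat.card V - 1) : ℕ) : ℝ) ≤
        (((Nat.card V - 1) * aK q H (Nat.card V) : ℕ) : ℝ) := by exact_mod_cast h1
    push_cast [hV1] at h3
    rw [← hA, ← hA₁, ← hh] at h3
    exact h3
  have F5 : N * A ≤ N * A₁ + h * A := by
    have h1 := avg_down H q (n := Nat.card V) (by omega)
    have h3 : ((Nat.card V * aK q H (Nat.card V) : ℕ) : ℝ) ≤
        ((Nat.card V * aK q H (Nat.card V - 1) + Nat.card α * aK q H (Nat.card V) : ℕ) : ℝ) := by exact_mod_cast h1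
    push_cast at h3
    rw [← hA, ← hA₁, ← hh, ← hN] at h3
    exact h3
  have F6 : A ≤ N ^ 2 * P := by
    have h1 := avg_le_pow H q (Nat.card V)
    have h2 : Nat.card V ^ Nat.card α = Nat.card V ^ 2 * Nat.card V ^ (Nat.card α - 2) := by
      rw [← pow_add]
      congr 1
      omega
    rw [h2] at h1
    have h3 : (aK q H (Nat.card V) : ℝ) ≤ ((Nat.card V ^ 2 * Nat.card V ^ (Nat.card α - 2) : ℕ) : ℝ) := by exact_mod_cast h1
    push_cast at h3
    rw [← hA, ← hP, ← hN] at h3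
    exact h3
  -- the number of moved vertices
  obtain ⟨m, hm⟩ : ∃ m : ℕ, m = ⌈s⌉₊ := ⟨_, rfl⟩
  have hms : s ≤ m := by rw [hm]; exact Nat.le_ceil s
  have hms2 : (m : ℝ) ≤ 2 * s := by
    have h1 := Nat.ceil_lt_add_one (show 0 ≤ s by linarith)
    rw [← hm] at h1
    linarith
  have hm4 : 4 * (m : ℝ) ≤ N := by linarith
  have hm0 : (0 : ℝ) < m := by linarith
  have harith := avg_arith hh2 hN8 hA0 hP0 F6 F4 F5 hs hm0.le hms2 hm4
  obtain ⟨B, hB⟩ : ∃ B : ℝ, B = h * A / (N - 1 - m) := ⟨_, rfl⟩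
  rw [← hB] at harith
  have hden : 0 < N - 1 - m := by linarith
  have hB0 : 0 ≤ B := by rw [hB]; positivity
  -- many vertices with small `dg`
  set S : Set V := {u | u ≠ v ∧ (dg H G' u : ℝ) ≤ B} with hS
  have hSm : m ≤ S.ncard := by
    by_contra hcon
    push Not at hcon
    have h1 : ∑ u : V, (dg H G' u : ℝ) = h * inj H G' := by
      have h2 := sum_dg H G'
      have h3 : ((∑ u : V, dg H G' u : ℕ) : ℝ) = ((Nat.card α * inj H G' : ℕ) : ℝ) := by rw [h2]
      push_cast at h3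
      rw [← hh] at h3
      exact h3
    set R : Finset V := Finset.univ.filter (fun u => u ≠ v ∧ ¬ (dg H G' u : ℝ) ≤ B) with hR
    have h4 : (R.card : ℝ) * B ≤ ∑ u ∈ R, (dg H G' u : ℝ) := by
      rw [← nsmul_eq_mul]
      refine Finset.card_nsmul_le_sum _ _ _ fun u hu => ?_
      have := (Finset.mem_filter.1 hu).2.2
      exact (not_le.1 this).le
    have hRne : (N - 1 - m) + 1 ≤ R.card := by
      have h5 : Nat.card V ≤ R.card + S.ncard + 1 := by
        have h6 : (Set.univ : Set V) ⊆ (R : Set V) ∪ (S ∪ {v}) := by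
          intro u _
          by_cases huv : u = v
          · exact Or.inr (Or.inr huv)
          · by_cases hu : (dg H G' u : ℝ) ≤ B
            · exact Or.inr (Or.inl ⟨huv, hu⟩)
            · refine Or.inl ?_
              rw [Finset.mem_coe, hR, Finset.mem_filter]
              exact ⟨Finset.mem_univ _, huv, hu⟩
        have h7 := Set.ncard_le_ncard h6 (Set.toFinite _)
        have h8 := Set.ncard_union_le (R : Set V) (S ∪ {v})
        have h9 := Set.ncard_union_le S {v}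
        rw [Set.ncard_univ] at h7
        rw [Set.ncard_coe_finset] at h8
        rw [Set.ncard_singleton] at h9
        omega
      have h10 : Nat.card V ≤ R.card + m := by omega
      have h11 : (Nat.card V : ℝ) ≤ R.card + m := by exact_mod_cast h10
      rw [← hN] at h11
      linarith
    have h12 : ∑ u ∈ R, (dg H G' u : ℝ) ≤ ∑ u : V, (dg H G' u : ℝ) :=
      Finset.sum_le_sum_of_subset_of_nonneg (Finset.subset_univ _) fun u _ _ => Nat.cast_nonneg _
    have h13 : (N - 1 - m) * B = h * A := by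
      rw [hB]
      field_simp
    have hRpos : 0 < R.card := by
      have h14 : (0 : ℝ) < R.card := by linarith
      exact_mod_cast h14
    have h15 : (R.card : ℝ) * B < ∑ u ∈ R, (dg H G' u : ℝ) := by
      rw [← nsmul_eq_mul, ← Finset.sum_const]
      refine Finset.sum_lt_sum_of_nonempty (Finset.card_pos.1 hRpos) fun u hu => ?_
      exact not_le.1 (Finset.mem_filter.1 hu).2.2
    have h16 : (N - 1 - m) * B ≤ R.card * B := mul_le_mul_of_nonneg_right (by linarith) hB0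
    have h17 : h * (inj H G' : ℝ) ≤ h * A := mul_le_mul_of_nonneg_left F1 (by linarith)
    linarith
  obtain ⟨M, hMS, hMc⟩ := Set.exists_subset_card_eq hSm
  have hvM : v ∉ M := fun hv => (hMS hv).1 rfl
  have hmove := move H G' M v hvM ⌊B⌋₊ (fun u hu => Nat.le_floor (hMS hu).2)
  have hle := avg_inj_le H (avg_mv hcf M v)
  rw [hMc] at hmove
  have h1 : inj H G' + m * dg H G' v ≤ aK q H (Nat.card V) + m * ⌊B⌋₊ +
      Nat.card α ^ 2 * (m ^ 2 * Nat.card V ^ (Nat.card α - 2)) := by omega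
  have h2 : ((inj H G' + m * dg H G' v : ℕ) : ℝ) ≤ ((aK q H (Nat.card V) + m * ⌊B⌋₊ +
      Nat.card α ^ 2 * (m ^ 2 * Nat.card V ^ (Nat.card α - 2)) : ℕ) : ℝ) := by exact_mod_cast h1
  push_cast at h2
  rw [← hA, ← hP, ← hh] at h2
  have h3 := mul_le_mul_of_nonneg_left (Nat.floor_le hB0) hm0.le
  have h4 : (m : ℝ) * dg H G' v ≤ m * (B + 3 * h ^ 2 * s * P) := by
    have h5 : h ^ 2 * (s ^ 2 * P) ≤ m * (h ^ 2 * s * P) := by
      have h6 : 0 ≤ h ^ 2 * s * P := by positivity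
      have h7 := mul_le_mul_of_nonneg_right hms h6
      calc h ^ 2 * (s ^ 2 * P) = s * (h ^ 2 * s * P) := by ring
        _ ≤ _ := h7
    have h8 : h ^ 2 * ((m : ℝ) ^ 2 * P) ≤ m * (2 * h ^ 2 * s * P) := by
      have h6 : 0 ≤ (m : ℝ) * (h ^ 2 * P) := by positivity
      have h7 := mul_le_mul_of_nonneg_left hms2 h6
      calc h ^ 2 * ((m : ℝ) ^ 2 * P) = (m : ℝ) * (h ^ 2 * P) * m := by ring
        _ ≤ (m : ℝ) * (h ^ 2 * P) * (2 * s) := h7
        _ = _ := by ring
    calc (m : ℝ) * dg H G' v ≤ (A - inj H G') + m * B + h ^ 2 * ((m : ℝ) ^ 2 * P) := by linarith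
      _ ≤ h ^ 2 * (s ^ 2 * P) + m * B + h ^ 2 * ((m : ℝ) ^ 2 * P) := by linarith
      _ ≤ m * (h ^ 2 * s * P) + m * B + m * (2 * h ^ 2 * s * P) := by linarith
      _ = _ := by ring
  have h9 : (dg H G' v : ℝ) ≤ B + 3 * h ^ 2 * s * P := le_of_mul_le_mul_left h4 hm0
  have h10 : 0 ≤ 8 * h * s * P := by positivity
  calc (dg H G' v : ℝ) ≤ B + 3 * h ^ 2 * s * P := h9
    _ ≤ ((A - A₁) + (8 * h + 2 * h ^ 2) * s * P) + 3 * h ^ 2 * s * P := by linarith
    _ ≤ dg H G w + (3 * h ^ 2 + (8 * h + 2 * h ^ 2) + 8 * h) * s * P := by nlinarith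

end Pool.Agent.WTG
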