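import Pool.Agent.WTG.Defs

/-!
# [WTG-Core2] moves of vertices to clones, for every base graph (helper93)

`mv_cf`: clones do not create larger cliques. `core2`: the number of copies after the two moves (from WTE.Core of helper1). `upz`: the graph after the two moves from
`G' + xy` can be made `K_k`-free by deleting the pairs between `M ∪ {x}` and `Z`.
-/

set_option autoImplicit false

namespace Pool.Agent.WTG

open Pool.Agent.WT7 Pool.Agent.WTE

variable {α β V : Type}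

open Classical in
/-- the projection of the clones -/
noncomputable def prj (M : Set V) (x : V) (a : V) : V := if a ∈ M then x else a

theorem prj_in {M : Set V} {x a : V} (h : a ∈ M) : prj M x a = x := if_pos h

theorem prj_out {M : Set V} {x a : V} (h : a ∉ M) : prj M x a = a := if_neg h

/-- the projection is a homomorphism -/
theorem prj_adj (Γ : SimpleGraph V) (M : Set V) (x : V) {a b : V} (h : (Mv Γ M (Γ.neighborSet x)).Adj a b) :
    Γ.Adj (prj M x a) (prj M x b) := by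
  rcases h with ⟨ha, hb, h⟩ | ⟨ha, hb, h⟩ | ⟨ha, hb, h⟩
  · rwa [prj_out ha, prj_out hb]
  · rw [prj_in ha, prj_out hb]
    exact h
  · rw [prj_out ha, prj_in hb]
    exact SimpleGraph.Adj.symm h

/-- images of cliques under homomorphisms are cliques of the same size -/
theorem clique_image {W : Type} [DecidableEq W] {Γ : SimpleGraph V} {Γ' : SimpleGraph W} (φ : V → W)
    (hφ : ∀ a b, Γ.Adj a b → Γ'.Adj (φ a) (φ b)) {k : ℕ} {s : Finset V} (hs : Γ.IsNClique k s) :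
    Γ'.IsNClique k (s.image φ) := by
  classical
  have hadj : ∀ a ∈ s, ∀ b ∈ s, a ≠ b → Γ'.Adj (φ a) (φ b) := fun a ha b hb hab => hφ a b (hs.1 ha hb hab)
  refine ⟨?_, ?_⟩
  · intro a ha b hb hab
    rw [Finset.mem_coe, Finset.mem_image] at ha hb
    obtain ⟨a', ha', rfl⟩ := ha
    obtain ⟨b', hb', rfl⟩ := hb
    exact hadj a' ha' b' hb' fun h => hab (by rw [h])
  · rw [Finset.card_image_of_injOn, hs.2]
    intro a ha b hb hab
    by_contra hne
    exact (hadj a ha b hb hne).ne hab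

/-- (MVCF) clones do not create larger cliques -/
theorem mv_cf {k : ℕ} {Γ : SimpleGraph V} (h : Γ.CliqueFree k) (M : Set V) (x : V) (_hx : x ∉ M) :
    (Mv Γ M (Γ.neighborSet x)).CliqueFree k := by
  classical
  intro s hs
  exact h _ (clique_image (prj M x) (fun a b hab => prj_adj Γ M x hab) hs)

/-- (CORE2) the two moves, for any base graph -/
theorem core2 [Finite α] [Finite V] (H : SimpleGraph α) (χ : α → Bool) (hχ : ∀ x y, H.Adj x y → χ x ≠ χ y)
    (a₀ b₀ : α) (hab : H.Adj a₀ b₀) (h₀ : χ a₀ = true) (Γ : SimpleGraph V)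
    (x y : V) (hxy : Γ.Adj x y) (M M' : Set V) (hdis : Disjoint M M')
    (hxM : x ∉ M) (hyM : y ∉ M) (hyM' : y ∉ M') (hMx : ∀ w ∈ M, ¬ Γ.Adj w x) (hMx' : ∀ w ∈ M', ¬ Γ.Adj w x)
    (hMy : ∀ w ∈ M, ¬ Γ.Adj w y) (K : ℕ)
    (hK : ∀ w ∈ M, (symmDiff (Γ.neighborSet w) (Γ.neighborSet x)).ncard ≤ K) {κ : ℝ} (hκ : (K : ℝ) ≤ κ * Nat.card V)
    (hκ0 : 0 ≤ κ) {Δ : ℝ} (hΔx : ∀ v, (dg H Γ v : ℝ) ≤ dg H Γ x + Δ) (hΔy : ∀ v, (dg H Γ v : ℝ) ≤ dg H Γ y + Δ) {c : ℝ}
    (hc : c * (Nat.card V : ℝ) ^ (Nat.card α - 2) ≤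
      ((DS χ a₀ b₀ Γ (Γ.neighborSet y) (Γ.neighborSet x) y).ncard : ℝ)) :
    (inj H Γ : ℝ) + (M'.ncard : ℝ) * M.ncard * (c * (Nat.card V : ℝ) ^ (Nat.card α - 2)) ≤
      inj H (Mv (Mv Γ M (Γ.neighborSet x)) M' ((Mv Γ M (Γ.neighborSet x)).neighborSet y)) +
      ((M.ncard : ℝ) + M'.ncard) * Δ +
      (4 * (Nat.card α : ℝ) ^ 3 * κ * (M.ncard : ℝ) ^ 2 + 4 * (Nat.card α : ℝ) ^ 3 * κ * M.ncard * M'.ncard +
        (Nat.card α : ℝ) ^ 2 * (M'.ncard : ℝ) ^ 2) * (Nat.card V : ℝ) ^ (Nat.card α - 2) := by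
  classical
  have hV : Nonempty V := ⟨x⟩
  have hn : (0 : ℝ) < (Nat.card V : ℝ) := by exact_mod_cast Nat.card_pos
  set P : ℝ := (Nat.card V : ℝ) ^ (Nat.card α - 2) with hP
  have hP0 : 0 ≤ P := by positivity
  set T : ℝ := (Nat.card α : ℝ) ^ 3 with hT
  have hT0 : 0 ≤ T := by positivity
  set B : ℝ := (Nat.card α : ℝ) ^ 2 with hB
  have hB0 : 0 ≤ B := by positivity
  set m : ℝ := (M.ncard : ℝ) with hm
  have hm0 : 0 ≤ m := by positivity
  set m' : ℝ := (M'.ncard : ℝ) with hm'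
  have hm'0 : 0 ≤ m' := by positivity
  obtain ⟨v₁, hv₁⟩ : ∃ v₁, ∀ v, dg H Γ v ≤ dg H Γ v₁ := Finite.exists_max (dg H Γ)
  set D : ℝ := (dg H Γ v₁ : ℝ) with hD
  set G1 := Mv Γ M (Γ.neighborSet x) with hG1
  set G2 := Mv G1 M' (G1.neighborSet y) with hG2
  -- first move
  have h1 := move_twin H Γ M x hxM K hκ hK hMx (dg H Γ v₁) (fun w _ => hv₁ w)
  have h1' : D ≤ dg H Γ x + Δ := hΔx v₁
  -- second move
  have h2 : ∀ w ∈ M', (dg H G1 w : ℝ) ≤ D + 2 * T * κ * m * P := by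
    intro w hw
    have h3 := dg_le_mv H Γ M x w K hK hMx (fun h => Set.disjoint_left.1 hdis h hw) (fun h => hMx' w hw h.symm)
    have h4 := div_aux hn hT0 hP0 le_rfl hm0 (Nat.cast_nonneg K) hκ h3
    have h5 : (dg H Γ w : ℝ) ≤ (dg H Γ v₁ : ℝ) := by exact_mod_cast hv₁ w
    rw [← hD] at h5
    linarith
  have hd0 : 0 ≤ D + 2 * T * κ * m * P := by positivity
  have h3 := move H G1 M' y hyM' ⌊D + 2 * T * κ * m * P⌋₊ (fun w hw => Nat.le_floor (h2 w hw))
  have h3' : (inj H G1 : ℝ) + m' * dg H G1 y ≤ inj H G2 + m' * (D + 2 * T * κ * m * P) + B * (m' ^ 2 * P) := by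
    have h4 : ((inj H G1 + M'.ncard * dg H G1 y : ℕ) : ℝ) ≤ ((inj H G2 + M'.ncard * ⌊D + 2 * T * κ * m * P⌋₊ +
      Nat.card α ^ 2 * (M'.ncard ^ 2 * Nat.card V ^ (Nat.card α - 2)) : ℕ) : ℝ) := by exact_mod_cast h3
    push_cast at h4
    have h5 := mul_le_mul_of_nonneg_left (Nat.floor_le hd0) hm'0
    linarith
  -- gain
  have h4 := gain H χ hχ a₀ b₀ hab h₀ Γ M x y K hK hMx hyM hMy hxy
  have h4' := div_aux hn hT0 hP0 le_rfl hm0 (Nat.cast_nonneg K) hκ h4
  have h4'' : (dg H Γ y : ℝ) + m * (c * P) ≤ dg H G1 y + 2 * T * κ * m * P := by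
    have h5 := mul_le_mul_of_nonneg_left hc hm0
    linarith
  have h4d : D ≤ dg H Γ y + Δ := hΔy v₁
  have h11 := mul_le_mul_of_nonneg_left h1' hm0
  have h12 := mul_le_mul_of_nonneg_left h4d hm'0
  have h13 := mul_le_mul_of_nonneg_left h4'' hm'0
  have e1 : m' * m * (c * P) = m' * (m * (c * P)) := by ring
  rw [e1]
  nlinarith [h1, h3', h11, h12, h13]

/-- (UPZ) the graph after the two moves, from `G' + xy`, can be made `K_k`-free by deleting the pairs between `M ∪ {x}` and `Z` -/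
theorem upz [Finite V] {q : ℕ} {G' : SimpleGraph V} (h : G'.CliqueFree (q + 2)) (x y : V) (hxy : x ≠ y) (M M' Z : Set V)
    (hdis : Disjoint M M') (hxM : x ∉ M) (hxM' : x ∉ M') (hyM : y ∉ M) (hyM' : y ∉ M') (hMy : ∀ w ∈ M, ¬ G'.Adj w y)
    (hxZ : x ∉ Z) (hyZ : y ∉ Z)
    (hZ : ∀ L : Fin q → V, (∀ i, G'.Adj x (L i) ∧ G'.Adj y (L i)) → (∀ i j, i ≠ j → G'.Adj (L i) (L j)) →
        ∃ i, L i ∈ Z) (Γ G₁ G₂ : SimpleGraph V) (hΓ : Γ = G' ⊔ SimpleGraph.edge x y) (h₁ : G₁ = Mv Γ M (Γ.neighborSet x))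
    (h₂ : G₂ = Mv G₁ M' (G₁.neighborSet y)) :
    ∃ Γ₂ : SimpleGraph V, Γ₂.CliqueFree (q + 2) ∧ df G₂ Γ₂ ≤ 2 * ((M.ncard + 1) * Z.ncard) := by
  classical
  let Bd : V → V → Prop := fun a b => a ∈ insert x M ∧ b ∈ Z
  let Γ₂ : SimpleGraph V :=
    { Adj := fun a b => G₂.Adj a b ∧ ¬ Bd a b ∧ ¬ Bd b a
      symm := ⟨fun a b hab => ⟨hab.1.symm, hab.2.2, hab.2.1⟩⟩
      loopless := ⟨fun a hab => G₂.loopless.irrefl _ hab.1⟩ }
  let φ : V → V := fun a => prj M x (prj M' y a)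
  have hφ : ∀ a b, G₂.Adj a b → Γ.Adj (φ a) (φ b) := by
    intro a b hab
    subst h₂
    subst h₁
    exact prj_adj Γ M x (prj_adj _ M' y hab)
  have hΓadj : ∀ a b, Γ.Adj a b → G'.Adj a b ∨ (a = x ∧ b = y) ∨ (a = y ∧ b = x) := by
    intro a b hab
    rw [hΓ, SimpleGraph.sup_adj, SimpleGraph.edge_adj] at hab
    rcases hab with hab | ⟨hab | hab, -⟩
    · exact Or.inl hab
    · exact Or.inr (Or.inl hab)
    · exact Or.inr (Or.inr hab)
  have hφx : ∀ a, φ a = x → a ∈ insert x M := by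
    intro a ha
    by_cases haM' : a ∈ M'
    · have h1 : φ a = y := by
        show prj M x (prj M' y a) = y
        rw [prj_in haM', prj_out hyM]
      exact absurd (ha.symm.trans h1) hxy
    · have h1 : prj M' y a = a := prj_out haM'
      by_cases haM : a ∈ M
      · exact Or.inr haM
      · left
        have h2 : φ a = a := by
          show prj M x (prj M' y a) = a
          rw [h1, prj_out haM]
        rw [← h2, ha]
  have hφo : ∀ a, φ a ≠ x → φ a ≠ y → φ a = a := by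
    intro a hax hay
    by_cases haM' : a ∈ M'
    · have h1 : φ a = y := by
        show prj M x (prj M' y a) = y
        rw [prj_in haM', prj_out hyM]
      exact absurd h1 hay
    · have h1 : prj M' y a = a := prj_out haM'
      by_cases haM : a ∈ M
      · have h2 : φ a = x := by
          show prj M x (prj M' y a) = x
          rw [h1, prj_in haM]
        exact absurd h2 hax
      · show prj M x (prj M' y a) = a
        rw [h1, prj_out haM]
  refine ⟨Γ₂, ?_, ?_⟩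
  · intro s hs
    have hsG₂ : G₂.IsNClique (q + 2) s := ⟨fun a ha b hb hab => (hs.1 ha hb hab).1, hs.2⟩
    have himg := clique_image φ hφ hsG₂
    have hinj : Set.InjOn φ s := by
      intro a ha b hb hab
      by_contra hne
      exact (hφ a b (hsG₂.1 ha hb hne)).ne hab
    -- both `x` and `y` are in the image
    have hx : x ∈ s.image φ := by
      by_contra hx
      refine h _ ⟨?_, himg.2⟩
      intro a ha b hb hab
      rcases hΓadj a b (himg.1 ha hb hab) with h3 | ⟨rfl, -⟩ | ⟨-, rfl⟩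
      · exact h3
      · exact absurd (Finset.mem_coe.1 ha) hx
      · exact absurd (Finset.mem_coe.1 hb) hx
    have hy : y ∈ s.image φ := by
      by_contra hy
      refine h _ ⟨?_, himg.2⟩
      intro a ha b hb hab
      rcases hΓadj a b (himg.1 ha hb hab) with h3 | ⟨-, rfl⟩ | ⟨rfl, -⟩
      · exact h3
      · exact absurd (Finset.mem_coe.1 hb) hy
      · exact absurd (Finset.mem_coe.1 ha) hy
    obtain ⟨u, hu, hux⟩ := Finset.mem_image.1 hx
    obtain ⟨v, hv, hvy⟩ := Finset.mem_image.1 hy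
    have huv : u ≠ v := by
      rintro rfl
      exact hxy (hux.symm.trans hvy)
    set t := (s.erase u).erase v with ht
    have htc : t.card = q := by
      rw [ht, Finset.card_erase_of_mem, Finset.card_erase_of_mem hu, hs.2]
      · omega
      · exact Finset.mem_erase.2 ⟨huv.symm, hv⟩
    have hts : ∀ a ∈ t, a ∈ s ∧ a ≠ u ∧ a ≠ v := by
      intro a ha
      have h1 := Finset.mem_erase.1 ha
      have h2 := Finset.mem_erase.1 h1.2
      exact ⟨h2.2, h2.1, h1.1⟩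
    have hta : ∀ a ∈ t, φ a = a ∧ a ≠ x ∧ a ≠ y := by
      intro a ha
      obtain ⟨h1, h2, h3⟩ := hts a ha
      have hax : φ a ≠ x := fun h' => h2 (hinj h1 hu (h'.trans hux.symm))
      have hay : φ a ≠ y := fun h' => h3 (hinj h1 hv (h'.trans hvy.symm))
      have h4 := hφo a hax hay
      rw [h4] at hax hay
      exact ⟨h4, hax, hay⟩
    obtain ⟨e⟩ : Nonempty (Fin q ≃ t) := ⟨(Fintype.equivFinOfCardEq (by rw [Fintype.card_coe, htc])).symm⟩
    obtain ⟨i, hi⟩ := hZ (fun i => (e i : V)) (by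
      intro i
      obtain ⟨h1, h2, h3⟩ := hts (e i) (e i).2
      obtain ⟨h4, h5, h6⟩ := hta (e i) (e i).2
      constructor
      · have h7 := hφ u (e i) (hsG₂.1 hu h1 h2.symm)
        rw [hux, h4] at h7
        rcases hΓadj _ _ h7 with h8 | ⟨-, h8⟩ | ⟨h8, -⟩
        · exact h8
        · exact absurd h8 h6
        · exact absurd h8 hxy
      · have h7 := hφ v (e i) (hsG₂.1 hv h1 h3.symm)
        rw [hvy, h4] at h7
        rcases hΓadj _ _ h7 with h8 | ⟨h8, -⟩ | ⟨-, h8⟩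
        · exact h8
        · exact absurd h8.symm hxy
        · exact absurd h8 h5) (by
      intro i j hij
      obtain ⟨h1, -, -⟩ := hts (e i) (e i).2
      obtain ⟨h4, h5, h6⟩ := hta (e i) (e i).2
      obtain ⟨h1', -, -⟩ := hts (e j) (e j).2
      obtain ⟨h4', h5', h6'⟩ := hta (e j) (e j).2
      have hne : (e i : V) ≠ e j := fun h' => hij (e.injective (Subtype.ext h'))
      have h7 := hφ (e i) (e j) (hsG₂.1 h1 h1' hne)
      rw [h4, h4'] at h7
      rcases hΓadj _ _ h7 with h8 | ⟨h8, -⟩ | ⟨h8, -⟩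
      · exact h8
      · exact absurd h8 h5
      · exact absurd h8 h6)
    obtain ⟨h1, h2, -⟩ := hts (e i) (e i).2
    exact (hs.1 hu h1 h2.symm).2.1 ⟨hφx u hux, hi⟩
  · unfold df
    have hsub : {p : V × V | G₂.Adj p.1 p.2 ∧ ¬ Γ₂.Adj p.1 p.2} ⊆
        (insert x M) ×ˢ Z ∪ Prod.swap '' ((insert x M) ×ˢ Z) := by
      rintro ⟨a, b⟩ ⟨hab, hn⟩
      by_cases h1 : Bd a b
      · exact Or.inl h1
      · by_cases h2 : Bd b a
        · exact Or.inr ⟨(b, a), h2, rfl⟩
        · exact absurd ⟨hab, h1, h2⟩ hn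
    have hc : ((insert x M) ×ˢ Z).ncard ≤ (M.ncard + 1) * Z.ncard := by
      rw [Set.ncard_prod]
      exact Nat.mul_le_mul_right _ (Set.ncard_insert_le _ _)
    have hc' : (Prod.swap '' ((insert x M) ×ˢ Z)).ncard ≤ (M.ncard + 1) * Z.ncard :=
      (Set.ncard_image_le (Set.toFinite _)).trans hc
    refine (Set.ncard_le_ncard hsub (Set.toFinite _)).trans ((Set.ncard_union_le _ _).trans ?_)
    omega

end Pool.Agent.WTG
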