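import Pool.Agent.WTG.Defs
import Pool.Agent.WTE.Cnt

/-!
# (DGL) `dg` in `G` and in a subgraph `G'`
-/

set_option autoImplicit false

namespace Pool.Agent.WTG

open Pool.Agent.WT7 Pool.Agent.WTE

variable {α β V : Type}

theorem dgl_df_le [Finite V] (G G' : SimpleGraph V) {s : ℝ} (hs : 0 ≤ s) (hd : (df G G' : ℝ) ≤ s ^ 2) :
    (df G G' : ℝ) ≤ s * Nat.card V := by
  have h1 : df G G' ≤ Nat.card V ^ 2 := by
    unfold df
    refine (Set.ncard_le_ncard (Set.subset_univ _) (Set.toFinite _)).trans ?_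
    rw [Set.ncard_univ, Nat.card_prod, pow_two]
  have h2 : (df G G' : ℝ) ≤ (Nat.card V : ℝ) ^ 2 := by exact_mod_cast h1
  have hn : (0 : ℝ) ≤ Nat.card V := Nat.cast_nonneg _
  rcases le_total s (Nat.card V : ℝ) with h | h
  · nlinarith
  · nlinarith

/-- (DGL) `dg` in `G` and in `G'` -/
theorem dgl [Finite α] [Finite V] (H : SimpleGraph α) (G G' : SimpleGraph V) (hle : G' ≤ G) (w : V) {s : ℝ} (hs : 1 ≤ s)
    (hd : (df G G' : ℝ) ≤ s ^ 2) :
    (dg H G w : ℝ) ≤ dg H G' w + ((Nat.card α : ℝ) ^ 2 * dD G G' w + (Nat.card α : ℝ) ^ 3 * s) *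
      (Nat.card V : ℝ) ^ (Nat.card α - 2) := by
  classical
  have := Fintype.ofFinite V
  have : Nonempty V := ⟨w⟩
  let G₁ : SimpleGraph V :=
    { Adj := fun a b => G.Adj a b ∧ (G'.Adj a b ∨ a = w ∨ b = w)
      symm := ⟨fun a b h => ⟨h.1.symm, by
        rcases h.2 with h | h | h
        · exact Or.inl h.symm
        · exact Or.inr (Or.inr h)
        · exact Or.inr (Or.inl h)⟩⟩
      loopless := ⟨fun a h => G.loopless.irrefl _ h.1⟩ }
  set Dw : Set V := G.neighborSet w \ G'.neighborSet w with hDw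
  set T : Set (α → V) := {f | IsInj H G' f ∧ ∃ x, f x = w} ∪
    ⋃ b : Dw, {f | IsInj H G f ∧ (∃ x, f x = w) ∧ ∃ y, f y = (b : V)} with hTdef
  have hT : ∀ f, IsInj H G f → (∃ x, f x = w) → IsInj H G₁ f → f ∈ T := by
    intro f hf hx hf₁
    by_cases hf' : IsInj H G' f
    · exact Or.inl ⟨hf', hx⟩
    · right
      have h1 : ¬ IsHom H G' f := fun h => hf' ⟨hf.1, h⟩
      unfold IsHom at h1
      push Not at h1
      obtain ⟨a, b, hab, hn⟩ := h1
      have h2 : G₁.Adj (f a) (f b) := hf₁.2 a b hab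
      obtain ⟨h3, h4 | h4 | h4⟩ := h2
      · exact absurd h4 hn
      · refine Set.mem_iUnion.2 ⟨⟨f b, ?_, ?_⟩, hf, hx, b, rfl⟩
        · rw [SimpleGraph.mem_neighborSet, ← h4]
          exact h3
        · rw [SimpleGraph.mem_neighborSet, ← h4]
          exact hn
      · refine Set.mem_iUnion.2 ⟨⟨f a, ?_, ?_⟩, hf, hx, a, rfl⟩
        · rw [SimpleGraph.mem_neighborSet, ← h4]
          exact h3.symm
        · rw [SimpleGraph.mem_neighborSet, ← h4]
          exact fun h => hn h.symm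
  have hTc : T.ncard ≤ dg H G' w + dD G G' w * (Nat.card α ^ 2 * Nat.card V ^ (Nat.card α - 2)) := by
    refine (Set.ncard_union_le _ _).trans (Nat.add_le_add le_rfl ?_)
    refine (Set.ncard_iUnion_le_of_fintype _).trans ?_
    have h1 : ∀ b ∈ (Finset.univ : Finset Dw), ({f : α → V | IsInj H G f ∧ (∃ x, f x = w) ∧ ∃ y, f y = (b : V)}).ncard ≤
        Nat.card α ^ 2 * Nat.card V ^ (Nat.card α - 2) := by
      intro b _
      refine two_le H G ?_
      intro h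
      have h2 : G.Adj w (b : V) := b.2.1
      exact h2.ne h
    refine (Finset.sum_le_card_nsmul _ _ _ h1).trans (le_of_eq ?_)
    rw [Finset.card_univ, smul_eq_mul, ← Nat.card_eq_fintype_card, Nat.card_coe_set_eq]
    rfl
  have hR : ∀ a b, G.Adj a b → ¬ G₁.Adj a b → a ≠ w ∧ b ≠ w := by
    intro a b hab hn
    constructor
    · intro h
      exact hn ⟨hab, Or.inr (Or.inl h)⟩
    · intro h
      exact hn ⟨hab, Or.inr (Or.inr h)⟩
  have h1 := dg_cmp H G G₁ w hR T hT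
  have hdf : df G G₁ ≤ df G G' := by
    unfold df
    refine Set.ncard_le_ncard ?_ (Set.toFinite _)
    rintro ⟨a, b⟩ ⟨h2, h3⟩
    exact ⟨h2, fun h4 => h3 ⟨h2, Or.inl h4⟩⟩
  set P : ℝ := (Nat.card V : ℝ) ^ (Nat.card α - 2) with hP
  have hP0 : 0 ≤ P := by positivity
  have hn : (0 : ℝ) < (Nat.card V : ℝ) := by exact_mod_cast Nat.card_pos
  have hdf' : (df G G₁ : ℝ) ≤ s * Nat.card V := by
    have h2 : (df G G₁ : ℝ) ≤ df G G' := by exact_mod_cast hdf
    exact h2.trans (dgl_df_le G G' (by linarith) hd)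
  have hTc' : (T.ncard : ℝ) ≤ dg H G' w + dD G G' w * ((Nat.card α : ℝ) ^ 2 * P) := by
    have h2 : (T.ncard : ℝ) ≤ ((dg H G' w + dD G G' w * (Nat.card α ^ 2 * Nat.card V ^ (Nat.card α - 2)) : ℕ) : ℝ) := by
      exact_mod_cast hTc
    push_cast at h2
    exact h2
  have h3 : (Nat.card α : ℝ) ^ 3 * ((df G G₁ : ℝ) * P) ≤ (Nat.card α : ℝ) ^ 3 * ((s * Nat.card V) * P) :=
    mul_le_mul_of_nonneg_left (mul_le_mul_of_nonneg_right hdf' hP0) (by positivity)
  have h4 := mul_le_mul_of_nonneg_left hTc' hn.le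
  have h5 : (Nat.card V : ℝ) * dg H G w ≤ (Nat.card V : ℝ) *
      (dg H G' w + ((Nat.card α : ℝ) ^ 2 * dD G G' w + (Nat.card α : ℝ) ^ 3 * s) * P) := by
    calc (Nat.card V : ℝ) * dg H G w ≤ (Nat.card V : ℝ) * T.ncard +
          (Nat.card α : ℝ) ^ 3 * ((df G G₁ : ℝ) * P) := h1
      _ ≤ (Nat.card V : ℝ) * (dg H G' w + dD G G' w * ((Nat.card α : ℝ) ^ 2 * P)) +
          (Nat.card α : ℝ) ^ 3 * ((s * Nat.card V) * P) := add_le_add h4 h3
      _ = _ := by ring
  exact le_of_mul_le_mul_left h5 hn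

end Pool.Agent.WTG
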