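import Pool.Agent.WTG.Frame

/-!
# [WTG-ExactK] the exact form (helper1)

`FewDel q t H`: for all `d`, for all large `n`, a graph on `n` vertices which contains no complete `(q+1)`-partite graph with parts of size `t + 2` plus an
edge inside a part, and which can be made `K_(q+2)`-free by deleting `d` edges, has at most `a(n)` labelled copies of `H`. If the tight graphs can be
made `K_(q+2)`-free by deleting boundedly many edges, then this implies `bF H F n ≤ a(n)` for all large `n` (`exactX`): the excess over `a(n)` is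
strictly decreasing by `stepX`.
-/

set_option autoImplicit false

namespace Pool.Agent.WTG

open Pool.Agent.WT7 Pool.Agent.WTE

variable {α β V : Type}

/-- few deleted edges do not help (labelled copies) -/
def FewDel (q t : ℕ) (H : SimpleGraph α) : Prop :=
  ∀ d : ℕ, ∃ n₀ : ℕ, ∀ n ≥ n₀, ∀ G : SimpleGraph (_root_.Fin n), ¬ HasPlus G q t →
    (∃ G' ≤ G, G'.CliqueFree (q + 2) ∧ df G G' ≤ d) → inj H G ≤ aK q H n


theorem exactX [Finite α] {q t : ℕ} {H : SimpleGraph α} {F : SimpleGraph β} (hFe : ∃ a b, F.Adj a b)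
    (hF : ∀ (V : Type) [Finite V] (G : SimpleGraph V), F.Free G → ¬ HasPlus G q t)
    (hd : ∃ d₀ n₀ : ℕ, ∀ (V : Type) [Finite V], n₀ ≤ Nat.card V → ∀ G : SimpleGraph V, TS q t H G →
      ∃ G' ≤ G, G'.CliqueFree (q + 2) ∧ df G G' ≤ d₀) (hc : FewDel q t H) :
    ∃ n₀ : ℕ, ∀ n ≥ n₀, bF H F n ≤ aK q H n := by
  obtain ⟨d₀, n₁, hd⟩ := hd
  obtain ⟨n₂, hn₂⟩ := hc d₀
  have hA : ∀ n, n₁ + n₂ ≤ n → aK q H (n + 1) < bF H F (n + 1) →
      bF H F (n + 1) + aK q H n < bF H F n + aK q H (n + 1) := by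
    intro n hn hlt
    rcases stepX (t := t) (H := H) hFe hF n with h | h | ⟨G, hG, -, hGb⟩
    · omega
    · exact h
    · have h1 := hn₂ (n + 1) (by omega) G hG.noplus (hd _ (by rw [Nat.card_fin]; omega) G hG)
      omega
  refine ⟨n₁ + n₂ + bF H F (n₁ + n₂), fun n hn => ?_⟩
  by_contra hcon
  push Not at hcon
  have hB : ∀ d, n₁ + n₂ + d ≤ n → aK q H (n - d) + d + 1 ≤ bF H F (n - d) := by
    intro d
    induction d with
    | zero =>
      intro _
      rw [Nat.sub_zero]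
      omega
    | succ d ih =>
      intro hd
      have h1 := ih (by omega)
      have h2 : n - d = n - (d + 1) + 1 := by omega
      rw [h2] at h1
      have h3 := hA (n - (d + 1)) (by omega) (by omega)
      omega
  have h1 := hB (n - (n₁ + n₂)) (by omega)
  have h2 : n - (n - (n₁ + n₂)) = n₁ + n₂ := by omega
  rw [h2] at h1
  omega

/-- isolated vertices of `H` -/
theorem fewDel_induce [Finite α] {q t : ℕ} {H : SimpleGraph α} (hc : FewDel q t H) :
    FewDel q t (H.induce {x | ∃ y, H.Adj x y}) := by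
  intro d
  obtain ⟨n₀, hn₀⟩ := hc d
  refine ⟨n₀ + Nat.card α, fun n hn G hG hG' => ?_⟩
  have h1 := hn₀ n (by omega) G hG hG'
  obtain ⟨G₁, hG₁, hG₁'⟩ := exists_aK q H n
  rw [← hG₁', inj_iso H G, inj_iso H G₁, Nat.card_fin] at h1
  have hs : ({x | ∃ y, H.Adj x y} : Set α).ncard ≤ Nat.card α := by
    have h2 := Set.ncard_le_ncard (Set.subset_univ {x | ∃ y, H.Adj x y}) (Set.toFinite _)
    rwa [Set.ncard_univ] at h2
  have hr : 0 < (n - ({x | ∃ y, H.Adj x y} : Set α).ncard).descFactorial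
      (Nat.card α - ({x | ∃ y, H.Adj x y} : Set α).ncard) := by
    rw [Nat.pos_iff_ne_zero, Ne, Nat.descFactorial_eq_zero_iff_lt]
    omega
  have h3 := Nat.le_of_mul_le_mul_right h1 hr
  have h4 := inj_le_aK' q (H.induce {x | ∃ y, H.Adj x y}) hG₁
  rw [Nat.card_fin] at h4
  exact h3.trans h4

private theorem ek_empty {γ : Type} [IsEmpty γ] (K : SimpleGraph γ) (G G₁ : SimpleGraph V) :
    inj K G ≤ inj K G₁ := by
  unfold inj
  have h : {f : γ → V | IsInj K G f} = {f : γ → V | IsInj K G₁ f} := by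
    ext f
    constructor
    · intro hf
      exact ⟨hf.1, fun x => isEmptyElim x⟩
    · intro hf
      exact ⟨hf.1, fun x => isEmptyElim x⟩
  rw [h]

theorem exactAllK [Finite α] {q t : ℕ} {H : SimpleGraph α} (hH : H.Colorable 2) {F : SimpleGraph β}
    (hFe : ∃ a b, F.Adj a b) (hF : ∀ (V : Type) [Finite V] (G : SimpleGraph V), F.Free G → ¬ HasPlus G q t)
    (hd : ∀ (γ : Type) [Finite γ] [Nonempty γ] (H' : SimpleGraph γ), H'.Colorable 2 → NoIso H' →
      ∃ d₀ n₀ : ℕ, ∀ (V : Type) [Finite V], n₀ ≤ Nat.card V → ∀ G : SimpleGraph V, TS q t H' G →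
      ∃ G' ≤ G, G'.CliqueFree (q + 2) ∧ df G G' ≤ d₀) (hc : FewDel q t H) :
    ∃ n₀ : ℕ, ∀ n ≥ n₀, bF H F n ≤ aK q H n := by
  classical
  rcases Set.eq_empty_or_nonempty {x | ∃ y, H.Adj x y} with hS | ⟨x₀, hx₀⟩
  · refine ⟨0, fun n _ => ?_⟩
    obtain ⟨G, -, hG⟩ := exists_bF H hFe n
    have hbot : (⊥ : SimpleGraph (_root_.Fin n)).CliqueFree (q + 2) := SimpleGraph.cliqueFree_bot (by omega)
    have h1 : inj H G ≤ inj H (⊥ : SimpleGraph (_root_.Fin n)) := by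
      rw [inj_iso H G, inj_iso H (⊥ : SimpleGraph (_root_.Fin n))]
      refine Nat.mul_le_mul_right _ ?_
      have : IsEmpty ↥{x | ∃ y, H.Adj x y} := by
        rw [hS]
        infer_instance
      exact ek_empty _ _ _
    have h2 := inj_le_aK' q H hbot
    rw [Nat.card_fin] at h2
    rw [← hG]
    exact h1.trans h2
  · have hne : Nonempty ↥{x | ∃ y, H.Adj x y} := ⟨⟨x₀, hx₀⟩⟩
    have hH' : (H.induce {x | ∃ y, H.Adj x y}).Colorable 2 := by
      obtain ⟨C⟩ := hH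
      exact ⟨C.comp (SimpleGraph.Embedding.induce _).toHom⟩
    have hI : NoIso (H.induce {x | ∃ y, H.Adj x y}) := by
      rintro ⟨x, y, hxy⟩
      exact ⟨⟨y, x, hxy.symm⟩, hxy⟩
    obtain ⟨n₀, hn₀⟩ := exactX hFe hF (hd _ _ hH' hI) (fewDel_induce hc)
    refine ⟨n₀, fun n hn => ?_⟩
    obtain ⟨G, hGF, hG⟩ := exists_bF H hFe n
    obtain ⟨G₁, hG₁f, hG₁⟩ := exists_aK q (H.induce {x | ∃ y, H.Adj x y}) n
    have h1 := inj_le_bF (H.induce {x | ∃ y, H.Adj x y}) F hGF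
    rw [Nat.card_fin] at h1
    have h2 := h1.trans (hn₀ n hn)
    rw [← hG₁] at h2
    have h4 := inj_le_aK' q H hG₁f
    rw [Nat.card_fin] at h4
    rw [← hG]
    refine le_trans ?_ h4
    rw [inj_iso H G, inj_iso H G₁]
    exact Nat.mul_le_mul_right _ h2

/-- the number of the deleted edges is at most `df` -/
theorem edges_le_df [Finite V] (G G' : SimpleGraph V) : (G.edgeSet \ G'.edgeSet).ncard ≤ df G G' := by
  have h : (G.edgeSet \ G'.edgeSet) ⊆ (fun p : V × V => s(p.1, p.2)) '' {p : V × V | G.Adj p.1 p.2 ∧ ¬ G'.Adj p.1 p.2} := by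
    intro e he
    induction e with
    | _ u v => exact ⟨(u, v), ⟨he.1, fun h' => he.2 h'⟩, rfl⟩
  exact (Set.ncard_le_ncard h (Set.toFinite _)).trans (Set.ncard_image_le (Set.toFinite _))

theorem fewDel_of [Finite α] {q t : ℕ} {H : SimpleGraph α} (hc : ∀ d : ℕ, ∃ n₀ : ℕ, ∀ n ≥ n₀,
    ∀ G : SimpleGraph (_root_.Fin n), ¬ HasPlus G q t →
      (∃ G' ≤ G, G'.CliqueFree (q + 2) ∧ (G.edgeSet \ G'.edgeSet).ncard ≤ d) →
        G.copyCount H ≤ ex n H (⊤ : SimpleGraph (_root_.Fin (q + 2)))) : FewDel q t H := by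
  intro d
  obtain ⟨n₀, hn₀⟩ := hc d
  refine ⟨n₀, fun n hn G hG hG' => ?_⟩
  obtain ⟨G', hle, hcf, hdf⟩ := hG'
  obtain ⟨G₁, hG₁, hG₁'⟩ := exists_exK H (topK_edge q) n
  have h1 := hn₀ n hn G hG ⟨G', hle, hcf, (edges_le_df G G').trans hdf⟩
  rw [← hG₁'] at h1
  have h2 := inj_le_aK' q H (topK_free.1 hG₁)
  rw [Nat.card_fin] at h2
  refine le_trans ?_ h2
  rw [inj_eq_aut_mul, inj_eq_aut_mul]
  exact Nat.mul_le_mul_left _ h1

/-- (c) implies (a), for bipartite `H` -/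
theorem c_to_aK [Finite α] {q : ℕ} {H : SimpleGraph α} (hH : H.Colorable 2)
    (hg : WeaklyTuranGood H (⊤ : SimpleGraph (_root_.Fin (q + 2))))
    (hd : ∀ (t : ℕ) (γ : Type) [Finite γ] [Nonempty γ] (H' : SimpleGraph γ), H'.Colorable 2 → NoIso H' →
      ∃ d₀ n₀ : ℕ, ∀ (V : Type) [Finite V], n₀ ≤ Nat.card V → ∀ G : SimpleGraph V, TS q t H' G →
      ∃ G' ≤ G, G'.CliqueFree (q + 2) ∧ df G G' ≤ d₀)
    (hc : ∀ t d : ℕ, ∃ n₀ : ℕ, ∀ n ≥ n₀,
      ∀ G : SimpleGraph (_root_.Fin n), ¬ HasPlus G q t →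
      (∃ G' ≤ G, G'.CliqueFree (q + 2) ∧ (G.edgeSet \ G'.edgeSet).ncard ≤ d) →
        G.copyCount H ≤ ex n H (⊤ : SimpleGraph (_root_.Fin (q + 2))))
    [Finite β] {F : SimpleGraph β} (hF : F.chromaticNumber = (q + 2 : ℕ)) (he : ∃ e, IsColorCritical F e) :
    WeaklyTuranGood H F := by
  have hFe : ∃ a b, F.Adj a b := by
    obtain ⟨e, he⟩ := he
    induction e with
    | _ u v => exact ⟨u, v, he.1⟩
  obtain ⟨n₁, hn₁⟩ := exactAllK (q := q) (t := Nat.card β) hH hFe (fun V _ G hG => embK hF he V G hG)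
    (fun γ _ _ H' h1 h2 => hd _ γ H' h1 h2) (fewDel_of (hc (Nat.card β)))
  obtain ⟨k, hk, n₀, hn₀⟩ := hg
  have hk' := partK hk
  subst hk'
  refine ⟨q + 1, ?_, n₀ + n₁, fun n hn => ?_⟩
  · rw [hF]
  · obtain ⟨G, hG, hG'⟩ := hn₀ n (by omega)
    refine ⟨G, hG, le_antisymm (le_exK H F (free_part hF hG)) ?_⟩
    obtain ⟨G₂, hG₂, hG₂'⟩ := exists_exK H hFe n
    obtain ⟨G₁, hG₁, hG₁'⟩ := exists_aK q H n
    have h1 := inj_le_bF H F hG₂
    rw [Nat.card_fin] at h1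
    have h2 := h1.trans (hn₁ n (by omega))
    rw [← hG₁', inj_eq_aut_mul, inj_eq_aut_mul] at h2
    have h3 := Nat.le_of_mul_le_mul_left h2 (aut_pos H)
    rw [hG', ← hG₂']
    exact h3.trans (le_exK H _ (topK_free.2 hG₁))

end Pool.Agent.WTG
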