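import Pool.Agent.WTG.Defs
import Pool.Agent.WTE.Prog
import Pool.Agent.WT7.FinM

/-!
# [WTG-Frame] the frame (helper1)

`progK`: progressive induction with the exact threshold `a(n) - a(n-1)`. `embK`: `F` is contained in a complete `(q+1)`-partite graph with an edge added
inside a part. `finK`: isolated vertices of `H`, unlabelled copies.
-/

set_option autoImplicit false

namespace Pool.Agent.WTG

open Pool.Agent.WT7 Pool.Agent.WTE

variable {α β V : Type}

theorem topK_free {k : ℕ} {G : SimpleGraph V} : (⊤ : SimpleGraph (_root_.Fin k)).Free G ↔ G.CliqueFree k := by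
  rw [SimpleGraph.cliqueFree_iff]
  constructor
  · intro h
    exact ⟨fun f => h ⟨f⟩⟩
  · rintro h ⟨f⟩
    exact h.elim f

theorem topK_edge (q : ℕ) : ∃ a b, (⊤ : SimpleGraph (_root_.Fin (q + 2))).Adj a b :=
  ⟨⟨0, by omega⟩, ⟨1, by omega⟩, by simp⟩

theorem exists_aK [Finite α] (q : ℕ) (H : SimpleGraph α) (n : ℕ) :
    ∃ G : SimpleGraph (_root_.Fin n), G.CliqueFree (q + 2) ∧ inj H G = aK q H n := by
  obtain ⟨G, hG, hG'⟩ := exists_bF H (topK_edge q) n
  exact ⟨G, topK_free.1 hG, hG'⟩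

theorem inj_le_aK' [Finite α] [Finite V] (q : ℕ) (H : SimpleGraph α) {G : SimpleGraph V} (hG : G.CliqueFree (q + 2)) :
    inj H G ≤ aK q H (Nat.card V) := inj_le_bF H _ (topK_free.2 hG)

/-- one step of the progressive induction: `G` is tight or the excess over `a(n)` decreases strictly -/
theorem stepX [Finite α] {q t : ℕ} {H : SimpleGraph α} {F : SimpleGraph β} (hFe : ∃ a b, F.Adj a b)
    (hF : ∀ (V : Type) [Finite V] (G : SimpleGraph V), F.Free G → ¬ HasPlus G q t) (n : ℕ) :
    bF H F (n + 1) ≤ aK q H (n + 1) ∨ bF H F (n + 1) + aK q H n < bF H F n + aK q H (n + 1) ∨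
      ∃ G : SimpleGraph (_root_.Fin (n + 1)), TS q t H G ∧ F.Free G ∧ inj H G = bF H F (n + 1) := by
  obtain ⟨G, hG, hGb⟩ := exists_bF H hFe (n + 1)
  by_cases h1 : aK q H (n + 1) ≤ inj H G
  · by_cases h2 : ∀ x, aK q H (n + 1) ≤ aK q H n + dg H G x
    · refine Or.inr (Or.inr ⟨G, ⟨hF _ G hG, ?_, ?_⟩, hG, hGb⟩)
      · rw [Nat.card_fin]
        exact h1
      · intro x
        rw [Nat.card_fin, Nat.add_sub_cancel]
        exact h2 x
    · push Not at h2
      obtain ⟨x, hx⟩ := h2
      have h3 := bF_step H hG x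
      rw [Nat.card_fin, Nat.add_sub_cancel, hGb] at h3
      exact Or.inr (Or.inl (by omega))
  · left
    omega

/-- (PROGK) progressive induction with the exact threshold -/
theorem progK [Finite α] [Nonempty α] {q t : ℕ} {H : SimpleGraph α} {F : SimpleGraph β} (hFe : ∃ a b, F.Adj a b)
    (hF : ∀ (V : Type) [Finite V] (G : SimpleGraph V), F.Free G → ¬ HasPlus G q t)
    (hd : ∃ d₀ n₀ : ℕ, ∀ (V : Type) [Finite V], n₀ ≤ Nat.card V → ∀ G : SimpleGraph V, TS q t H G →
      ∃ G' ≤ G, G'.CliqueFree (q + 2) ∧ df G G' ≤ d₀) :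
    ∃ K : ℕ, ∀ n, bF H F n ≤ aK q H n + K * n ^ (Nat.card α - 2) := by
  obtain ⟨d₀, n₀, hd⟩ := hd
  set K₀ := Nat.card α ^ 2 * d₀ with hK₀
  set B := ∑ m ∈ Finset.range (n₀ + 1), bF H F m with hB
  have hfB : ∀ n ≤ n₀, bF H F n ≤ B := fun n hn =>
    Finset.single_le_sum (f := fun m => bF H F m) (fun _ _ => Nat.zero_le _) (Finset.mem_range.2 (by omega))
  have hmain : ∀ n ≥ n₀, bF H F n ≤ aK q H n + (B + K₀ * n ^ (Nat.card α - 2)) := by
    intro n hn
    induction n, hn using Nat.le_induction with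
    | base =>
      have := hfB n₀ le_rfl
      omega
    | succ n hn ih =>
      have h6 : K₀ * n ^ (Nat.card α - 2) ≤ K₀ * (n + 1) ^ (Nat.card α - 2) :=
        Nat.mul_le_mul_left _ (Nat.pow_le_pow_left (Nat.le_succ n) _)
      rcases stepX (t := t) (H := H) hFe hF n with h | h | ⟨G, hG, -, hGb⟩
      · omega
      · omega
      · obtain ⟨G', -, hcf, hdf⟩ := hd _ (by rw [Nat.card_fin]; omega) G hG
        have h1 := inj_le_add_df H G G'
        have h2 := inj_le_aK' q H hcf
        rw [Nat.card_fin] at h1 h2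
        have h3 : Nat.card α ^ 2 * (df G G' * (n + 1) ^ (Nat.card α - 2)) ≤ K₀ * (n + 1) ^ (Nat.card α - 2) := by
          rw [hK₀, mul_assoc]
          exact Nat.mul_le_mul_left _ (Nat.mul_le_mul_right _ hdf)
        rw [← hGb]
        omega
  refine ⟨B + K₀, fun n => ?_⟩
  rcases Nat.eq_zero_or_pos n with rfl | hn
  · rw [bF_zero H hFe]
    exact Nat.zero_le _
  · have h1 : 1 ≤ n ^ (Nat.card α - 2) := Nat.one_le_pow _ _ hn
    have h2 : B ≤ B * n ^ (Nat.card α - 2) := Nat.le_mul_of_pos_right _ h1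
    have h3 : bF H F n ≤ aK q H n + (B + K₀ * n ^ (Nat.card α - 2)) := by
      rcases le_total n₀ n with h | h
      · exact hmain n h
      · have := hfB n h
        omega
    refine h3.trans ?_
    rw [add_mul]
    omega

/-- (EMBK) -/
theorem embK [Finite β] {F : SimpleGraph β} {q : ℕ} (hF : F.chromaticNumber = (q + 2 : ℕ)) (he : ∃ e, IsColorCritical F e)
    (V : Type) [Finite V] (G : SimpleGraph V) (hG : F.Free G) : ¬ HasPlus G q (Nat.card β) := by
  classical
  obtain ⟨e, he⟩ := he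
  induction e with
  | _ u v =>
    obtain ⟨he1, he2⟩ := he
    have hadj : F.Adj u v := he1
    have h2 : ¬ F.Colorable (q + 1) := by
      intro h
      have h' := SimpleGraph.chromaticNumber_le_iff_colorable.2 h
      rw [hF] at h'
      have h3 : q + 2 ≤ q + 1 := by exact_mod_cast h'
      omega
    have h3 : (F.deleteEdges {s(u, v)}).Colorable (q + 1) := by
      rw [hF] at he2
      refine SimpleGraph.chromaticNumber_le_iff_colorable.1 ?_
      refine Order.le_of_lt_add_one ?_
      have h4 : ((q + 1 : ℕ) : ℕ∞) + 1 = ((q + 2 : ℕ) : ℕ∞) := by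
        push_cast
        ring
      rw [h4]
      exact he2
    obtain ⟨C⟩ := h3
    have hC : ∀ x y, F.Adj x y → s(x, y) ≠ s(u, v) → C x ≠ C y := by
      intro x y hxy hne
      refine C.valid ?_
      rw [SimpleGraph.deleteEdges_adj]
      exact ⟨hxy, fun h => hne (Set.mem_singleton_iff.1 h)⟩
    have huv : C u = C v := by
      by_contra hne
      refine h2 ⟨SimpleGraph.Coloring.mk C ?_⟩
      intro x y hxy
      by_cases h : s(x, y) = s(u, v)
      · rcases Sym2.eq_iff.1 h with ⟨rfl, rfl⟩ | ⟨rfl, rfl⟩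
        · exact hne
        · exact fun h' => hne h'.symm
      · exact hC x y hxy h
    rintro ⟨f, hinj, hcross, a, b, hab⟩
    have hab' : a ≠ b := by
      rintro rfl
      exact G.loopless.irrefl _ hab
    -- positions of the other vertices
    have hcard : Nat.card β ≤ Nat.card {i : _root_.Fin (Nat.card β + 2) // i ∉ ({a, b} : Finset _)} := by
      rw [Nat.card_eq_fintype_card (α := {i : _root_.Fin (Nat.card β + 2) // i ∉ ({a, b} : Finset _)}),
        Fintype.card_subtype_compl, Fintype.card_fin, Fintype.card_coe, Finset.card_pair hab']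
      omega
    have : Fintype β := Fintype.ofFinite β
    obtain ⟨g⟩ : Nonempty (β ↪ {i : _root_.Fin (Nat.card β + 2) // i ∉ ({a, b} : Finset _)}) := by
      rw [Function.Embedding.nonempty_iff_card_le, ← Nat.card_eq_fintype_card, ← Nat.card_eq_fintype_card]
      exact hcard
    have hga : ∀ x, (g x : _root_.Fin (Nat.card β + 2)) ≠ a := fun x h => (g x).2 (by simp [h])
    have hgb : ∀ x, (g x : _root_.Fin (Nat.card β + 2)) ≠ b := fun x h => (g x).2 (by simp [h])
    set σ : Equiv.Perm (_root_.Fin (q + 1)) := Equiv.swap (C u) 0 with hσ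
    have hσu : σ (C u) = 0 := Equiv.swap_apply_left _ _
    set p : β → _root_.Fin (Nat.card β + 2) := fun x => if x = u then a else if x = v then b else (g x : _) with hp
    have hpu : p u = a := by simp [hp]
    have hpv : p v = b := by
      have : v ≠ u := hadj.ne'
      simp [hp, this]
    have hpx : ∀ x, x ≠ u → x ≠ v → p x = (g x : _root_.Fin (Nat.card β + 2)) := by
      intro x h1 h2
      simp [hp, h1, h2]
    have hpinj : Function.Injective p := by
      intro x y hxy
      by_cases hxu : x = u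
      · by_cases hyu : y = u
        · rw [hxu, hyu]
        · by_cases hyv : y = v
          · rw [hxu, hyv, hpu, hpv] at hxy
            exact absurd hxy hab'
          · rw [hxu, hpu, hpx y hyu hyv] at hxy
            exact absurd hxy.symm (hga y)
      · by_cases hxv : x = v
        · by_cases hyu : y = u
          · rw [hxv, hyu, hpu, hpv] at hxy
            exact absurd hxy.symm hab'
          · by_cases hyv : y = v
            · rw [hxv, hyv]
            · rw [hxv, hpv, hpx y hyu hyv] at hxy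
              exact absurd hxy.symm (hgb y)
        · by_cases hyu : y = u
          · rw [hyu, hpu, hpx x hxu hxv] at hxy
            exact absurd hxy (hga x)
          · by_cases hyv : y = v
            · rw [hyv, hpv, hpx x hxu hxv] at hxy
              exact absurd hxy (hgb x)
            · rw [hpx x hxu hxv, hpx y hyu hyv] at hxy
              exact g.injective (Subtype.ext hxy)
    refine hG ⟨⟨⟨fun x => f (σ (C x)) (p x), ?_⟩, ?_⟩⟩
    · intro x y hxy
      by_cases h : s(x, y) = s(u, v)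
      · rcases Sym2.eq_iff.1 h with ⟨rfl, rfl⟩ | ⟨rfl, rfl⟩
        · rw [← huv, hσu, hpu, hpv]
          exact hab
        · rw [← huv, hσu, hpu, hpv]
          exact hab.symm
      · exact hcross _ _ (fun h' => hC x y hxy h (σ.injective h')) _ _
    · intro x y hxy
      have h4 : (σ (C x), p x) = (σ (C y), p y) := hinj hxy
      exact hpinj (Prod.ext_iff.1 h4).2

private theorem fr_empty {γ : Type} [IsEmpty γ] (K : SimpleGraph γ) (G G₁ : SimpleGraph V) :
    inj K G ≤ inj K G₁ := by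
  unfold inj
  have h : {f : γ → V | IsInj K G f} = {f : γ → V | IsInj K G₁ f} := by
    ext f
    constructor
    · intro hf
      exact ⟨hf.1, fun x => isEmptyElim x⟩
    · intro hf
      exact ⟨hf.1, fun x => isEmptyElim x⟩
  rw [h]

/-- isolated vertices of `H` -/
theorem allK [Finite α] {q : ℕ} {H : SimpleGraph α} (hH : H.Colorable 2) {F : SimpleGraph β} (hFe : ∃ a b, F.Adj a b)
    (hmain : ∀ (γ : Type) [Finite γ] [Nonempty γ] (H' : SimpleGraph γ), H'.Colorable 2 → NoIso H' →
      ∃ K : ℕ, ∀ n, bF H' F n ≤ aK q H' n + K * n ^ (Nat.card γ - 2)) :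
    ∃ K : ℕ, ∀ n, bF H F n ≤ aK q H n + K * n ^ (Nat.card α - 2) := by
  classical
  rcases Set.eq_empty_or_nonempty {x | ∃ y, H.Adj x y} with hS | ⟨x₀, hx₀⟩
  · refine ⟨0, fun n => ?_⟩
    obtain ⟨G, -, hG⟩ := exists_bF H hFe n
    have hbot : (⊥ : SimpleGraph (_root_.Fin n)).CliqueFree (q + 2) := SimpleGraph.cliqueFree_bot (by omega)
    have h1 : inj H G ≤ inj H (⊥ : SimpleGraph (_root_.Fin n)) := by
      rw [inj_iso H G, inj_iso H (⊥ : SimpleGraph (_root_.Fin n))]
      refine Nat.mul_le_mul_right _ ?_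
      have : IsEmpty ↥{x | ∃ y, H.Adj x y} := by
        rw [hS]
        infer_instance
      exact fr_empty _ _ _
    have h2 := inj_le_aK' q H hbot
    rw [Nat.card_fin] at h2
    rw [← hG]
    exact (h1.trans h2).trans (Nat.le_add_right _ _)
  · have hne : Nonempty ↥{x | ∃ y, H.Adj x y} := ⟨⟨x₀, hx₀⟩⟩
    have hH' : (H.induce {x | ∃ y, H.Adj x y}).Colorable 2 := by
      obtain ⟨C⟩ := hH
      exact ⟨C.comp (SimpleGraph.Embedding.induce _).toHom⟩
    have hI : NoIso (H.induce {x | ∃ y, H.Adj x y}) := by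
      rintro ⟨x, y, hxy⟩
      exact ⟨⟨y, x, hxy.symm⟩, hxy⟩
    obtain ⟨K, hK⟩ := hmain _ _ hH' hI
    set s : ℕ := ({x | ∃ y, H.Adj x y} : Set α).ncard with hs
    have hcs : Nat.card ↥{x | ∃ y, H.Adj x y} = s := Nat.card_coe_set_eq _
    have hs2 : 2 ≤ s := by
      obtain ⟨y₀, hxy⟩ := hx₀
      have hsub : ({x₀, y₀} : Set α) ⊆ {x | ∃ y, H.Adj x y} := by
        rintro z (rfl | rfl)
        · exact ⟨y₀, hxy⟩
        · exact ⟨x₀, hxy.symm⟩
      have h1 := Set.ncard_le_ncard hsub (Set.toFinite _)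
      rw [Set.ncard_pair hxy.ne] at h1
      exact h1
    have hsh : s ≤ Nat.card α := by
      have h1 := Set.ncard_le_ncard (Set.subset_univ {x | ∃ y, H.Adj x y}) (Set.toFinite _)
      rw [Set.ncard_univ] at h1
      exact h1
    refine ⟨K, fun n => ?_⟩
    obtain ⟨G, hGF, hG⟩ := exists_bF H hFe n
    obtain ⟨G₁, hG₁f, hG₁⟩ := exists_aK q (H.induce {x | ∃ y, H.Adj x y}) n
    have h1 := inj_le_bF (H.induce {x | ∃ y, H.Adj x y}) F hGF
    rw [Nat.card_fin] at h1
    have h2 := h1.trans (hK n)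
    rw [← hG₁, hcs] at h2
    have h4 := inj_le_aK' q H hG₁f
    rw [Nat.card_fin] at h4
    rw [← hG]
    have h5 := inj_iso H G
    have h6 := inj_iso H G₁
    rw [Nat.card_fin, ← hs] at h5 h6
    rw [h5]
    set r := (n - s).descFactorial (Nat.card α - s) with hr
    have h7 : r ≤ n ^ (Nat.card α - s) :=
      (Nat.descFactorial_le_pow _ _).trans (Nat.pow_le_pow_left (Nat.sub_le _ _) _)
    calc inj (H.induce {x | ∃ y, H.Adj x y}) G * r
        ≤ (inj (H.induce {x | ∃ y, H.Adj x y}) G₁ + K * n ^ (s - 2)) * r := Nat.mul_le_mul_right _ h2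
      _ = inj H G₁ + K * n ^ (s - 2) * r := by rw [h6, add_mul]
      _ ≤ aK q H n + K * n ^ (s - 2) * n ^ (Nat.card α - s) := Nat.add_le_add h4 (Nat.mul_le_mul_left _ h7)
      _ = aK q H n + K * n ^ (Nat.card α - 2) := by
          rw [mul_assoc, ← pow_add]
          congr 3
          omega

private theorem fr_bdd [Finite α] (H : SimpleGraph α) (n : ℕ) (P : SimpleGraph (_root_.Fin n) → Prop) :
    BddAbove {m | ∃ G : SimpleGraph (_root_.Fin n), P G ∧ G.copyCount H = m} := by
  refine ⟨Nat.card (_root_.Fin n) ^ Nat.card α, ?_⟩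
  rintro m ⟨G, -, rfl⟩
  have h1 := (inj_le_hom H G).trans (hom_le_pow H G)
  rw [inj_eq_aut_mul] at h1
  exact (Nat.le_mul_of_pos_left _ (aut_pos H)).trans h1

theorem le_exK [Finite α] (H : SimpleGraph α) (F : SimpleGraph β) {n : ℕ}
    {G : SimpleGraph (_root_.Fin n)} (hG : F.Free G) : G.copyCount H ≤ ex n H F :=
  le_csSup (fr_bdd H n _) ⟨G, hG, rfl⟩

theorem exists_exK [Finite α] (H : SimpleGraph α) {F : SimpleGraph β} (hF : ∃ a b, F.Adj a b) (n : ℕ) :
    ∃ G : SimpleGraph (_root_.Fin n), F.Free G ∧ G.copyCount H = ex n H F := by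
  have hF' : F ≠ ⊥ := by
    rintro rfl
    obtain ⟨a, b, hab⟩ := hF
    exact hab
  exact Nat.sSup_mem (s := {m | ∃ G : SimpleGraph (_root_.Fin n), F.Free G ∧ G.copyCount H = m})
    ⟨_, ⊥, SimpleGraph.free_bot hF', rfl⟩ (fr_bdd H n _)

theorem partK {q k : ℕ} (hk : (⊤ : SimpleGraph (_root_.Fin (q + 2))).chromaticNumber = (k + 1 : ℕ)) : k = q + 1 := by
  rw [SimpleGraph.chromaticNumber_top, Fintype.card_fin] at hk
  have h := Nat.cast_injective (R := ℕ∞) hk
  omega

/-- a complete `(q+1)`-partite graph is `F`-free -/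
theorem free_part {q : ℕ} {F : SimpleGraph β} (hF : F.chromaticNumber = (q + 2 : ℕ)) {G : SimpleGraph V}
    (hG : IsCompletePartite G (q + 1)) : F.Free G := by
  rintro ⟨f⟩
  obtain ⟨d, -, hd⟩ := hG
  have h2 : F.Colorable (q + 1) :=
    ⟨SimpleGraph.Coloring.mk (fun x => d (f x)) (fun {x y} hxy => (hd _ _).1 (f.toHom.map_adj hxy))⟩
  have h' := SimpleGraph.chromaticNumber_le_iff_colorable.2 h2
  rw [hF] at h'
  have h3 : q + 2 ≤ q + 1 := by exact_mod_cast h'
  omega

/-- (FINK) the final statement (isolated vertices of `H`, unlabelled copies) -/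
theorem finK [Finite α] [Finite β] {q : ℕ} (_hq : 1 ≤ q) {H : SimpleGraph α} (hH : H.Colorable 2) {F : SimpleGraph β}
    (hF : F.chromaticNumber = (q + 2 : ℕ)) (he : ∃ e, IsColorCritical F e)
    (hmain : ∀ (γ : Type) [Finite γ] [Nonempty γ] (H' : SimpleGraph γ), H'.Colorable 2 → NoIso H' →
      ∃ K : ℕ, ∀ n, bF H' F n ≤ aK q H' n + K * n ^ (Nat.card γ - 2)) :
    ∃ K : ℕ, (∀ n, ex n H F ≤ ex n H (⊤ : SimpleGraph (_root_.Fin (q + 2))) + K * n ^ (Nat.card α - 2)) ∧
      (WeaklyTuranGood H (⊤ : SimpleGraph (_root_.Fin (q + 2))) → ∃ n₀ : ℕ, ∀ n ≥ n₀, ∃ G : SimpleGraph (_root_.Fin n),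
        IsCompletePartite G (q + 1) ∧ F.Free G ∧ ex n H F ≤ G.copyCount H + K * n ^ (Nat.card α - 2)) := by
  have hFe : ∃ a b, F.Adj a b := by
    obtain ⟨e, he⟩ := he
    induction e with
    | _ u v => exact ⟨u, v, he.1⟩
  obtain ⟨K, hK⟩ := allK hH hFe hmain
  have hex : ∀ n, ex n H F ≤ ex n H (⊤ : SimpleGraph (_root_.Fin (q + 2))) + K * n ^ (Nat.card α - 2) := by
    intro n
    obtain ⟨G, hGF, hG⟩ := exists_exK H hFe n
    obtain ⟨G₁, hG₁, hG₁'⟩ := exists_aK q H n
    have h1 := inj_le_bF H F hGF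
    rw [Nat.card_fin] at h1
    have h2 : inj H G ≤ inj H G₁ + K * n ^ (Nat.card α - 2) := by
      rw [hG₁']
      exact h1.trans (hK n)
    rw [inj_eq_aut_mul, inj_eq_aut_mul] at h2
    have ha := aut_pos H
    have h3 : G.copyCount H ≤ G₁.copyCount H + K * n ^ (Nat.card α - 2) := by
      refine Nat.le_of_mul_le_mul_left (h2.trans ?_) ha
      rw [mul_add]
      exact Nat.add_le_add_left (Nat.le_mul_of_pos_left _ ha) _
    rw [← hG]
    exact h3.trans (Nat.add_le_add_right (le_exK H _ (topK_free.2 hG₁)) _)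
  refine ⟨K, hex, ?_⟩
  rintro ⟨k, hk, n₀, hn₀⟩
  have hk' := partK hk
  subst hk'
  refine ⟨n₀, fun n hn => ?_⟩
  obtain ⟨G, hG, hG'⟩ := hn₀ n hn
  refine ⟨G, hG, free_part hF hG, ?_⟩
  rw [hG']
  exact hex n

end Pool.Agent.WTG
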