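import Pool.Agent.WTG.OneA
import Pool.Agent.WTG.Core2
import Pool.Agent.WTG.BoxPlus
import Pool.Agent.WTG.Avg
import Pool.Agent.WTG.Dgl
import Pool.Agent.WTG.Cross

/-!
# [WTG-One] ONE and GAIN2 (helper57)

`two_moves`: the two moves of near twins of `x` to clones of `x` and of `y`, `x y` an edge of a graph `Γ` between `G'` and `G`, with all constants.
`one'`: `Γ = G'`. `gain2'`: `Γ = G' + xy`.
-/

set_option autoImplicit false

namespace Pool.Agent.WTG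

open Pool.Agent.WT7 Pool.Agent.WTE

variable {α β V : Type}

theorem small_s (q t : ℕ) {ε : ℝ} (hε : 0 < ε) : ∃ n₀ : ℕ, ∀ (V : Type) [Finite V], n₀ ≤ Nat.card V →
    ∀ G G' : SimpleGraph V, ¬ HasPlus G q t → MinDel G G' (q + 2) → ∀ s : ℝ, (df G G' : ℝ) = s ^ 2 →
      s ≤ ε * Nat.card V := by
  obtain ⟨n₀, h⟩ := remd q t (ε := ε ^ 2) (by positivity)
  refine ⟨n₀, ?_⟩
  intro V _ hn G G' hG hmin s hs
  obtain ⟨G'', h1, h2⟩ := h V hn G hG
  have h3 : (df G G' : ℝ) ≤ df G G'' := by exact_mod_cast hmin.min G'' h1.le h1.cf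
  have h4 : s ^ 2 ≤ (ε * Nat.card V) ^ 2 := by
    rw [← hs, mul_pow]
    exact h3.trans h2
  exact le_trans (le_abs_self s) (abs_le_of_sq_le_sq h4 (by positivity))

theorem inj_le_add_df' [Finite α] [Finite V] (H : SimpleGraph α) (G G' : SimpleGraph V) :
    (inj H G : ℝ) ≤ inj H G' + (Nat.card α : ℝ) ^ 2 * (df G G' * (Nat.card V : ℝ) ^ (Nat.card α - 2)) := by
  have h0 : ((inj H G : ℕ) : ℝ) ≤ ((inj H G' + Nat.card α ^ 2 * (df G G' * Nat.card V ^ (Nat.card α - 2)) : ℕ) : ℝ) :=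
    Nat.cast_le.2 (inj_le_add_df H G G')
  push_cast at h0
  exact h0

theorem two_moves [Finite α] [Nonempty α] {q t : ℕ} (hq : 1 ≤ q) {H : SimpleGraph α} (hH : H.Colorable 2)
    (hI : NoIso H) :
    ∃ κ : ℝ, 0 < κ ∧ (∃ n₁ : ℕ, ∀ (V : Type) [Finite V], n₁ ≤ Nat.card V → ∀ G : SimpleGraph V,
      TS q t H G → ∀ x y, Nt G κ x y → ¬ G.Adj x y) ∧ ∀ C E : ℝ, 0 ≤ C → 0 ≤ E → ∃ (C₄ ε : ℝ) (n₀ : ℕ), 0 < ε ∧
      ∀ (V : Type) [Finite V], n₀ ≤ Nat.card V → ∀ G Γ : SimpleGraph V, TS q t H G → Γ ≤ G →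
      ∀ s S : ℝ, 1 ≤ s → s ≤ S → s ≤ ε * Nat.card V → (df G Γ : ℝ) ≤ s ^ 2 → ∀ (x y : V) (M : Set V), Γ.Adj x y →
      (dD G Γ x : ℝ) ≤ C * s → (dD G Γ y : ℝ) ≤ C * s →
      (∀ v, (dg H Γ v : ℝ) ≤ dg H Γ x + C * s * (Nat.card V : ℝ) ^ (Nat.card α - 2)) →
      (∀ v, (dg H Γ v : ℝ) ≤ dg H Γ y + C * s * (Nat.card V : ℝ) ^ (Nat.card α - 2)) →
      (∀ w ∈ M, Nt G κ x w ∧ (dD G Γ w : ℝ) ≤ C * s ∧ ¬ Γ.Adj y w) →
      (∀ M₁ M₂ : Set V, M₁ ⊆ M → M₂ ⊆ M → Disjoint M₁ M₂ →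
        (inj H (Mv (Mv Γ M₁ (Γ.neighborSet x)) M₂ ((Mv Γ M₁ (Γ.neighborSet x)).neighborSet y)) : ℝ) ≤
          inj H Γ + E * (S ^ 2 + M₁.ncard * S) * (Nat.card V : ℝ) ^ (Nat.card α - 2)) →
      (M.ncard : ℝ) ≤ C₄ * S := by
  obtain ⟨χ, a₀, b₀, hχ, hab, h₀⟩ := exists_chi hH hI
  obtain ⟨κN, hκN, n₁, hN⟩ := ntna (t := t) hq hH hI
  obtain ⟨τ, hτ, n₂, hcr⟩ := cross (t := t) hq hH hI
  obtain ⟨cd, hcd, n₃, hde⟩ := dense χ a₀ b₀ (τ := τ / 2) (by positivity)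
  have hh : (0 : ℝ) < Nat.card α := by exact_mod_cast Nat.card_pos
  set h : ℝ := (Nat.card α : ℝ) with hhdef
  set B : ℝ := h ^ 2 with hBdef
  have hB : 0 < B := by positivity
  set c : ℝ := min cd B with hcdef
  have hc : 0 < c := lt_min hcd hB
  have hcB : c ≤ B := min_le_right _ _
  set b : ℝ := c / (16 * B) with hbdef
  have hb : 0 < b := by positivity
  set T : ℝ := 8 * h ^ 3 with hTdef
  have hT : 0 < T := by positivity
  set κ : ℝ := min κN (c * b / 32 / T) with hκdef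
  have hκ : 0 < κ := lt_min hκN (by positivity)
  have hκT : T * κ ≤ c * b / 32 := by
    have h1 : κ ≤ c * b / 32 / T := min_le_right _ _
    rw [le_div_iff₀ hT] at h1
    linarith
  have hNκ : ∀ (V : Type) [Finite V], n₁ ≤ Nat.card V → ∀ G : SimpleGraph V,
      TS q t H G → ∀ x y, Nt G κ x y → ¬ G.Adj x y := by
    intro V _ hn G hG x y hxy
    refine hN V hn G hG x y ?_
    exact le_trans hxy (mul_le_mul_of_nonneg_right (min_le_left _ _) (Nat.cast_nonneg _))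
  refine ⟨κ, hκ, ⟨n₁, hNκ⟩, ?_⟩
  intro C E hC hE
  set ε : ℝ := min 1 (min (κ / (2 * C + 1)) (τ / (2 * (2 * C + 1)))) with hεdef
  have hε : 0 < ε := lt_min one_pos (lt_min (by positivity) (by positivity))
  refine ⟨8 * ((C + E) + E) / (c * b) + 1 / b + 1, ε, n₁ + n₂ + n₃ + 1, hε, ?_⟩
  intro V _ hn G Γ hG hΓ s S hs hsS hsε hdf x y M hxy hdx hdy hgx hgy hM hup
  have hnpos : 0 < Nat.card V := by omega
  have hn0 : (0 : ℝ) < Nat.card V := by exact_mod_cast hnpos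
  set n : ℝ := (Nat.card V : ℝ) with hndef
  set P : ℝ := n ^ (Nat.card α - 2) with hPdef
  have hP : 0 < P := by positivity
  have hε1 : ε ≤ 1 := min_le_left _ _
  have hε2 : ε * (2 * C + 1) ≤ κ := by
    have h1 : ε ≤ κ / (2 * C + 1) := (min_le_right _ _).trans (min_le_left _ _)
    rwa [le_div_iff₀ (by positivity)] at h1
  have hε3 : ε * (2 * (2 * C + 1)) ≤ τ := by
    have h1 : ε ≤ τ / (2 * (2 * C + 1)) := (min_le_right _ _).trans (min_le_right _ _)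
    rwa [le_div_iff₀ (by positivity)] at h1
  have hCs : C * s ≤ C * ε * n := by
    rw [mul_assoc]
    exact mul_le_mul_of_nonneg_left hsε hC
  -- non-adjacency
  have hxG : G.Adj x y := hΓ hxy
  have hMx : ∀ w ∈ M, ¬ Γ.Adj w x := fun w hw h1 => hNκ V (by omega) G hG x w (hM w hw).1 (hΓ h1).symm
  have hxM : x ∉ M := fun h1 => (hM x h1).2.2 hxy.symm
  have hyM : y ∉ M := fun h1 => hNκ V (by omega) G hG x y (hM y h1).1 hxG
  -- the sets
  set m : ℕ := M.ncard with hmdef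
  have hk : ⌊b * (m : ℝ)⌋₊ ≤ M.ncard := by
    have hb16 : b ≤ 1 := by
      rw [hbdef, div_le_one (by positivity)]
      linarith
    refine Nat.floor_le_of_le ?_
    rw [← hmdef]
    have : (0 : ℝ) ≤ m := Nat.cast_nonneg m
    nlinarith
  obtain ⟨M₁, M₂, hM₁, hM₂, hdis, hc₂, hsum⟩ := exists_split M ⌊b * (m : ℝ)⌋₊ hk
  -- near twins in `Γ`
  have hK : ∀ w ∈ M₁, (symmDiff (Γ.neighborSet w) (Γ.neighborSet x)).ncard ≤ ⌊2 * κ * n⌋₊ := by
    intro w hw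
    refine Nat.le_floor ?_
    have h1 : ((symmDiff (Γ.neighborSet w) (Γ.neighborSet x)).ncard : ℝ) ≤
        (symmDiff (G.neighborSet x) (G.neighborSet w)).ncard + dD G Γ x + dD G Γ w := by
      exact_mod_cast symm_low hΓ x w
    have h2 : ((symmDiff (G.neighborSet x) (G.neighborSet w)).ncard : ℝ) ≤ κ * n := (hM w (hM₁ hw)).1
    have h3 := (hM w (hM₁ hw)).2.1
    have h4 : 2 * (C * ε * n) ≤ κ * n := by
      have : 2 * C * ε ≤ κ := by nlinarith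
      have h5 := mul_le_mul_of_nonneg_right this hn0.le
      linarith
    linarith
  have hKκ : ((⌊2 * κ * n⌋₊ : ℕ) : ℝ) ≤ 2 * κ * Nat.card V := Nat.floor_le (by positivity)
  -- density
  have hpe : τ / 2 * n ^ 2 ≤ pe Γ (Γ.neighborSet y) (Γ.neighborSet x) := by
    have h1 := hcr V (by omega) G hG y x hxG.symm
    have h2 : (pe G (G.neighborSet y) (G.neighborSet x) : ℝ) ≤ pe Γ (Γ.neighborSet y) (Γ.neighborSet x) +
        dD G Γ y * n + dD G Γ x * n + df G Γ := by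
      have h0 := pe_low (G := G) (G' := Γ) (G.neighborSet y) (G.neighborSet x) (Γ.neighborSet y) (Γ.neighborSet x)
      have h0' : ((pe G (G.neighborSet y) (G.neighborSet x) : ℕ) : ℝ) ≤
          ((pe Γ (Γ.neighborSet y) (Γ.neighborSet x) + dD G Γ y * Nat.card V + dD G Γ x * Nat.card V + df G Γ : ℕ) : ℝ) :=
        Nat.cast_le.2 h0
      push_cast at h0'
      exact h0'
    have h3 : (dD G Γ y : ℝ) * n ≤ C * ε * n * n := mul_le_mul_of_nonneg_right (hdy.trans hCs) hn0.le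
    have h4 : (dD G Γ x : ℝ) * n ≤ C * ε * n * n := mul_le_mul_of_nonneg_right (hdx.trans hCs) hn0.le
    have h5 : s ^ 2 ≤ ε * n ^ 2 := by
      have h6 : s ^ 2 ≤ (ε * n) ^ 2 := pow_le_pow_left₀ (by linarith) hsε 2
      have h7 : (ε * n) ^ 2 ≤ ε * n ^ 2 := by
        have : ε ^ 2 ≤ ε := by nlinarith
        have h8 := mul_le_mul_of_nonneg_right this (by positivity : (0 : ℝ) ≤ n ^ 2)
        linarith [mul_pow ε n 2]
      exact h6.trans h7
    have h6 : ε * (2 * C + 1) * n ^ 2 ≤ τ / 2 * n ^ 2 := by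
      refine mul_le_mul_of_nonneg_right ?_ (by positivity)
      linarith
    have h7 : C * ε * n * n + C * ε * n * n + ε * n ^ 2 = ε * (2 * C + 1) * n ^ 2 := by ring
    linarith
  have hcP : c * P ≤ ((DS χ a₀ b₀ Γ (Γ.neighborSet y) (Γ.neighborSet x) y).ncard : ℝ) := by
    have h1 := hde V (by omega) Γ (Γ.neighborSet y) (Γ.neighborSet x) y hpe
    have h2 : c * P ≤ cd * P := mul_le_mul_of_nonneg_right (min_le_left _ _) hP.le
    exact h2.trans h1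
  have hcore := core2 H χ hχ a₀ b₀ hab h₀ Γ x y hxy M₁ M₂ hdis (fun h1 => hxM (hM₁ h1)) (fun h1 => hyM (hM₁ h1))
    (fun h1 => hyM (hM₂ h1)) (fun w hw => hMx w (hM₁ hw)) (fun w hw => hMx w (hM₂ hw))
    (fun w hw h1 => (hM w (hM₁ hw)).2.2 h1.symm) ⌊2 * κ * n⌋₊ hK (κ := 2 * κ) hKκ (by positivity)
    (Δ := C * s * P) hgx hgy hcP
  have hup' := hup M₁ M₂ hM₁ hM₂ hdis
  refine arith_gain (c := c) (B := B) (T := T) (κ := κ) (b := b) hc hB hcB rfl hκT (by linarith) hE (hs.trans hsS) m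
    M₁.ncard M₂.ncard hc₂ hsum ?_
  set m₁ : ℝ := (M₁.ncard : ℝ) with hm₁
  set m₂ : ℝ := (M₂.ncard : ℝ) with hm₂
  have hm₁0 : 0 ≤ m₁ := Nat.cast_nonneg _
  have hm₂0 : 0 ≤ m₂ := Nat.cast_nonneg _
  have hS0 : 0 ≤ S := by linarith
  have e1 : (c * m₁ * m₂) * P ≤ ((m₁ + m₂) * (C * s) + T * κ * (m₁ ^ 2 + m₁ * m₂) + B * m₂ ^ 2 +
      E * (S ^ 2 + m₁ * S)) * P := by
    rw [hTdef]
    linarith
  have e2 := le_of_mul_le_mul_right e1 hP
  have e3 : C * s ≤ C * S := mul_le_mul_of_nonneg_left hsS hC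
  have e4 : (m₁ + m₂) * (C * s) ≤ (m₁ + m₂) * (C * S) := mul_le_mul_of_nonneg_left e3 (by positivity)
  have e5 : 0 ≤ m₂ * (E * S) := by positivity
  have e6 : (m₁ + m₂) * ((C + E) * S) = (m₁ + m₂) * (C * S) + E * (m₁ * S) + m₂ * (E * S) := by ring
  rw [e6]
  linarith

theorem one' [Finite α] [Nonempty α] {q t : ℕ} (hq : 1 ≤ q) {H : SimpleGraph α} (hH : H.Colorable 2) (hI : NoIso H) :
    ∃ κ : ℝ, 0 < κ ∧ (∃ n₁ : ℕ, ∀ (V : Type) [Finite V], n₁ ≤ Nat.card V → ∀ G : SimpleGraph V,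
      TS q t H G → ∀ x y, Nt G κ x y → ¬ G.Adj x y) ∧ ∀ C : ℝ, ∃ (C₂ : ℝ) (n₀ : ℕ), ∀ (V : Type) [Finite V], n₀ ≤ Nat.card V →
      ∀ G G' : SimpleGraph V, TS q t H G → MinDel G G' (q + 2) → ∀ s : ℝ, 1 ≤ s → (df G G' : ℝ) = s ^ 2 →
      (∀ (a b : V) (M : Set V), G'.Adj a b → (dD G G' a : ℝ) ≤ C * s → (dD G G' b : ℝ) ≤ C * s →
        (∀ w ∈ M, Nt G κ b w ∧ (dD G G' w : ℝ) ≤ C * s ∧ ¬ G'.Adj a w) → (M.ncard : ℝ) ≤ C₂ * s) ∧
      ((∀ w, (dD G G' w : ℝ) ≤ C * s) → ∀ (x y : V) (M Z : Set V), G.Adj x y → ¬ G'.Adj x y →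
        (∀ w ∈ M, Nt G κ x w ∧ ¬ G.Adj y w) → x ∉ Z → y ∉ Z →
        (∀ L : Fin q → V, (∀ i, G'.Adj x (L i) ∧ G'.Adj y (L i)) → (∀ i j, i ≠ j → G'.Adj (L i) (L j)) →
          ∃ i, L i ∈ Z) → (M.ncard : ℝ) ≤ C₂ * (s + Z.ncard)) := by
  obtain ⟨κ, hκ, hNN, htm⟩ := two_moves (t := t) hq hH hI
  refine ⟨κ, hκ, hNN, ?_⟩
  intro C
  obtain ⟨C₁, n₁, hC₁, havg⟩ := avg hq hH hI
  have hh : (0 : ℝ) < Nat.card α := by exact_mod_cast Nat.card_pos
  set h : ℝ := (Nat.card α : ℝ) with hhdef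
  set D : ℝ := max C 0 with hDdef
  have hD : 0 ≤ D := le_max_right _ _
  have hCD : C ≤ D := le_max_left _ _
  set C' : ℝ := D + C₁ + h ^ 2 * D + h ^ 2 + 3 * h ^ 3 with hC'def
  have hC' : 0 ≤ C' := by positivity
  obtain ⟨C₄, ε, n₂, hε, hmain⟩ := htm C' (3 * h ^ 2) hC' (by positivity)
  obtain ⟨n₃, hsm⟩ := small_s q t hε
  obtain ⟨n₄, hna⟩ := hNN
  refine ⟨C₄, n₁ + n₂ + n₃ + n₄ + 1, ?_⟩
  intro V _ hn G G' hG hmin s hs hdf
  have hnpos : 0 < Nat.card V := by omega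
  have hn0 : (0 : ℝ) < Nat.card V := by exact_mod_cast hnpos
  set n : ℝ := (Nat.card V : ℝ) with hndef
  set P : ℝ := n ^ (Nat.card α - 2) with hPdef
  have hP : 0 < P := by positivity
  have hsε := hsm V (by omega) G G' hG.noplus hmin s hdf
  have hs0 : 0 ≤ s := by linarith
  have hDC' : D ≤ C' := by
    rw [hC'def]
    have : 0 ≤ C₁ + h ^ 2 * D + h ^ 2 + 3 * h ^ 3 := by positivity
    linarith
  have hle1 : ∀ v, (dD G G' v : ℝ) ≤ C * s → (dD G G' v : ℝ) ≤ D * s := fun v hv =>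
    hv.trans (mul_le_mul_of_nonneg_right hCD hs0)
  have hDs : D * s ≤ C' * s := mul_le_mul_of_nonneg_right hDC' hs0
  have havg' := havg V (by omega) G G' t hG hmin.le hmin.cf s hs hdf
  have hinjG : (aK q H (Nat.card V) : ℝ) ≤ inj H G := by exact_mod_cast hG.inj
  constructor
  · intro a b M hab hda hdb hM
    have hΔ : ∀ u, (dD G G' u : ℝ) ≤ C * s → ∀ v, (dg H G' v : ℝ) ≤ dg H G' u + C' * s * P := by
      intro u hu v
      have h1 := havg' v u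
      have h2 := dgl H G G' hmin.le u hs hdf.le
      have h3 : h ^ 2 * dD G G' u ≤ h ^ 2 * (D * s) := mul_le_mul_of_nonneg_left (hle1 u hu) (by positivity)
      have h4 : (h ^ 2 * dD G G' u + h ^ 3 * s) * P ≤ (h ^ 2 * (D * s) + h ^ 3 * s) * P :=
        mul_le_mul_of_nonneg_right (by linarith) hP.le
      have h5 : 0 ≤ (D * s + h ^ 2 * s + 2 * h ^ 3 * s) * P := by positivity
      have h6 : C' * s * P = (h ^ 2 * (D * s) + h ^ 3 * s) * P + C₁ * s * P +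
          (D * s + h ^ 2 * s + 2 * h ^ 3 * s) * P := by
        rw [hC'def]
        ring
      rw [h6]
      linarith
    refine hmain V (by omega) G G' hG hmin.le s s hs le_rfl hsε hdf.le b a M hab.symm ((hle1 b hdb).trans hDs)
      ((hle1 a hda).trans hDs) (hΔ b hdb) (hΔ a hda) ?_ ?_
    · intro w hw
      obtain ⟨h1, h2, h3⟩ := hM w hw
      exact ⟨h1, (hle1 w h2).trans hDs, h3⟩
    · intro M₁ M₂ hM₁ hM₂ hdis
      have hb₁ : b ∉ M₁ := fun h1 => (hM b (hM₁ h1)).2.2 hab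
      have ha₂ : a ∉ M₂ := fun h1 => hna V (by omega) G hG b a (hM a (hM₂ h1)).1 (hmin.le hab).symm
      have h1 := inj_le_aK H (mv_cf (mv_cf hmin.cf M₁ b hb₁) M₂ a ha₂)
      have h2 : (inj H G : ℝ) ≤ inj H G' + h ^ 2 * (s ^ 2 * P) := by
        rw [← hdf]
        exact inj_le_add_df' H G G'
      have h3 : (inj H (Mv (Mv G' M₁ (G'.neighborSet b)) M₂ ((Mv G' M₁ (G'.neighborSet b)).neighborSet a)) : ℝ) ≤
          aK q H (Nat.card V) := by exact_mod_cast h1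
      have h4 : 0 ≤ h ^ 2 * (2 * s ^ 2 + 3 * (M₁.ncard * s)) * P := by positivity
      have h5 : 3 * h ^ 2 * (s ^ 2 + M₁.ncard * s) * P = h ^ 2 * (s ^ 2 * P) +
          h ^ 2 * (2 * s ^ 2 + 3 * (M₁.ncard * s)) * P := by ring
      rw [h5]
      linarith
  · intro hdall x y M Z hxy hxy' hM hxZ hyZ hZ
    have hne : x ≠ y := hxy.ne
    set Γ : SimpleGraph V := G' ⊔ SimpleGraph.edge x y with hΓdef
    have hΓG : Γ ≤ G := by
      refine sup_le hmin.le ?_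
      intro u v huv
      rw [SimpleGraph.edge_adj] at huv
      rcases huv.1 with ⟨rfl, rfl⟩ | ⟨rfl, rfl⟩
      · exact hxy
      · exact hxy.symm
    have hG'Γ : G' ≤ Γ := le_sup_left
    have hΓxy : Γ.Adj x y := by
      rw [hΓdef, SimpleGraph.sup_adj, SimpleGraph.edge_adj]
      exact Or.inr ⟨Or.inl ⟨rfl, rfl⟩, hne⟩
    have hdfΓ : (df G Γ : ℝ) ≤ s ^ 2 := by
      rw [← hdf]
      exact_mod_cast df_anti hG'Γ
    have hdDΓ : ∀ v, (dD G Γ v : ℝ) ≤ D * s := fun v =>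
      le_trans (by exact_mod_cast dD_anti hG'Γ v) (hle1 v (hdall v))
    -- `Γ` has one edge more than `G'`
    have hpairs : ∀ u v, Γ.Adj u v → ¬ G'.Adj u v → (u = x ∧ v = y) ∨ (u = y ∧ v = x) := by
      intro u v h1 h2
      rw [hΓdef, SimpleGraph.sup_adj, SimpleGraph.edge_adj] at h1
      rcases h1 with h1 | h1
      · exact absurd h1 h2
      · rcases h1.1 with h3 | h3
        · exact Or.inl ⟨h3.1, h3.2⟩
        · exact Or.inr ⟨h3.1, h3.2⟩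
    have hdf2 : (df Γ G' : ℝ) ≤ (2 : ℝ) ^ 2 := by
      have h1 : df Γ G' ≤ 2 := by
        unfold df
        have hsub : {p : V × V | Γ.Adj p.1 p.2 ∧ ¬ G'.Adj p.1 p.2} ⊆ {(x, y), (y, x)} := by
          rintro ⟨u, v⟩ ⟨h1, h2⟩
          rcases hpairs u v h1 h2 with ⟨rfl, rfl⟩ | ⟨rfl, rfl⟩
          · exact Or.inl rfl
          · exact Or.inr rfl
        refine (Set.ncard_le_ncard hsub (Set.toFinite _)).trans ?_
        refine (Set.ncard_insert_le _ _).trans ?_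
        rw [Set.ncard_singleton]
      have h2 : (df Γ G' : ℝ) ≤ 2 := by exact_mod_cast h1
      linarith
    have hdD1 : ∀ v, (dD Γ G' v : ℝ) ≤ 1 := by
      intro v
      have h1 : dD Γ G' v ≤ 1 := by
        unfold dD
        by_cases hvx : v = x
        · subst hvx
          have hsub : Γ.neighborSet v \ G'.neighborSet v ⊆ {y} := by
            rintro z ⟨h1, h2⟩
            rcases hpairs v z h1 h2 with ⟨-, rfl⟩ | ⟨h3, -⟩
            · exact rfl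
            · exact absurd h3 hne
          refine (Set.ncard_le_ncard hsub (Set.toFinite _)).trans ?_
          rw [Set.ncard_singleton]
        · have hsub : Γ.neighborSet v \ G'.neighborSet v ⊆ {x} := by
            rintro z ⟨h1, h2⟩
            rcases hpairs v z h1 h2 with ⟨h3, -⟩ | ⟨-, rfl⟩
            · exact absurd h3 hvx
            · exact rfl
          refine (Set.ncard_le_ncard hsub (Set.toFinite _)).trans ?_
          rw [Set.ncard_singleton]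
      exact_mod_cast h1
    have hΔ : ∀ u v, (dg H Γ v : ℝ) ≤ dg H Γ u + C' * s * P := by
      intro u v
      have h0 := dgl H Γ G' hG'Γ v (s := 2) (by norm_num) hdf2
      have h1 := havg' v u
      have h2 := dgl H G Γ hΓG u hs hdfΓ
      have h3 : h ^ 2 * dD G Γ u ≤ h ^ 2 * (D * s) := mul_le_mul_of_nonneg_left (hdDΓ u) (by positivity)
      have h4 : (h ^ 2 * dD G Γ u + h ^ 3 * s) * P ≤ (h ^ 2 * (D * s) + h ^ 3 * s) * P :=
        mul_le_mul_of_nonneg_right (by linarith) hP.le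
      have h5 : h ^ 2 * dD Γ G' v ≤ h ^ 2 * 1 := mul_le_mul_of_nonneg_left (hdD1 v) (by positivity)
      have h6 : (h ^ 2 * dD Γ G' v + h ^ 3 * 2) * P ≤ (h ^ 2 * s + 2 * h ^ 3 * s) * P := by
        refine mul_le_mul_of_nonneg_right ?_ hP.le
        have e1 : h ^ 2 * 1 ≤ h ^ 2 * s := mul_le_mul_of_nonneg_left hs (by positivity)
        have e2 : h ^ 3 * 1 ≤ h ^ 3 * s := mul_le_mul_of_nonneg_left hs (by positivity)
        linarith
      have h7 : 0 ≤ (D * s) * P := by positivity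
      have h8 : C' * s * P = (h ^ 2 * (D * s) + h ^ 3 * s) * P + C₁ * s * P + (h ^ 2 * s + 2 * h ^ 3 * s) * P +
          (D * s) * P := by
        rw [hC'def]
        ring
      rw [h8]
      linarith
    have hZ0 : (0 : ℝ) ≤ Z.ncard := Nat.cast_nonneg _
    refine hmain V (by omega) G Γ hG hΓG s (s + Z.ncard) hs (by linarith) hsε hdfΓ x y M hΓxy ((hdDΓ x).trans hDs)
      ((hdDΓ y).trans hDs) (hΔ x) (hΔ y) ?_ ?_
    · intro w hw
      obtain ⟨h1, h2⟩ := hM w hw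
      exact ⟨h1, (hdDΓ w).trans hDs, fun h3 => h2 (hΓG h3)⟩
    · intro M₁ M₂ hM₁ hM₂ hdis
      have hxM : x ∉ M := fun h1 => (hM x h1).2 hxy.symm
      have hyM : y ∉ M := fun h1 => hna V (by omega) G hG x y (hM y h1).1 hxy
      obtain ⟨Γ₂, hcf, hdf₂⟩ := upz hmin.cf x y hne M₁ M₂ Z hdis (fun h1 => hxM (hM₁ h1)) (fun h1 => hxM (hM₂ h1))
        (fun h1 => hyM (hM₁ h1)) (fun h1 => hyM (hM₂ h1))
        (fun w hw h1 => (hM w (hM₁ hw)).2 (hmin.le h1).symm) hxZ hyZ hZ Γ _ _ hΓdef rfl rfl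
      have h1 : (inj H Γ₂ : ℝ) ≤ aK q H (Nat.card V) := by exact_mod_cast inj_le_aK H hcf
      have h2 : (inj H G : ℝ) ≤ inj H Γ + h ^ 2 * (s ^ 2 * P) := by
        have h3 : (inj H G : ℝ) ≤ inj H Γ + h ^ 2 * (df G Γ * P) := by
          exact inj_le_add_df' H G Γ
        have h4 : h ^ 2 * ((df G Γ : ℝ) * P) ≤ h ^ 2 * (s ^ 2 * P) :=
          mul_le_mul_of_nonneg_left (mul_le_mul_of_nonneg_right hdfΓ hP.le) (by positivity)
        linarith
      set G₂ := Mv (Mv Γ M₁ (Γ.neighborSet x)) M₂ ((Mv Γ M₁ (Γ.neighborSet x)).neighborSet y) with hG₂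
      have h3 : (inj H G₂ : ℝ) ≤ inj H Γ₂ + h ^ 2 * (df G₂ Γ₂ * P) := by
        exact inj_le_add_df' H G₂ Γ₂
      have h4 : (df G₂ Γ₂ : ℝ) ≤ 2 * ((M₁.ncard + 1) * Z.ncard) := by exact_mod_cast hdf₂
      have h5 : h ^ 2 * ((df G₂ Γ₂ : ℝ) * P) ≤ h ^ 2 * ((2 * ((M₁.ncard + 1) * Z.ncard)) * P) :=
        mul_le_mul_of_nonneg_left (mul_le_mul_of_nonneg_right h4 hP.le) (by positivity)
      set z : ℝ := (Z.ncard : ℝ) with hz
      set m₁ : ℝ := (M₁.ncard : ℝ) with hm₁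
      have hm0 : 0 ≤ m₁ := Nat.cast_nonneg _
      have h6 : s ^ 2 + 2 * ((m₁ + 1) * z) ≤ 3 * ((s + z) ^ 2 + m₁ * (s + z)) := by nlinarith
      have h7 : h ^ 2 * P * (s ^ 2 + 2 * ((m₁ + 1) * z)) ≤ h ^ 2 * P * (3 * ((s + z) ^ 2 + m₁ * (s + z))) :=
        mul_le_mul_of_nonneg_left h6 (by positivity)
      linarith

end Pool.Agent.WTG
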