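import Pool.Agent.WTG.Defs
import Pool.Agent.WTE.Dense
import Pool.Agent.WT7.FinM

/-!
# [WTG-OneA] tools for ONE and GAIN2 (helper57)
-/

set_option autoImplicit false

namespace Pool.Agent.WTG

open Pool.Agent.WT7 Pool.Agent.WTE

variable {α β V : Type}

/-- the arithmetic of the two moves -/
theorem arith_gain {c B T κ CΔ E s b : ℝ} (hc : 0 < c) (hB : 0 < B) (hcB : c ≤ B) (hb : b = c / (16 * B))
    (hκ : T * κ ≤ c * b / 32) (hCΔ : 0 ≤ CΔ) (hE : 0 ≤ E) (hs : 1 ≤ s) (m m₁ m₂ : ℕ)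
    (hm₂ : m₂ = ⌊b * (m : ℝ)⌋₊) (hm : m = m₁ + m₂)
    (h : c * m₁ * m₂ ≤ ((m₁ : ℝ) + m₂) * (CΔ * s) + T * κ * ((m₁ : ℝ) ^ 2 + m₁ * m₂) + B * (m₂ : ℝ) ^ 2 + E * s ^ 2) :
    (m : ℝ) ≤ (8 * (CΔ + E) / (c * b) + 1 / b + 1) * s := by
  have hb0 : 0 < b := by rw [hb]; positivity
  have hb16 : b ≤ 1 / 16 := by
    rw [hb, div_le_div_iff₀ (by positivity) (by norm_num)]
    linarith
  have hs0 : 0 < s := by linarith
  have hm0 : (0 : ℝ) ≤ m := Nat.cast_nonneg m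
  have hA : 0 ≤ 8 * (CΔ + E) / (c * b) := by positivity
  have hB' : 0 ≤ 1 / b := by positivity
  by_cases hsmall : b * (m : ℝ) < 1
  · have h1 : (m : ℝ) ≤ 1 / b := by
      rw [le_div_iff₀ hb0]
      linarith
    nlinarith
  · push Not at hsmall
    by_contra hcon
    push Not at hcon
    have hfl : (m₂ : ℝ) ≤ b * m := by
      rw [hm₂]
      exact Nat.floor_le (by positivity)
    have hfl2 : b * (m : ℝ) < m₂ + 1 := by
      rw [hm₂]
      exact Nat.lt_floor_add_one _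
    have hfl1 : (1 : ℝ) ≤ m₂ := by
      have : 1 ≤ m₂ := by
        rw [hm₂]
        exact Nat.le_floor (by simpa using hsmall)
      exact_mod_cast this
    have hhalf : b * m / 2 ≤ m₂ := by linarith
    have hmR : (m : ℝ) = m₁ + m₂ := by rw [hm]; push_cast; ring
    have hm₁0 : (0 : ℝ) ≤ m₁ := Nat.cast_nonneg _
    have hm₂0 : (0 : ℝ) ≤ m₂ := Nat.cast_nonneg _
    have hm₁ : (m : ℝ) / 2 ≤ m₁ := by nlinarith
    have hm₁' : (m₁ : ℝ) ≤ m := by linarith
    have hm₂' : (m₂ : ℝ) ≤ m := by linarith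
    have hsm : s ≤ m := by nlinarith
    -- lower bound of the left side
    have h1 : c * (m / 2) * (b * m / 2) ≤ c * m₁ * m₂ := by
      apply mul_le_mul _ hhalf (by positivity) (by positivity)
      exact mul_le_mul_of_nonneg_left hm₁ hc.le
    have h2 : T * κ * ((m₁ : ℝ) ^ 2 + m₁ * m₂) ≤ c * b / 32 * (2 * m ^ 2) := by
      apply mul_le_mul hκ _ (by positivity) (by positivity)
      nlinarith
    have h3 : B * (m₂ : ℝ) ^ 2 ≤ c * b / 16 * m ^ 2 := by
      have h4 : (m₂ : ℝ) ^ 2 ≤ (b * m) ^ 2 := pow_le_pow_left₀ hm₂0 hfl 2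
      have h5 : B * (b * m) ^ 2 = c * b / 16 * m ^ 2 := by
        have : B * b = c / 16 := by
          rw [hb]
          field_simp
        calc B * (b * m) ^ 2 = (B * b) * b * m ^ 2 := by ring
          _ = c * b / 16 * m ^ 2 := by rw [this]; ring
      rw [← h5]
      exact mul_le_mul_of_nonneg_left h4 hB.le
    have h4 : E * s ^ 2 ≤ E * (s * m) := by
      apply mul_le_mul_of_nonneg_left _ hE
      nlinarith
    have h5 : ((m₁ : ℝ) + m₂) * (CΔ * s) = m * (CΔ * s) := by rw [hmR]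
    have h6 : c * b / 8 * m ^ 2 ≤ m * (s * (CΔ + E)) := by
      rw [h5] at h
      linarith
    have h7 : c * b / 8 * m ≤ s * (CΔ + E) := by
      have hmpos : (0 : ℝ) < m := by linarith
      have : (c * b / 8 * m) * m ≤ (s * (CΔ + E)) * m := by linarith
      exact le_of_mul_le_mul_right this hmpos
    have h8 : (m : ℝ) ≤ 8 * (CΔ + E) / (c * b) * s := by
      rw [div_mul_eq_mul_div, le_div_iff₀ (by positivity)]
      linarith
    have h9 : 0 ≤ 1 / b * s := by positivity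
    have h10 : (8 * (CΔ + E) / (c * b) + 1 / b + 1) * s = 8 * (CΔ + E) / (c * b) * s + 1 / b * s + s := by ring
    rw [h10] at hcon
    linarith

/-- `pe` in a subgraph -/
theorem pe_low [Finite V] {G G' : SimpleGraph V} (A B A' B' : Set V) :
    pe G A B ≤ pe G' A' B' + (A \ A').ncard * Nat.card V + (B \ B').ncard * Nat.card V + df G G' := by
  classical
  have hsub : {p : V × V | p.1 ∈ A ∧ p.2 ∈ B ∧ G.Adj p.1 p.2} ⊆
      (({p : V × V | p.1 ∈ A' ∧ p.2 ∈ B' ∧ G'.Adj p.1 p.2} ∪ ((A \ A') ×ˢ (Set.univ : Set V))) ∪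
        ((Set.univ : Set V) ×ˢ (B \ B'))) ∪ {p : V × V | G.Adj p.1 p.2 ∧ ¬ G'.Adj p.1 p.2} := by
    rintro ⟨x, y⟩ ⟨h1, h2, h3⟩
    by_cases hx : x ∈ A'
    · by_cases hy : y ∈ B'
      · by_cases hxy : G'.Adj x y
        · exact Or.inl (Or.inl (Or.inl ⟨hx, hy, hxy⟩))
        · exact Or.inr ⟨h3, hxy⟩
      · exact Or.inl (Or.inr ⟨Set.mem_univ _, h2, hy⟩)
    · exact Or.inl (Or.inl (Or.inr ⟨⟨h1, hx⟩, Set.mem_univ _⟩))
  unfold pe df
  refine (Set.ncard_le_ncard hsub (Set.toFinite _)).trans ?_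
  refine (Set.ncard_union_le _ _).trans (Nat.add_le_add_right ?_ _)
  refine (Set.ncard_union_le _ _).trans ?_
  rw [Set.ncard_prod, Set.ncard_univ]
  refine Nat.add_le_add ((Set.ncard_union_le _ _).trans ?_) (le_of_eq (Nat.mul_comm _ _))
  rw [Set.ncard_prod, Set.ncard_univ]

theorem symm_low [Finite V] {G G' : SimpleGraph V} (hle : G' ≤ G) (x w : V) :
    (symmDiff (G'.neighborSet w) (G'.neighborSet x)).ncard ≤
      (symmDiff (G.neighborSet x) (G.neighborSet w)).ncard + dD G G' x + dD G G' w := by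
  classical
  have hsub : symmDiff (G'.neighborSet w) (G'.neighborSet x) ⊆
      (symmDiff (G.neighborSet x) (G.neighborSet w) ∪ (G.neighborSet x \ G'.neighborSet x)) ∪
        (G.neighborSet w \ G'.neighborSet w) := by
    intro z hz
    rcases hz with ⟨h1, h2⟩ | ⟨h1, h2⟩
    · have h3 : z ∈ G.neighborSet w := hle h1
      by_cases h4 : z ∈ G.neighborSet x
      · exact Or.inl (Or.inr ⟨h4, h2⟩)
      · exact Or.inl (Or.inl (Or.inr ⟨h3, h4⟩))
    · have h3 : z ∈ G.neighborSet x := hle h1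
      by_cases h4 : z ∈ G.neighborSet w
      · exact Or.inr ⟨h4, h2⟩
      · exact Or.inl (Or.inl (Or.inl ⟨h3, h4⟩))
  refine (Set.ncard_le_ncard hsub (Set.toFinite _)).trans ((Set.ncard_union_le _ _).trans ?_)
  exact Nat.add_le_add_right (Set.ncard_union_le _ _) _

theorem df_anti [Finite V] {G G' G'' : SimpleGraph V} (h : G' ≤ G'') : df G G'' ≤ df G G' := by
  unfold df
  refine Set.ncard_le_ncard ?_ (Set.toFinite _)
  rintro ⟨a, b⟩ ⟨h1, h2⟩
  exact ⟨h1, fun h3 => h2 (h h3)⟩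

theorem dD_anti [Finite V] {G G' G'' : SimpleGraph V} (h : G' ≤ G'') (v : V) : dD G G'' v ≤ dD G G' v := by
  unfold dD
  refine Set.ncard_le_ncard ?_ (Set.toFinite _)
  rintro z ⟨h1, h2⟩
  exact ⟨h1, fun h3 => h2 (h h3)⟩

/-- a proper 2-colouring with an edge -/
theorem exists_chi [Nonempty α] {H : SimpleGraph α} (hH : H.Colorable 2) (hI : NoIso H) :
    ∃ (χ : α → Bool) (a₀ b₀ : α), (∀ x y, H.Adj x y → χ x ≠ χ y) ∧ H.Adj a₀ b₀ ∧ χ a₀ = true := by
  obtain ⟨x₀⟩ := (inferInstance : Nonempty α)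
  obtain ⟨C⟩ := hH
  obtain ⟨y₀, hy₀⟩ := hI x₀
  refine ⟨fun x => decide (C x = C x₀), x₀, y₀, fun x y hxy h => ?_, hy₀, by simp⟩
  have hne := C.valid hxy
  have h' : (C x = C x₀ ↔ C y = C x₀) := by
    simpa using h
  have hx : (C x : ℕ) < 2 := (C x).2
  have hy : (C y : ℕ) < 2 := (C y).2
  have h0 : (C x₀ : ℕ) < 2 := (C x₀).2
  rw [Fin.ext_iff, Fin.ext_iff] at h'
  rw [Ne, Fin.ext_iff] at hne
  omega

theorem free_of_cf {k : ℕ} {G : SimpleGraph V} (h : G.CliqueFree k) : (⊤ : SimpleGraph (Fin k)).Free G := by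
  have h5 := SimpleGraph.cliqueFree_iff.1 h
  rintro ⟨f⟩
  exact h5.elim f

theorem inj_le_aK [Finite α] [Finite V] {q : ℕ} (H : SimpleGraph α) {G : SimpleGraph V} (h : G.CliqueFree (q + 2)) :
    inj H G ≤ aK q H (Nat.card V) := inj_le_bF H _ (free_of_cf h)

/-- split a set -/
theorem exists_split [Finite V] (M : Set V) (k : ℕ) (hk : k ≤ M.ncard) :
    ∃ M₁ M₂ : Set V, M₁ ⊆ M ∧ M₂ ⊆ M ∧ Disjoint M₁ M₂ ∧ M₂.ncard = k ∧ M.ncard = M₁.ncard + M₂.ncard := by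
  obtain ⟨M₂, h1, h2⟩ := Set.exists_subset_card_eq hk
  refine ⟨M \ M₂, M₂, Set.sdiff_subset, h1, Set.disjoint_sdiff_left, h2, ?_⟩
  exact (Set.ncard_sdiff_add_ncard_of_subset h1 (Set.toFinite _)).symm

end Pool.Agent.WTG
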