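import Pool.Agent.WTG.ExactK

/-!
# [WTG-PlusG] the graphs `K_{q+1}(t+2)` plus an edge (helper1)

`PlusG q t`: the complete `(q+1)`-partite graph with parts of size `t + 2` with one edge added inside a part. It is `(q+2)`-chromatic and the added edge
is colour-critical.
-/

set_option autoImplicit false

namespace Pool.Agent.WTG

open Pool.Agent.WT7 Pool.Agent.WTE

variable {α β V : Type}

/-- the complete `(q+1)`-partite graph with parts of size `t + 2` and the edge between `(0, 0)` and `(0, 1)` in the part `0` -/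
def PlusG (q t : ℕ) : SimpleGraph (_root_.Fin (q + 1) × _root_.Fin (t + 2)) where
  Adj p r := p.1 ≠ r.1 ∨ (p = (0, 0) ∧ r = (0, 1)) ∨ (p = (0, 1) ∧ r = (0, 0))
  symm := ⟨by
    rintro p r (h | h | h)
    · exact Or.inl h.symm
    · exact Or.inr (Or.inr ⟨h.2, h.1⟩)
    · exact Or.inr (Or.inl ⟨h.2, h.1⟩)⟩
  loopless := ⟨by
    rintro p (h | ⟨h1, h2⟩ | ⟨h1, h2⟩)
    · exact h rfl
    · rw [h1] at h2
      simp at h2
    · rw [h1] at h2
      simp at h2⟩

theorem plusG_chi (q t : ℕ) : (PlusG q t).chromaticNumber = (q + 2 : ℕ) := by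
  classical
  refine le_antisymm ?_ ?_
  · have h : (PlusG q t).Colorable (q + 2) := by
      refine ⟨SimpleGraph.Coloring.mk
        (fun p => if p = (0, 1) then Fin.last (q + 1) else (p.1.castSucc : _root_.Fin (q + 2))) ?_⟩
      intro p r hpr
      by_cases hp : p = (0, 1)
      · by_cases hr : r = (0, 1)
        · rw [hp, hr] at hpr
          exact absurd hpr ((PlusG q t).loopless.irrefl _)
        · simp only [hp, hr, if_true, if_false]
          exact (Fin.castSucc_lt_last _).ne'
      · by_cases hr : r = (0, 1)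
        · simp only [hp, hr, if_true, if_false]
          exact (Fin.castSucc_lt_last _).ne
        · simp only [hp, hr, if_false]
          intro h
          have h1 : p.1 = r.1 := Fin.castSucc_injective _ h
          rcases hpr with h2 | ⟨-, h2⟩ | ⟨h2, -⟩
          · exact h2 h1
          · exact hr h2
          · exact hp h2
    exact h.chromaticNumber_le
  · have h1 : (⊤ : SimpleGraph (_root_.Fin (q + 2))).chromaticNumber = (q + 2 : ℕ) := by
      rw [SimpleGraph.chromaticNumber_top, Fintype.card_fin]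
    rw [← h1]
    refine SimpleGraph.chromaticNumber_mono_of_hom (G := (⊤ : SimpleGraph (_root_.Fin (q + 2)))) ⟨fun i =>
      if h : i = Fin.last (q + 1) then ((0, 1) : _root_.Fin (q + 1) × _root_.Fin (t + 2)) else (i.castPred h, 0), ?_⟩
    intro i j hij
    have hne : i ≠ j := hij
    by_cases hi : i = Fin.last (q + 1)
    · have hj : j ≠ Fin.last (q + 1) := fun h => hne (hi.trans h.symm)
      simp only [hi, hj, dite_true, dite_false]
      by_cases h0 : (j.castPred hj) = 0
      · right
        right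
        exact ⟨rfl, by rw [h0]⟩
      · left
        exact fun h => h0 h.symm
    · by_cases hj : j = Fin.last (q + 1)
      · simp only [hi, hj, dite_true, dite_false]
        by_cases h0 : (i.castPred hi) = 0
        · right
          left
          exact ⟨by rw [h0], rfl⟩
        · left
          exact h0
      · simp only [hi, hj, dite_false]
        left
        intro h
        exact hne ((Fin.castPred_inj (hi := hi) (hj := hj)).1 h)

theorem plusG_crit (q t : ℕ) : ∃ e, IsColorCritical (PlusG q t) e := by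
  refine ⟨s((0, 0), (0, 1)), Or.inr (Or.inl ⟨rfl, rfl⟩), ?_⟩
  rw [plusG_chi q t]
  have h : ((PlusG q t).deleteEdges {s((0, 0), (0, 1))}).Colorable (q + 1) := by
    refine ⟨SimpleGraph.Coloring.mk (fun p => p.1) ?_⟩
    intro p r hpr
    rw [SimpleGraph.deleteEdges_adj] at hpr
    obtain ⟨h1, h2⟩ := hpr
    rcases h1 with h1 | ⟨rfl, rfl⟩ | ⟨rfl, rfl⟩
    · exact h1
    · exact absurd (Set.mem_singleton _) h2
    · exact absurd (by rw [Set.mem_singleton_iff]; exact Sym2.eq_swap) h2
  have h1 := h.chromaticNumber_le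
  refine lt_of_le_of_lt h1 ?_
  exact_mod_cast Nat.lt_succ_self (q + 1)

theorem plusG_free {q t : ℕ} {G : SimpleGraph V} (h : ¬ HasPlus G q t) : (PlusG q t).Free G := by
  rintro ⟨f⟩
  refine h ⟨fun i j => f (i, j), ?_, ?_, 0, 1, ?_⟩
  · intro p r hpr
    exact f.injective hpr
  · intro i j hij a b
    exact f.toHom.map_adj (Or.inl hij)
  · exact f.toHom.map_adj (Or.inr (Or.inl ⟨rfl, rfl⟩))

/-- (b) implies (c) -/
theorem b_to_cK [Finite α] {q : ℕ} {H : SimpleGraph α} (hb : ∀ t, WeaklyTuranGood H (PlusG q t)) (t : ℕ) :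
    ∃ n₀ : ℕ, ∀ n ≥ n₀, ∀ G : SimpleGraph (_root_.Fin n), (PlusG q t).Free G →
      G.copyCount H ≤ ex n H (⊤ : SimpleGraph (_root_.Fin (q + 2))) := by
  obtain ⟨k, hk, n₀, hn₀⟩ := hb t
  have hk' : k = q + 1 := by
    rw [plusG_chi q t] at hk
    have h := Nat.cast_injective (R := ℕ∞) hk
    omega
  subst hk'
  refine ⟨n₀, fun n hn G hG => ?_⟩
  obtain ⟨G₀, hG₀, hG₀'⟩ := hn₀ n hn
  have htop : (⊤ : SimpleGraph (_root_.Fin (q + 2))).chromaticNumber = (q + 2 : ℕ) := by
    rw [SimpleGraph.chromaticNumber_top, Fintype.card_fin]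
  calc G.copyCount H ≤ ex n H (PlusG q t) := le_exK H _ hG
    _ = G₀.copyCount H := hG₀'.symm
    _ ≤ ex n H (⊤ : SimpleGraph (_root_.Fin (q + 2))) := le_exK H _ (free_part htop hG₀)

end Pool.Agent.WTG
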