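import Pool.Agent.WTK.Defs

/-!
# [WTG-Samp] vertices with almost equal neighbourhoods (helper93)

A random sequence `S` of `s` tuples of `q = k - 2` vertices: for most `y` the neighbourhood of `y` is up to few vertices the set of the `v` such that no clique `S i` is
contained in `N(y) ∩ N(v)`, so it is determined by the set of the `i` with `S i ⊆ N(y)` (`2^s` possibilities).
-/

set_option autoImplicit false

namespace Pool.Agent.WTG

open Pool.Agent.WT7 Pool.Agent.WTK

variable {V T : Type}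

open Classical in
private theorem samp_one [Fintype T] (s : ℕ) (A : Finset T) (i : Fin s) :
    Fintype.card T * (Finset.univ.filter fun S : Fin s → T => S i ∈ A).card ≤ A.card * Fintype.card T ^ s := by
  have h := Finset.card_le_card_of_injOn
    (s := (Finset.univ : Finset T) ×ˢ (Finset.univ.filter fun S : Fin s → T => S i ∈ A))
    (t := A ×ˢ (Finset.univ : Finset (Fin s → T)))
    (fun p => (p.2 i, Function.update p.2 i p.1)) (by
      intro p hp
      simp at hp ⊢
      exact hp) (by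
      rintro ⟨w, S⟩ _ ⟨w', S'⟩ _ h
      simp only [Prod.mk.injEq] at h
      obtain ⟨h1, h2⟩ := h
      have hw : w = w' := by
        have := congrFun h2 i
        simpa using this
      subst hw
      refine Prod.ext rfl ?_
      funext j
      by_cases hj : j = i
      · subst hj
        exact h1
      · have := congrFun h2 j
        simpa [Function.update_of_ne hj] using this)
  simpa [Finset.card_product] using h

open Classical in
private theorem samp_hit [Fintype T] (s : ℕ) (A : Finset T) :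
    Fintype.card T * (Finset.univ.filter fun S : Fin s → T => ∃ i, S i ∈ A).card ≤
      s * A.card * Fintype.card T ^ s := by
  have h1 : (Finset.univ.filter fun S : Fin s → T => ∃ i, S i ∈ A)
      ⊆ Finset.univ.biUnion (fun i : Fin s => Finset.univ.filter fun S : Fin s → T => S i ∈ A) := by
    intro S hS
    simp at hS ⊢
    exact hS
  calc Fintype.card T * (Finset.univ.filter fun S : Fin s → T => ∃ i, S i ∈ A).card
      ≤ Fintype.card T * ∑ i : Fin s, (Finset.univ.filter fun S : Fin s → T => S i ∈ A).card :=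
        Nat.mul_le_mul_left _ ((Finset.card_le_card h1).trans Finset.card_biUnion_le)
    _ = ∑ i : Fin s, Fintype.card T * (Finset.univ.filter fun S : Fin s → T => S i ∈ A).card := by
        rw [Finset.mul_sum]
    _ ≤ ∑ _i : Fin s, A.card * Fintype.card T ^ s := Finset.sum_le_sum fun i _ => samp_one s A i
    _ = s * A.card * Fintype.card T ^ s := by simp [mul_assoc]

open Classical in
private theorem samp_miss [Fintype T] (s : ℕ) (A : Finset T) :
    (Finset.univ.filter fun S : Fin s → T => ∀ i, S i ∉ A).card = (Fintype.card T - A.card) ^ s := by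
  have : (Finset.univ.filter fun S : Fin s → T => ∀ i, S i ∉ A) = Fintype.piFinset (fun _ : Fin s => Aᶜ) := by
    ext S
    simp
  rw [this, Fintype.card_piFinset]
  simp [Finset.card_compl]

/-- `v` and `y` have a common test in `S` -/
private def Pr (P : V → T → Prop) {s : ℕ} (S : Fin s → T) (y v : V) : Prop := ∃ i, P y (S i) ∧ P v (S i)

open Classical in
/-- the exceptional `v` for `y` -/
private noncomputable def ExS [Fintype V] [Fintype T] (G : SimpleGraph V) (P : V → T → Prop) (η δ : ℝ) (y : V) : Finset V :=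
  Finset.univ.filter fun v =>
    (G.Adj y v ∧ η * Fintype.card T < ((Finset.univ.filter fun t : T => P y t ∧ P v t).card : ℝ)) ∨
      (¬ G.Adj y v ∧ ((Finset.univ.filter fun t : T => P y t ∧ P v t).card : ℝ) < δ * Fintype.card T)

open Classical in
/-- number of the bad `S` for a pair `y v` -/
private theorem samp_pair [Fintype V] [Fintype T] (G : SimpleGraph V) (P : V → T → Prop) {s : ℕ} {ρ η δ : ℝ} (hρ : 0 < ρ)
    (hn : 0 < Fintype.card T) (hs : (1 - δ) ^ s ≤ ρ) (hsη : (s : ℝ) * η ≤ ρ) (y v : V) :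
    ((Finset.univ.filter fun S : Fin s → T => ¬ (G.Adj y v ↔ ¬ Pr P S y v)).card : ℝ) ≤
      ρ * (Fintype.card T : ℝ) ^ s + (if v ∈ ExS G P η δ y then (Fintype.card T : ℝ) ^ s else 0) := by
  set n := Fintype.card T with hnd
  have hn' : (0 : ℝ) < n := by exact_mod_cast hn
  have hns : (0 : ℝ) ≤ (n : ℝ) ^ s := by positivity
  set A : Finset T := Finset.univ.filter fun t : T => P y t ∧ P v t with hA
  have hP : ∀ S : Fin s → T, Pr P S y v ↔ ∃ i, S i ∈ A := by
    intro S
    simp [Pr, hA]
  by_cases hv : v ∈ ExS G P η δ y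
  · rw [if_pos hv]
    have h1 : (Finset.univ.filter fun S : Fin s → T => ¬ (G.Adj y v ↔ ¬ Pr P S y v)).card ≤ n ^ s := by
      refine (Finset.card_le_univ _).trans ?_
      simp [hnd]
    have h2 : ((Finset.univ.filter fun S : Fin s → T => ¬ (G.Adj y v ↔ ¬ Pr P S y v)).card : ℝ) ≤ (n : ℝ) ^ s := by
      exact_mod_cast h1
    have h3 : 0 ≤ ρ * (n : ℝ) ^ s := by positivity
    linarith
  rw [if_neg hv, add_zero]
  have hv' : ¬ ((G.Adj y v ∧ η * n < (A.card : ℝ)) ∨ (¬ G.Adj y v ∧ (A.card : ℝ) < δ * n)) := by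
    intro h
    exact hv (Finset.mem_filter.2 ⟨Finset.mem_univ _, h⟩)
  rw [not_or] at hv'
  by_cases hyv : G.Adj y v
  · have e : (Finset.univ.filter fun S : Fin s → T => ¬ (G.Adj y v ↔ ¬ Pr P S y v))
        = Finset.univ.filter fun S : Fin s → T => ∃ i, S i ∈ A := by
      apply Finset.filter_congr
      intro S _
      rw [hP S]
      simp [hyv]
    rw [e]
    have h1 := samp_hit s A
    have h2 : (A.card : ℝ) ≤ η * n := by
      by_contra h
      exact hv'.1 ⟨hyv, not_le.1 h⟩
    have h4 : (n : ℝ) * ((Finset.univ.filter fun S : Fin s → T => ∃ i, S i ∈ A).card : ℝ) ≤ n * (ρ * n ^ s) := by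
      have h5 : (n : ℝ) * ((Finset.univ.filter fun S : Fin s → T => ∃ i, S i ∈ A).card : ℝ) ≤ s * A.card * n ^ s := by
        exact_mod_cast h1
      refine h5.trans ?_
      have h6 : (s : ℝ) * A.card ≤ s * (η * n) := mul_le_mul_of_nonneg_left h2 (Nat.cast_nonneg _)
      calc (s : ℝ) * A.card * n ^ s ≤ s * (η * n) * n ^ s := mul_le_mul_of_nonneg_right h6 hns
        _ = (s * η) * (n * n ^ s) := by ring
        _ ≤ ρ * (n * n ^ s) := mul_le_mul_of_nonneg_right hsη (by positivity)
        _ = n * (ρ * n ^ s) := by ring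
    exact le_of_mul_le_mul_left h4 hn'
  · have e : (Finset.univ.filter fun S : Fin s → T => ¬ (G.Adj y v ↔ ¬ Pr P S y v))
        = Finset.univ.filter fun S : Fin s → T => ∀ i, S i ∉ A := by
      apply Finset.filter_congr
      intro S _
      rw [hP S]
      simp [hyv]
    rw [e, samp_miss]
    have h1 : δ * n ≤ A.card := by
      by_contra hcon
      exact hv'.2 ⟨hyv, not_le.1 hcon⟩
    have h2 : A.card ≤ n := Finset.card_le_univ A
    rw [Nat.cast_pow, Nat.cast_sub h2]
    have h3 : (n : ℝ) - A.card ≤ (1 - δ) * n := by linarith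
    have h4 : (0 : ℝ) ≤ (n : ℝ) - A.card := by
      have : (A.card : ℝ) ≤ n := by exact_mod_cast h2
      linarith
    calc ((n : ℝ) - A.card) ^ s ≤ ((1 - δ) * n) ^ s := pow_le_pow_left₀ h4 h3 s
      _ = (1 - δ) ^ s * n ^ s := mul_pow _ _ _
      _ ≤ ρ * n ^ s := mul_le_mul_of_nonneg_right hs hns

open Classical in
/-- sampling, abstract form: `P y t` says that the test `t` is positive for `y` -/
private theorem samp_abs [Fintype V] [Nonempty V] [Fintype T] [Nonempty T] (G : SimpleGraph V) (P : V → T → Prop) {s : ℕ}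
    {ρ η δ : ℝ} (hρ : 0 < ρ) (hs : (1 - δ) ^ s ≤ ρ) (hsη : (s : ℝ) * η ≤ ρ)
    (hex : ∀ y, ((ExS G P η δ y).card : ℝ) ≤ ρ * Fintype.card V) (E : Set V) :
    ∃ X : Set V, X ⊆ E ∧ E.ncard ≤ (2 * 2 ^ s) * X.ncard ∧ ∀ x ∈ X, ∀ x' ∈ X,
        ((symmDiff (G.neighborSet x) (G.neighborSet x')).ncard : ℝ) ≤ 8 * ρ * Fintype.card V := by
  set n := Fintype.card V with hnd
  set N := Fintype.card T with hNd
  have hn : 0 < n := Fintype.card_pos
  have hN : 0 < N := Fintype.card_pos
  have hn' : (0 : ℝ) < n := by exact_mod_cast hn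
  have hN' : (0 : ℝ) < N := by exact_mod_cast hN
  -- the bad vertices
  let bad : (Fin s → T) → V → Finset V := fun S y => Finset.univ.filter fun v => ¬ (G.Adj y v ↔ ¬ Pr P S y v)
  have hy : ∀ y, (∑ S : Fin s → T, ((bad S y).card : ℝ)) ≤ 2 * ρ * n * N ^ s := by
    intro y
    have h1 : (∑ S : Fin s → T, ((bad S y).card : ℝ))
        = ∑ v : V, ((Finset.univ.filter fun S : Fin s → T => ¬ (G.Adj y v ↔ ¬ Pr P S y v)).card : ℝ) := by
      have := Finset.sum_card_bipartiteAbove_eq_sum_card_bipartiteBelow (s := (Finset.univ : Finset (Fin s → T)))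
        (t := (Finset.univ : Finset V)) (fun S v => ¬ (G.Adj y v ↔ ¬ Pr P S y v))
      exact_mod_cast this
    rw [h1]
    calc (∑ v : V, ((Finset.univ.filter fun S : Fin s → T => ¬ (G.Adj y v ↔ ¬ Pr P S y v)).card : ℝ))
        ≤ ∑ v : V, (ρ * (N : ℝ) ^ s + (if v ∈ ExS G P η δ y then (N : ℝ) ^ s else 0)) :=
          Finset.sum_le_sum fun v _ => samp_pair G P hρ hN hs hsη y v
      _ = n * (ρ * (N : ℝ) ^ s) + (ExS G P η δ y).card * (N : ℝ) ^ s := by
          rw [Finset.sum_add_distrib, ← Finset.sum_filter]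
          simp only [Finset.sum_const, nsmul_eq_mul, Finset.card_univ]
          congr 4
          ext v
          simp
      _ ≤ n * (ρ * (N : ℝ) ^ s) + (ρ * n) * (N : ℝ) ^ s := by
          have := mul_le_mul_of_nonneg_right (hex y) (by positivity : (0 : ℝ) ≤ (N : ℝ) ^ s)
          linarith
      _ = 2 * ρ * n * N ^ s := by ring
  set Ef : Finset V := E.toFinset with hEf
  have hEc : E.ncard = Ef.card := Set.ncard_eq_toFinset_card' E
  -- a good sequence
  obtain ⟨S, -, hS⟩ : ∃ S ∈ (Finset.univ : Finset (Fin s → T)), (∑ y ∈ Ef, ((bad S y).card : ℝ)) ≤ 2 * ρ * n * Ef.card := by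
    apply Finset.exists_le_of_sum_le Finset.univ_nonempty
    rw [Finset.sum_comm]
    calc (∑ y ∈ Ef, ∑ S : Fin s → T, ((bad S y).card : ℝ)) ≤ ∑ _y ∈ Ef, 2 * ρ * n * N ^ s :=
          Finset.sum_le_sum fun y _ => hy y
      _ = ∑ _S : Fin s → T, 2 * ρ * n * Ef.card := by
          simp only [Finset.sum_const, nsmul_eq_mul, Finset.card_univ, Fintype.card_fun, Fintype.card_fin]
          push_cast
          ring
  set good : Finset V := Ef.filter fun y => ((bad S y).card : ℝ) ≤ 4 * ρ * n with hgood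
  have hg : (Ef.card : ℝ) ≤ 2 * good.card := by
    have h1 : (Ef.filter fun y => ¬ ((bad S y).card : ℝ) ≤ 4 * ρ * n).card • (4 * ρ * n)
        ≤ ∑ y ∈ Ef, ((bad S y).card : ℝ) := by
      refine (Finset.card_nsmul_le_sum _ _ _ ?_).trans
        (Finset.sum_le_sum_of_subset_of_nonneg (Finset.filter_subset _ _) fun _ _ _ => Nat.cast_nonneg _)
      intro y hy
      exact (lt_of_not_ge (Finset.mem_filter.1 hy).2).le
    have h2 : (good.card : ℝ) + (Ef.filter fun y => ¬ ((bad S y).card : ℝ) ≤ 4 * ρ * n).card = Ef.card := by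
      exact_mod_cast Finset.card_filter_add_card_filter_not (s := Ef) (fun y => ((bad S y).card : ℝ) ≤ 4 * ρ * n)
    rw [nsmul_eq_mul] at h1
    have h3 := h1.trans hS
    have h4 : 0 < 2 * ρ * n := by positivity
    have h5 : 2 * ρ * n * (2 * ((Ef.filter fun y => ¬ ((bad S y).card : ℝ) ≤ 4 * ρ * n).card : ℝ)) ≤ 2 * ρ * n * Ef.card := by
      linarith
    have h6 := le_of_mul_le_mul_left h5 h4
    linarith
  -- pigeonhole for the traces
  let tr : V → (Fin s → Bool) := fun y i => decide (P y (S i))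
  obtain ⟨t, -, ht⟩ : ∃ t ∈ (Finset.univ : Finset (Fin s → Bool)),
      (good.card : ℝ) / 2 ^ s ≤ ((good.filter fun y => tr y = t).card : ℝ) := by
    apply Finset.exists_le_of_sum_le Finset.univ_nonempty
    have h1 : good.card = ∑ t : Fin s → Bool, (good.filter fun y => tr y = t).card :=
      Finset.card_eq_sum_card_fiberwise (fun x _ => Finset.mem_coe.2 (Finset.mem_univ _))
    have h2 : (good.card : ℝ) = ∑ t : Fin s → Bool, ((good.filter fun y => tr y = t).card : ℝ) := by
      exact_mod_cast h1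
    rw [← h2]
    simp only [Finset.sum_const, nsmul_eq_mul, Finset.card_univ, Fintype.card_fun, Fintype.card_fin, Fintype.card_bool]
    push_cast
    have : (0 : ℝ) < 2 ^ s := by positivity
    rw [mul_div_cancel₀ _ this.ne']
  refine ⟨(good.filter fun y => tr y = t : Finset V), ?_, ?_, ?_⟩
  · intro y hy
    have h1 : y ∈ Ef := (Finset.mem_filter.1 (Finset.mem_filter.1 (Finset.mem_coe.1 hy)).1).1
    simpa [hEf] using h1
  · rw [Set.ncard_coe_finset, hEc]
    have h0 : (0 : ℝ) < 2 ^ s := by positivity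
    rw [div_le_iff₀ h0] at ht
    have h1 : (Ef.card : ℝ) ≤ 2 * 2 ^ s * ((good.filter fun y => tr y = t).card : ℝ) := by
      calc (Ef.card : ℝ) ≤ 2 * good.card := hg
        _ ≤ 2 * (((good.filter fun y => tr y = t).card : ℝ) * 2 ^ s) := by linarith
        _ = _ := by ring
    exact_mod_cast h1
  · intro x hx x' hx'
    have hx1 := Finset.mem_filter.1 (Finset.mem_coe.1 hx)
    have hx2 := Finset.mem_filter.1 (Finset.mem_coe.1 hx')
    have hb1 := (Finset.mem_filter.1 hx1.1).2
    have hb2 := (Finset.mem_filter.1 hx2.1).2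
    have htr : ∀ i, P x (S i) ↔ P x' (S i) := by
      intro i
      have h1 : tr x i = tr x' i := by rw [hx1.2, hx2.2]
      simpa [tr] using h1
    have hPr : ∀ v, Pr P S x v ↔ Pr P S x' v := by
      intro v
      unfold Pr
      simp only [htr]
    have hsub : symmDiff (G.neighborSet x) (G.neighborSet x') ⊆ ((bad S x ∪ bad S x' : Finset V) : Set V) := by
      intro v hv
      rw [Finset.mem_coe, Finset.mem_union]
      by_contra hcon
      rw [not_or] at hcon
      have h1 : G.Adj x v ↔ ¬ Pr P S x v := by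
        by_contra h
        exact hcon.1 (Finset.mem_filter.2 ⟨Finset.mem_univ _, h⟩)
      have h2 : G.Adj x' v ↔ ¬ Pr P S x' v := by
        by_contra h
        exact hcon.2 (Finset.mem_filter.2 ⟨Finset.mem_univ _, h⟩)
      have h3 : G.Adj x v ↔ G.Adj x' v := by rw [h1, h2, hPr v]
      rw [Set.mem_symmDiff] at hv
      simp only [SimpleGraph.mem_neighborSet] at hv
      tauto
    have h1 : (symmDiff (G.neighborSet x) (G.neighborSet x')).ncard ≤ (bad S x).card + (bad S x').card := by
      refine (Set.ncard_le_ncard hsub (Set.toFinite _)).trans ?_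
      rw [Set.ncard_coe_finset]
      exact Finset.card_union_le _ _
    have h2 : ((symmDiff (G.neighborSet x) (G.neighborSet x')).ncard : ℝ) ≤ (bad S x).card + (bad S x').card := by
      exact_mod_cast h1
    linarith

open Classical in
/-- few `(q+1)`-cliques in `N(y)`: few `v ∈ N(y)` with many `q`-cliques in `N(v) ∩ N(y)` -/
theorem few_adj [Finite V] (G : SimpleGraph V) (q : ℕ) {η η' : ℝ} (y : V)
    (h : ((cq G (G.neighborSet y) (Fin (q + 1))).ncard : ℝ) ≤ η * η' * (Nat.card V : ℝ) ^ (q + 1)) (hη' : 0 < η') :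
    (({v | G.Adj y v ∧ η' * (Nat.card V : ℝ) ^ q < ((cq G (G.neighborSet v ∩ G.neighborSet y) (Fin q)).ncard : ℝ)}).ncard : ℝ)
      ≤ η * Nat.card V := by
  have := Fintype.ofFinite V
  have hV : Nonempty V := ⟨y⟩
  have hn : (0 : ℝ) < (Nat.card V : ℝ) := by exact_mod_cast Nat.card_pos
  set B : Finset V := Finset.univ.filter fun v =>
    G.Adj y v ∧ η' * (Nat.card V : ℝ) ^ q < ((cq G (G.neighborSet v ∩ G.neighborSet y) (Fin q)).ncard : ℝ) with hB
  have hBn : ({v | G.Adj y v ∧ η' * (Nat.card V : ℝ) ^ q < ((cq G (G.neighborSet v ∩ G.neighborSet y) (Fin q)).ncard : ℝ)}).ncard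
      = B.card := by
    rw [Set.ncard_eq_toFinset_card']
    congr 1
    ext v
    simp [hB]
  rw [hBn]
  have h1 : ∑ v ∈ B, (cq G (G.neighborSet v ∩ G.neighborSet y) (Fin q)).ncard ≤
      (cq G (G.neighborSet y) (Fin (q + 1))).ncard := by
    have h2 : ∑ v ∈ B, (cq G (G.neighborSet v ∩ G.neighborSet y) (Fin q)).ncard =
        (B.sigma fun v => (cq G (G.neighborSet v ∩ G.neighborSet y) (Fin q)).toFinset).card := by
      rw [Finset.card_sigma]
      refine Finset.sum_congr rfl fun v _ => ?_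
      rw [Set.ncard_eq_toFinset_card']
    rw [h2, Set.ncard_eq_toFinset_card']
    refine Finset.card_le_card_of_injOn (fun p => (Fin.cons p.1 p.2 : Fin (q + 1) → V)) ?_ ?_
    · rintro ⟨v, f⟩ hp
      simp only [Finset.coe_sigma, Set.mem_sigma_iff, Finset.mem_coe, Set.mem_toFinset] at hp
      obtain ⟨hv, hf⟩ := hp
      have hyv : G.Adj y v := ((Finset.mem_filter.1 hv).2).1
      simp only [Set.coe_toFinset]
      refine ⟨?_, ?_⟩
      · intro i
        refine Fin.cases ?_ (fun j => ?_) i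
        · exact hyv
        · exact (hf.1 j).2
      · intro i j
        refine Fin.cases ?_ (fun i' => ?_) i
        · refine Fin.cases ?_ (fun j' => ?_) j
          · intro h
            exact absurd rfl h
          · intro _
            exact (hf.1 j').1
        · refine Fin.cases ?_ (fun j' => ?_) j
          · intro _
            exact (hf.1 i').1.symm
          · intro h
            exact hf.2 i' j' fun h' => h (by rw [h'])
    · rintro ⟨v, f⟩ _ ⟨v', f'⟩ _ h
      have h' := (Fin.cons_injective2 (α := fun _ => V)) h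
      obtain ⟨rfl, rfl⟩ := h'
      rfl
  have h2 : (B.card : ℝ) * (η' * (Nat.card V : ℝ) ^ q) ≤ η * η' * (Nat.card V : ℝ) ^ (q + 1) := by
    refine le_trans ?_ h
    have h3 : (B.card : ℝ) * (η' * (Nat.card V : ℝ) ^ q) ≤
        ∑ v ∈ B, ((cq G (G.neighborSet v ∩ G.neighborSet y) (Fin q)).ncard : ℝ) := by
      rw [← nsmul_eq_mul]
      exact Finset.card_nsmul_le_sum _ _ _ fun v hv => ((Finset.mem_filter.1 hv).2).2.le
    refine h3.trans ?_
    exact_mod_cast h1
  have h3 : (0 : ℝ) < η' * (Nat.card V : ℝ) ^ q := by positivity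
  have h4 : (B.card : ℝ) * (η' * (Nat.card V : ℝ) ^ q) ≤ (η * Nat.card V) * (η' * (Nat.card V : ℝ) ^ q) := by
    refine h2.trans (le_of_eq ?_)
    ring
  exact le_of_mul_le_mul_right h4 h3

/-- sampling: every set of vertices contains a positive fraction of vertices with almost equal neighbourhoods -/
theorem samp (q : ℕ) {κ δ : ℝ} (hκ : 0 < κ) (hδ : 0 < δ) : ∃ η : ℝ, 0 < η ∧ ∃ K : ℕ, 0 < K ∧
    ∀ (V : Type) [Finite V] (G : SimpleGraph V),
      (∀ u, ((cq G (G.neighborSet u) (Fin (q + 1))).ncard : ℝ) ≤ η * (Nat.card V : ℝ) ^ (q + 1)) →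
      (∀ u, (({y | y ∉ G.neighborSet u ∧ y ∉ R G q (G.neighborSet u) δ}).ncard : ℝ) ≤ κ / 24 * Nat.card V) →
      ∀ E : Set V, ∃ X : Set V, X ⊆ E ∧ E.ncard ≤ K * X.ncard ∧ ∀ x ∈ X, ∀ x' ∈ X,
        ((symmDiff (G.neighborSet x) (G.neighborSet x')).ncard : ℝ) ≤ κ * Nat.card V := by
  classical
  set ρ : ℝ := κ / 12 with hρd
  have hρ : 0 < ρ := by positivity
  set δ' : ℝ := min δ (1 / 2) with hδ'd
  have hδ' : 0 < δ' := lt_min hδ (by norm_num)
  obtain ⟨s, hs⟩ := exists_pow_lt_of_lt_one hρ (show 1 - δ' < 1 by linarith)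
  set η' : ℝ := ρ / (s + 1) with hη'd
  have hs1 : (0 : ℝ) < (s : ℝ) + 1 := by positivity
  have hη' : 0 < η' := div_pos hρ hs1
  have hsη : (s : ℝ) * η' ≤ ρ := by
    rw [hη'd, mul_div_assoc']
    rw [div_le_iff₀ hs1]
    nlinarith
  refine ⟨κ / 24 * η', by positivity, 2 * 2 ^ s, by positivity, ?_⟩
  intro V _ G hfew hZ E
  rcases isEmpty_or_nonempty V with hV | hV
  · refine ⟨∅, Set.empty_subset _, ?_, fun x => isEmptyElim x⟩
    rw [Set.eq_empty_of_isEmpty E]
    simp
  have := Fintype.ofFinite V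
  have hcV : Nat.card V = Fintype.card V := Nat.card_eq_fintype_card
  have hcT : ((Fintype.card (Fin q → V) : ℕ) : ℝ) = (Nat.card V : ℝ) ^ q := by
    rw [Fintype.card_fun, Fintype.card_fin, hcV]
    push_cast
    rfl
  let P : V → (Fin q → V) → Prop := fun y t => (∀ i, G.Adj y (t i)) ∧ ∀ i j, i ≠ j → G.Adj (t i) (t j)
  have hPc : ∀ y v (inst : DecidablePred fun t : Fin q → V => P y t ∧ P v t),
      ((@Finset.filter _ (fun t : Fin q → V => P y t ∧ P v t) inst Finset.univ).card : ℝ) =
      ((cq G (G.neighborSet v ∩ G.neighborSet y) (Fin q)).ncard : ℝ) := by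
    intro y v inst
    rw [Set.ncard_eq_toFinset_card']
    congr 2
    ext t
    simp only [Finset.mem_filter, Finset.mem_univ, true_and, Set.mem_toFinset]
    constructor
    · rintro ⟨⟨h1, h2⟩, h3, -⟩
      exact ⟨fun i => ⟨h3 i, h1 i⟩, h2⟩
    · rintro ⟨h1, h2⟩
      exact ⟨⟨fun i => (h1 i).2, h2⟩, fun i => (h1 i).1, h2⟩
  obtain ⟨X, hX1, hX2, hX3⟩ := samp_abs G P (s := s) (ρ := ρ) (η := η') (δ := δ') hρ hs.le hsη (by
    intro y
    have hsub : ExS G P η' δ' y ⊆
        ({v | G.Adj y v ∧ η' * (Nat.card V : ℝ) ^ q < ((cq G (G.neighborSet v ∩ G.neighborSet y) (Fin q)).ncard : ℝ)}).toFinset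
          ∪ ({v | v ∉ G.neighborSet y ∧ v ∉ R G q (G.neighborSet y) δ}).toFinset := by
      intro v hv
      have hv' := (Finset.mem_filter.1 hv).2
      rw [hPc, hcT] at hv'
      rw [Finset.mem_union, Set.mem_toFinset, Set.mem_toFinset]
      rcases hv' with h | ⟨h1, h2⟩
      · exact Or.inl h
      · refine Or.inr ⟨h1, fun h3 => ?_⟩
        have h3' : δ * (Nat.card V : ℝ) ^ q ≤ ((cq G (G.neighborSet v ∩ G.neighborSet y) (Fin q)).ncard : ℝ) := h3
        have h4 : δ' * (Nat.card V : ℝ) ^ q ≤ δ * (Nat.card V : ℝ) ^ q :=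
          mul_le_mul_of_nonneg_right (min_le_left _ _) (by positivity)
        linarith
    have h1 : (((ExS G P η' δ' y).card : ℕ) : ℝ) ≤
        (({v | G.Adj y v ∧ η' * (Nat.card V : ℝ) ^ q < ((cq G (G.neighborSet v ∩ G.neighborSet y) (Fin q)).ncard : ℝ)}).ncard : ℝ) +
          (({v | v ∉ G.neighborSet y ∧ v ∉ R G q (G.neighborSet y) δ}).ncard : ℝ) := by
      rw [Set.ncard_eq_toFinset_card', Set.ncard_eq_toFinset_card']
      exact_mod_cast (Finset.card_le_card hsub).trans (Finset.card_union_le _ _)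
    have h2 := few_adj G q y (hfew y) hη'
    have h3 := hZ y
    rw [← hcV]
    calc _ ≤ _ := h1
      _ ≤ κ / 24 * Nat.card V + κ / 24 * Nat.card V := add_le_add h2 h3
      _ = ρ * Nat.card V := by rw [hρd]; ring) E
  refine ⟨X, hX1, hX2, fun x hx x' hx' => (hX3 x hx x' hx').trans ?_⟩
  rw [← hcV, hρd]
  have : (0 : ℝ) ≤ κ * Nat.card V := by positivity
  linarith

end Pool.Agent.WTG
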